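import Pool.Agent.R951.FH.Defs

/-!
# MP_15ac55_ag: the graded group algebra and the algebra of class functions
-/

set_option autoImplicit false

namespace Pool.Agent.R951.FH

open Equiv Finset MvPolynomial

section bilin

variable {α : Type} [Fintype α] [DecidableEq α]

theorem cv_add_left (f f' g : Perm α → ℚ) : cv (f + f') g = cv f g + cv f' g := by
  funext π
  simp only [cv, Pi.add_apply, ← Finset.sum_add_distrib]
  refine Finset.sum_congr rfl fun σ _ => ?_
  split_ifs <;> ring

theorem cv_add_right (f g g' : Perm α → ℚ) : cv f (g + g') = cv f g + cv f g' := by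
  funext π
  simp only [cv, Pi.add_apply, ← Finset.sum_add_distrib]
  refine Finset.sum_congr rfl fun σ _ => ?_
  split_ifs <;> ring

theorem cv_smul_left (c : ℚ) (f g : Perm α → ℚ) : cv (c • f) g = c • cv f g := by
  funext π
  simp only [cv, Pi.smul_apply, smul_eq_mul, Finset.mul_sum]
  refine Finset.sum_congr rfl fun σ _ => ?_
  split_ifs <;> ring

theorem cv_smul_right (c : ℚ) (f g : Perm α → ℚ) : cv f (c • g) = c • cv f g := by
  funext π
  simp only [cv, Pi.smul_apply, smul_eq_mul, Finset.mul_sum]
  refine Finset.sum_congr rfl fun σ _ => ?_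
  split_ifs <;> ring

theorem cv_zero_left (g : Perm α → ℚ) : cv 0 g = 0 := by
  funext π
  simp [cv]

theorem cv_zero_right (f : Perm α → ℚ) : cv f 0 = 0 := by
  funext π
  simp [cv]

theorem nm_one : nm (1 : Perm α) = 0 := by
  unfold nm
  rw [Perm.parts_partition]
  simp

theorem cv_one_left (f : Perm α → ℚ) : cv (fun σ => if σ = 1 then 1 else 0) f = f := by
  funext π
  unfold cv
  rw [Finset.sum_eq_single 1]
  · simp [nm_one]
  · intro b _ hb
    simp [hb]
  · intro h
    exact absurd (Finset.mem_univ _) h

theorem cv_one_right (f : Perm α → ℚ) : cv f (fun σ => if σ = 1 then 1 else 0) = f := by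
  funext π
  unfold cv
  rw [Finset.sum_eq_single π]
  · simp [nm_one]
  · intro b _ hb
    have : b⁻¹ * π ≠ 1 := by
      intro h
      exact hb (inv_mul_eq_one.mp h)
    simp [this]
  · intro h
    exact absurd (Finset.mem_univ _) h

end bilin

end Pool.Agent.R951.FH
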