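import Pool.Agent.R951.FH.Gen

/-!
# FH-BIJ: graded generator systems give bijections (helper179)
-/

set_option autoImplicit false

namespace Pool.Agent.R951.FH.Bij

open Finset MvPolynomial Pool.Agent.R951.FH.Gen

theorem weight_toFinsupp (s : T) : Finsupp.weight wi (Multiset.toFinsupp s) = N s := by
  induction s using Multiset.induction with
  | empty => simp [N_zero]
  | cons k s ih =>
    rw [← Multiset.singleton_add, map_add, map_add, ih, Multiset.toFinsupp_singleton,
      Finsupp.weight_single, Multiset.singleton_add, N_cons]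
    simp [wi]

/-- types and exponents -/
noncomputable def eqv (n : ℕ) : {s : T // N s = n} ≃ {d : ℕ →₀ ℕ // Finsupp.weight wi d = n} :=
  Equiv.subtypeEquiv Multiset.toFinsupp.toEquiv (fun s => by
    change N s = n ↔ Finsupp.weight wi (Multiset.toFinsupp s) = n
    rw [weight_toFinsupp])

/-- the coefficients -/
noncomputable def cof (n : ℕ) : weightedHomogeneousSubmodule ℚ wi n →ₗ[ℚ]
    ({d : ℕ →₀ ℕ // Finsupp.weight wi d = n} → ℚ) where
  toFun p := fun d => coeff d.1 (p : MvPolynomial ℕ ℚ)
  map_add' p q := by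
    funext d
    simp
  map_smul' c p := by
    funext d
    simp

theorem cof_injective (n : ℕ) : Function.Injective (cof n) := by
  intro p q hpq
  apply Subtype.ext
  apply MvPolynomial.ext
  intro d
  by_cases hd : Finsupp.weight wi d = n
  · exact congrFun hpq ⟨d, hd⟩
  · have h1 : coeff d (p : MvPolynomial ℕ ℚ) = 0 := by
      by_contra h
      exact hd ((mem_weightedHomogeneousSubmodule ℚ wi n _).1 p.2 h)
    have h2 : coeff d (q : MvPolynomial ℕ ℚ) = 0 := by
      by_contra h
      exact hd ((mem_weightedHomogeneousSubmodule ℚ wi n _).1 q.2 h)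
    rw [h1, h2]

theorem main : S_BIJ := by
  intro G _ _ D h hh hc n
  have hsub : ∀ n, Im h n = D.gp n := by
    intro n
    apply le_antisymm
    · rintro x ⟨p, hp, rfl⟩
      exact aeval_mem D.gp (one_mem_gp D) (mul_mem_gp D) h hh hp
    · intro x hx
      rw [← Im_c D n] at hx
      obtain ⟨p, hp, rfl⟩ := hx
      exact aeval_mem (Im h) one_mem_Im mul_mem_Im D.c hc hp
  refine ⟨hsub n, ?_⟩
  haveI hfin : Finite {s : T // N s = n} := (finite_types n).to_subtype
  haveI hfin2 : Finite {d : ℕ →₀ ℕ // Finsupp.weight wi d = n} := Finite.of_equiv _ (eqv n)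
  haveI := Fintype.ofFinite {d : ℕ →₀ ℕ // Finsupp.weight wi d = n}
  haveI hfd : FiniteDimensional ℚ (weightedHomogeneousSubmodule ℚ wi n) :=
    FiniteDimensional.of_injective (cof n) (cof_injective n)
  haveI hfd2 : FiniteDimensional ℚ (D.gp n) := fd D n
  have hle : Module.finrank ℚ (weightedHomogeneousSubmodule ℚ wi n) ≤ Module.finrank ℚ (D.gp n) := by
    refine (LinearMap.finrank_le_finrank_of_injective (cof_injective n)).trans ?_
    rw [Module.finrank_fintype_fun_eq_card, finrank_gp, ← Nat.card_eq_fintype_card,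
      Nat.card_congr (eqv n)]
  -- the restricted map
  let f : weightedHomogeneousSubmodule ℚ wi n →ₗ[ℚ] D.gp n :=
    ((aeval h : MvPolynomial ℕ ℚ →ₐ[ℚ] G).toLinearMap.restrict (fun p hp => by
      have : (aeval h : MvPolynomial ℕ ℚ →ₐ[ℚ] G).toLinearMap p ∈ Im h n := ⟨p, hp, rfl⟩
      rwa [hsub n] at this))
  have hfs : Function.Surjective f := by
    rintro ⟨x, hx⟩
    rw [← hsub n] at hx
    obtain ⟨p, hp, hpx⟩ := hx
    exact ⟨⟨p, hp⟩, Subtype.ext hpx⟩
  have hge : Module.finrank ℚ (D.gp n) ≤ Module.finrank ℚ (weightedHomogeneousSubmodule ℚ wi n) :=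
    LinearMap.finrank_le_finrank_of_surjective hfs
  have hfi : Function.Injective f :=
    (LinearMap.injective_iff_surjective_of_finrank_eq_finrank (le_antisymm hle hge)).2 hfs
  intro p hp hp0
  have h1 : f ⟨p, hp⟩ = 0 := Subtype.ext hp0
  have h2 := hfi (h1.trans (map_zero f).symm)
  exact congrArg Subtype.val h2

end Pool.Agent.R951.FH.Bij
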