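import Pool.Agent.R951.FH.Stm

/-!
# MP_15ac55_ag, FH-CNT: factorisations cycle = cycle * involution
-/

set_option autoImplicit false

namespace Pool.Agent.R951.FH.CNT

open Equiv Finset
open Pool.Agent.R951.FH

theorem size_eq (s : T) : size s = N s + Multiset.card s := by
  unfold size N
  induction s using Multiset.induction_on with
  | empty => simp
  | cons a s ih => simp only [Multiset.map_cons, Multiset.sum_cons, Multiset.card_cons]; omega

theorem N_rep (m : ℕ) : N (Multiset.replicate m 0) = m := by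
  simp [N]

theorem size_rep (m : ℕ) : size (Multiset.replicate m 0) = 2 * m := by
  simp [size, mul_comm]

theorem N_sing (k : ℕ) : N {k} = k + 1 := by simp [N]

theorem size_sing (k : ℕ) : size {k} = k + 2 := by simp [size]

variable {α : Type} [Fintype α] [DecidableEq α]

theorem tp_inv_of (τ : Perm α) (m : ℕ) (h : tp τ = Multiset.replicate m 0) (y : α) :
    τ (τ y) = y := by
  have h2 : τ ^ 2 = 1 := by
    rw [Perm.pow_prime_eq_one_iff]
    intro c hc
    have h3 : c - 2 ∈ tp τ := Multiset.mem_map_of_mem _ hc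
    rw [h] at h3
    have h4 := Multiset.eq_of_mem_replicate h3
    have h5 := Perm.two_le_of_mem_cycleType hc
    omega
  have := congrArg (fun f : Perm α => f y) h2
  simpa [pow_two] using this

theorem tp_of_inv (hN : S_NORM) (τ : Perm α) (m : ℕ) (h : ∀ y, τ (τ y) = y)
    (hc : τ.support.card = 2 * m) : tp τ = Multiset.replicate m 0 := by
  have h2 : τ ^ 2 = 1 := by
    ext y
    simp [pow_two, h]
  rw [Perm.pow_prime_eq_one_iff] at h2
  have h3 : ∀ b ∈ tp τ, b = 0 := by
    intro b hb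
    obtain ⟨c, hc, rfl⟩ := Multiset.mem_map.1 hb
    rw [h2 c hc]
  have h4 := Multiset.eq_replicate_card.2 h3
  have h5 := (hN α τ 1).2.1
  rw [h4, size_rep, hc] at h5
  rw [h4]
  congr 1
  omega

theorem two_cycle (π : Perm α) (y : α) (h1 : π y ≠ y) (h2 : π (π y) = y) : 0 ∈ tp π := by
  have hc : (π.cycleOf y).IsCycle := Perm.isCycle_cycleOf π h1
  have h3 : (π.cycleOf y) ^ 2 = 1 := by
    rw [hc.pow_eq_one_iff]
    refine ⟨y, ?_, ?_⟩
    · rwa [Perm.cycleOf_apply_self]
    · rw [Perm.cycleOf_pow_apply_self]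
      simp [pow_two, h2]
  have h4 : (π.cycleOf y).support.card = 2 := by
    rw [← hc.orderOf]
    exact orderOf_eq_prime h3 hc.ne_one
  have h5 : 2 ∈ π.cycleType := by
    rw [Perm.cycleType_def]
    refine Multiset.mem_map.2 ⟨π.cycleOf y, ?_, h4⟩
    rw [Finset.mem_val, Perm.cycleOf_mem_cycleFactorsFinset_iff]
    exact Perm.mem_support.2 h1
  exact Multiset.mem_map.2 ⟨2, h5, rfl⟩

theorem type_of (hN : S_NORM) (σ π : Perm α) (k m : ℕ) (h0 : 0 ∉ tp π) (hσ : tp σ = {k})
    (hτ : tp (σ⁻¹ * π) = Multiset.replicate m 0) (hn : nm σ + nm (σ⁻¹ * π) = nm π) :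
    tp π = {k + m} := by
  have hmul : σ * (σ⁻¹ * π) = π := by group
  have hcard : Multiset.card σ.cycleType = 1 := by
    have := congrArg Multiset.card hσ
    simpa [tp] using this
  have hcyc : σ.IsCycle := Perm.card_cycleType_eq_one.1 hcard
  have hsame : ∀ x, π.SameCycle x (σ x) := by
    have := (hN α σ (σ⁻¹ * π)).2.2.2
    rw [hmul] at this
    exact this hn.symm
  obtain ⟨x0, hx0, hall⟩ := hcyc
  have hS : ∀ y, σ.SameCycle x0 y → π.SameCycle x0 y := by
    intro y hy
    obtain ⟨i, _, hi⟩ := hy.exists_pow_eq'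
    subst hi
    clear hy
    have : ∀ i : ℕ, π.SameCycle x0 ((σ ^ i) x0) := by
      intro i
      induction i with
      | zero => exact Perm.SameCycle.refl _ _
      | succ n ih =>
        rw [pow_succ', Perm.mul_apply]
        exact ih.trans (hsame _)
    exact this i
  have hfix : ∀ y, ¬ π.SameCycle x0 y → σ y = y := by
    intro y hy
    by_contra hne
    exact hy (hS y (hall hne))
  have hinv := tp_inv_of _ m hτ
  have hcov : ∀ y, π y ≠ y → π.SameCycle x0 y := by
    intro y hy
    by_contra hne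
    have hne1 : ¬ π.SameCycle x0 (π y) := by
      rwa [Perm.sameCycle_apply_right]
    have hne2 : ¬ π.SameCycle x0 (π (π y)) := by
      rwa [Perm.sameCycle_apply_right]
    have e1 : (σ⁻¹ * π) y = π y := by
      rw [Perm.mul_apply, Perm.inv_eq_iff_eq, hfix _ hne1]
    have e2 : (σ⁻¹ * π) (π y) = π (π y) := by
      rw [Perm.mul_apply, Perm.inv_eq_iff_eq, hfix _ hne2]
    have e3 := hinv y
    rw [e1, e2] at e3
    exact h0 (two_cycle π y hy e3)
  have hx : π x0 ≠ x0 := by
    intro h
    have h2 := (hsame x0).eq_of_left h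
    exact hx0 h2.symm
  have hpc : π.IsCycle := ⟨x0, hx, fun y hy => hcov y hy⟩
  have ht : tp π = {π.support.card - 2} := by
    unfold tp
    rw [hpc.cycleType]
    simp
  have n1 := (hN α σ 1).1
  have n2 := (hN α (σ⁻¹ * π) 1).1
  have n3 := (hN α π 1).1
  rw [hσ, N_sing] at n1
  rw [hτ, N_rep] at n2
  rw [ht, N_sing] at n3
  rw [ht]
  congr 1
  omega

/-! ### the cyclic shift -/

section shift

variable {L : ℕ} [NeZero L]

/-- The product of the transpositions `(x, x + 1)`, `x ∈ S`, as a function. -/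
def tf (S : Finset (ZMod L)) (x : ZMod L) : ZMod L :=
  if x ∈ S then x + 1 else if x - 1 ∈ S then x - 1 else x

theorem tf_tf (S : Finset (ZMod L)) (hS : ∀ x ∈ S, x + 1 ∉ S) (x : ZMod L) :
    tf S (tf S x) = x := by
  by_cases h1 : x ∈ S
  · have h2 := hS x h1
    simp [tf, h1, h2]
  · by_cases h3 : x - 1 ∈ S
    · simp [tf, h1, h3]
    · simp [tf, h1, h3]

/-- The involution of a set without adjacent elements. -/
def tS (S : Finset (ZMod L)) (hS : ∀ x ∈ S, x + 1 ∉ S) : Perm (ZMod L) where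
  toFun := tf S
  invFun := tf S
  left_inv := tf_tf S hS
  right_inv := tf_tf S hS

theorem supp_tS (hL : 2 ≤ L) (S : Finset (ZMod L)) (hS : ∀ x ∈ S, x + 1 ∉ S) :
    (tS S hS).support = S ∪ S.image (fun x => x + 1) := by
  have : Fact (1 < L) := ⟨by omega⟩
  ext x
  rw [Perm.mem_support, Finset.mem_union, Finset.mem_image]
  change tf S x ≠ x ↔ _
  constructor
  · intro h
    by_contra hne
    push Not at hne
    apply h
    have h3 : x - 1 ∉ S := fun h3 => hne.2 _ h3 (by ring)
    simp [tf, hne.1, h3]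
  · rintro (h | ⟨y, hy, rfl⟩)
    · simp [tf, h]
    · simp [tf, hS y hy, hy]

theorem card_union (S : Finset (ZMod L)) (hS : ∀ x ∈ S, x + 1 ∉ S) :
    (S ∪ S.image (fun x => x + 1)).card = 2 * S.card := by
  rw [Finset.card_union_of_disjoint]
  · rw [Finset.card_image_of_injective _ (add_left_injective 1)]
    ring
  · rw [Finset.disjoint_left]
    intro x hx hx2
    obtain ⟨y, hy, rfl⟩ := Finset.mem_image.1 hx2
    exact hS y hy hx

/-- The shift. -/
def zt (L : ℕ) : Perm (ZMod L) := Equiv.addRight 1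

theorem zt_apply (x : ZMod L) : zt L x = x + 1 := rfl

theorem tp_zt (hL : 2 ≤ L) : tp (zt L) = {L - 2} := by
  have : Fact (1 < L) := ⟨by omega⟩
  have hpow : ∀ n : ℕ, ((zt L) ^ n) 0 = (n : ZMod L) := by
    intro n
    induction n with
    | zero => simp
    | succ n ih => rw [pow_succ', Perm.mul_apply, ih, zt_apply]; push_cast; ring
  have hc : (zt L).IsCycle := by
    refine ⟨0, ?_, ?_⟩
    · rw [zt_apply, zero_add]; exact one_ne_zero
    · intro y _
      refine ⟨(y.val : ℤ), ?_⟩
      rw [zpow_natCast, hpow, ZMod.natCast_zmod_val]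
  have hs : (zt L).support = univ := by
    rw [Finset.eq_univ_iff_forall]
    intro x
    rw [Perm.mem_support, zt_apply]
    simp
  unfold tp
  rw [hc.cycleType, hs, Finset.card_univ, ZMod.card]
  simp

/-- From a cycle to a set. -/
def toS (σ : Perm (ZMod L)) : Finset (ZMod L) := univ.filter (fun x => σ (x + 1) = x + 1)

theorem card_toS (hN : S_NORM) (σ : Perm (ZMod L)) (k m : ℕ) (hL : L = k + m + 2)
    (hσ : tp σ = {k}) : (toS σ).card = m := by
  have h1 : ((toS σ).image (fun x => x + 1)) = (σ.support)ᶜ := by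
    ext x
    simp only [toS, Finset.mem_image, Finset.mem_filter, Finset.mem_univ, true_and,
      Finset.mem_compl, Perm.mem_support, not_not]
    constructor
    · rintro ⟨y, hy, rfl⟩
      exact hy
    · intro h
      exact ⟨x - 1, by simpa using h, by ring⟩
  have h2 : ((toS σ).image (fun x => x + 1)).card = (toS σ).card :=
    Finset.card_image_of_injective _ (add_left_injective 1)
  have h3 := (hN _ σ 1).2.1
  rw [hσ, size_sing] at h3
  rw [h1, Finset.card_compl, h3, ZMod.card] at h2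
  omega

theorem toS_adj (hL : 3 ≤ L) (σ : Perm (ZMod L)) (m : ℕ)
    (hτ : tp (σ⁻¹ * zt L) = Multiset.replicate m 0) : ∀ x ∈ toS σ, x + 1 ∉ toS σ := by
  intro x hx hx2
  have hx3 := (Finset.mem_filter.1 hx).2
  have hx4 := (Finset.mem_filter.1 hx2).2
  have hinv := tp_inv_of _ m hτ x
  have e1 : (σ⁻¹ * zt L) x = x + 1 := by
    rw [Perm.mul_apply, Perm.inv_eq_iff_eq, hx3, zt_apply]
  have e2 : (σ⁻¹ * zt L) (x + 1) = x + 1 + 1 := by
    rw [Perm.mul_apply, Perm.inv_eq_iff_eq, hx4, zt_apply]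
  rw [e1, e2] at hinv
  have h2 : (2 : ZMod L) = 0 := by linear_combination hinv
  have h3 : ((2 : ℕ) : ZMod L) = 0 := by exact_mod_cast h2
  rw [ZMod.natCast_eq_zero_iff] at h3
  have := Nat.le_of_dvd (by norm_num) h3
  omega

theorem eq_tS (hN : S_NORM) (hL : 3 ≤ L) (σ : Perm (ZMod L)) (k m : ℕ) (hLk : L = k + m + 2)
    (hσ : tp σ = {k}) (hτ : tp (σ⁻¹ * zt L) = Multiset.replicate m 0) :
    σ⁻¹ * zt L = tS (toS σ) (toS_adj hL σ m hτ) := by
  have hadj := toS_adj hL σ m hτ
  have hcard := card_toS hN σ k m hLk hσ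
  have hinv := tp_inv_of _ m hτ
  have e1 : ∀ x ∈ toS σ, (σ⁻¹ * zt L) x = x + 1 := by
    intro x hx
    have hx3 := (Finset.mem_filter.1 hx).2
    rw [Perm.mul_apply, Perm.inv_eq_iff_eq, hx3, zt_apply]
  have e2 : ∀ x ∈ toS σ, (σ⁻¹ * zt L) (x + 1) = x := by
    intro x hx
    rw [← e1 x hx]
    exact hinv x
  have : Fact (1 < L) := ⟨by omega⟩
  have hsub : toS σ ∪ (toS σ).image (fun x => x + 1) ⊆ (σ⁻¹ * zt L).support := by
    intro x hx
    rw [Perm.mem_support]
    rcases Finset.mem_union.1 hx with h | h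
    · rw [e1 x h]
      simp
    · obtain ⟨y, hy, rfl⟩ := Finset.mem_image.1 h
      rw [e2 y hy]
      simp
  have hc1 := (hN _ (σ⁻¹ * zt L) 1).2.1
  rw [hτ, size_rep] at hc1
  have heq : toS σ ∪ (toS σ).image (fun x => x + 1) = (σ⁻¹ * zt L).support := by
    apply Finset.eq_of_subset_of_card_le hsub
    rw [hc1, card_union _ hadj, hcard]
  ext1 x
  change _ = tf (toS σ) x
  by_cases h1 : x ∈ toS σ
  · rw [e1 x h1]
    simp [tf, h1]
  · by_cases h2 : x - 1 ∈ toS σ
    · have := e2 _ h2
      rw [sub_add_cancel] at this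
      rw [this]
      simp [tf, h1, h2]
    · have h3 : x ∉ (σ⁻¹ * zt L).support := by
        rw [← heq, Finset.mem_union, Finset.mem_image]
        rintro (h | ⟨y, hy, rfl⟩)
        · exact h1 h
        · apply h2
          simpa using hy
      rw [Perm.notMem_support] at h3
      rw [h3]
      simp [tf, h1, h2]

theorem tp_prod (hN : S_NORM) (hL : 3 ≤ L) (S : Finset (ZMod L)) (hS : ∀ x ∈ S, x + 1 ∉ S)
    (k : ℕ) (hLk : L = k + S.card + 2) :
    tp (zt L * (tS S hS)⁻¹) = {k} ∧ tp (tS S hS) = Multiset.replicate S.card 0 ∧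
      toS (zt L * (tS S hS)⁻¹) = S := by
  have : Fact (1 < L) := ⟨by omega⟩
  have hinv : (tS S hS)⁻¹ = tS S hS := by
    ext1 x
    rw [Perm.inv_eq_iff_eq]
    exact (tf_tf S hS x).symm
  have hτ : tp (tS S hS) = Multiset.replicate S.card 0 := by
    apply tp_of_inv hN _ _ (tf_tf S hS)
    rw [supp_tS (by omega) S hS, card_union S hS]
  have h2 : (2 : ZMod L) ≠ 0 := by
    intro h2
    have h3 : ((2 : ℕ) : ZMod L) = 0 := by exact_mod_cast h2
    rw [ZMod.natCast_eq_zero_iff] at h3
    have := Nat.le_of_dvd (by norm_num) h3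
    omega
  have hfix : ∀ y, (zt L * (tS S hS)⁻¹) y = y ↔ y - 1 ∈ S := by
    intro y
    rw [hinv, Perm.mul_apply, zt_apply]
    change tf S y + 1 = y ↔ _
    by_cases h1 : y ∈ S
    · have h3 : y - 1 ∉ S := fun h3 => hS _ h3 (by simpa using h1)
      simp only [tf, h1, h3, if_true, iff_false]
      intro h4
      apply h2
      linear_combination h4
    · by_cases h3 : y - 1 ∈ S
      · simp [tf, h1, h3]
      · simp [tf, h1, h3]
  have hsupp : (zt L * (tS S hS)⁻¹).support = (S.image (fun x => x + 1))ᶜ := by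
    ext x
    rw [Perm.mem_support, Finset.mem_compl, Finset.mem_image, ne_eq, hfix]
    constructor
    · rintro h ⟨y, hy, rfl⟩
      apply h
      simpa using hy
    · intro h h3
      exact h ⟨x - 1, h3, by ring⟩
  have hcs : (zt L * (tS S hS)⁻¹).support.card = k + 2 := by
    rw [hsupp, Finset.card_compl, Finset.card_image_of_injective _ (add_left_injective 1),
      ZMod.card]
    omega
  refine ⟨?_, hτ, ?_⟩
  · have n1 := (hN _ (zt L * (tS S hS)⁻¹) (tS S hS)).2.2.1
    have n2 := (hN _ (zt L * (tS S hS)⁻¹) (tS S hS)).1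
    have n3 := (hN _ (zt L * (tS S hS)⁻¹) (tS S hS)).2.1
    have n4 := (hN _ (tS S hS) 1).1
    have n5 := (hN _ (zt L) 1).1
    have hm : zt L * (tS S hS)⁻¹ * tS S hS = zt L := by group
    rw [hm] at n1
    rw [hτ, N_rep] at n4
    rw [tp_zt (by omega), N_sing] at n5
    rw [hcs] at n3
    set t := tp (zt L * (tS S hS)⁻¹) with ht
    have hse := size_eq t
    have hc1 : Multiset.card t ≤ 1 := by omega
    have hc2 : Multiset.card t ≠ 0 := by
      intro h
      rw [Multiset.card_eq_zero] at h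
      rw [h] at n3
      simp [size] at n3
    obtain ⟨a, ha⟩ := Multiset.card_eq_one.1 (by omega : Multiset.card t = 1)
    rw [ha, size_sing] at n3
    rw [ha]
    congr 1
    omega
  · ext x
    rw [toS, Finset.mem_filter, hfix]
    simp

theorem count (hN : S_NORM) (hL : 3 ≤ L) (k m : ℕ) (hLk : L = k + m + 2) :
    ((univ : Finset (Perm (ZMod L))).filter
      (fun σ => tp σ = {k} ∧ tp (σ⁻¹ * zt L) = Multiset.replicate m 0)).card =
    ((univ : Finset (Finset (ZMod L))).filter
      (fun S => S.card = m ∧ ∀ x ∈ S, x + 1 ∉ S)).card := by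
  apply Finset.card_bij (fun σ _ => toS σ)
  · intro σ hσ
    rw [Finset.mem_filter] at hσ ⊢
    exact ⟨Finset.mem_univ _, card_toS hN σ k m hLk hσ.2.1, toS_adj hL σ m hσ.2.2⟩
  · intro σ hσ ρ hρ he
    rw [Finset.mem_filter] at hσ hρ
    have e1 := eq_tS hN hL σ k m hLk hσ.2.1 hσ.2.2
    have e2 := eq_tS hN hL ρ k m hLk hρ.2.1 hρ.2.2
    have e3 : σ⁻¹ * zt L = ρ⁻¹ * zt L := by
      rw [e1, e2]
      ext1 x
      change tf (toS σ) x = tf (toS ρ) x
      rw [he]
    exact inv_injective (mul_right_cancel e3)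
  · intro S hS
    rw [Finset.mem_filter] at hS
    obtain ⟨_, hc, ha⟩ := hS
    subst hc
    have h := tp_prod hN hL S ha k hLk
    refine ⟨zt L * (tS S ha)⁻¹, ?_, h.2.2⟩
    rw [Finset.mem_filter]
    refine ⟨Finset.mem_univ _, h.1, ?_⟩
    have e : (zt L * (tS S ha)⁻¹)⁻¹ * zt L = tS S ha := by group
    rw [e]
    exact h.2.1

end shift

theorem main (hN : S_NORM) (hK : S_KL) (hM : S_MATCH) : S_CNT := by
  intro k m s h0
  by_cases hs : s = {k + m}
  · rw [if_pos hs]
    have hkm : 1 ≤ k + m := by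
      rw [hs, Multiset.mem_singleton] at h0
      omega
    have hz : tp (zt (k + m + 2)) = {k + m} := tp_zt (by omega)
    rw [hs, ← hz, ← hK.2]
    unfold cv ev
    have hn := (hN _ (zt (k + m + 2)) 1).1
    rw [hz, N_sing] at hn
    rw [← hM k m hkm, ← count hN (by omega) k m rfl, Finset.card_filter]
    push_cast
    refine Finset.sum_congr rfl fun σ _ => ?_
    by_cases h1 : tp σ = {k}
    · by_cases h2 : tp (σ⁻¹ * zt (k + m + 2)) = Multiset.replicate m 0
      · have n1 := (hN _ σ 1).1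
        have n2 := (hN _ (σ⁻¹ * zt (k + m + 2)) 1).1
        rw [h1, N_sing] at n1
        rw [h2, N_rep] at n2
        rw [if_pos (by omega), if_pos ⟨h1, h2⟩]
        simp [ind, h1, h2]
      · simp [ind, h2]
    · simp [ind, h1]
  · rw [if_neg hs]
    have hr := hK.1 s
    unfold star cv ev
    refine Finset.sum_eq_zero fun σ _ => ?_
    split_ifs with hnm
    · by_cases h1 : tp σ = {k}
      · by_cases h2 : tp (σ⁻¹ * rep s) = Multiset.replicate m 0
        · exfalso
          apply hs
          rw [← hr]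
          exact type_of hN σ (rep s) k m (by rwa [hr]) h1 h2 hnm
        · simp [ind, h2]
      · simp [ind, h1]
    · rfl

end Pool.Agent.R951.FH.CNT
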