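import Mathlib

/-!
# MP_15ac55_ag: definitions (graded Farahat-Higman ring)

Cycle types are multisets `s : T = Multiset ℕ`: the entry `k` stands for a cycle of length `k + 2`
(norm `k + 1`).  Fixed points are not recorded.
-/

set_option autoImplicit false

namespace Pool.Agent.R951.FH

open Equiv Finset MvPolynomial

/-! ### permutations -/

section perm

variable {α : Type} [Fintype α] [DecidableEq α]

/-- The norm of a permutation: `|α|` minus the number of its cycles, fixed points counted as
cycles (`σ.partition.parts` lists the lengths of all cycles, fixed points included). -/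
def nm (σ : Perm α) : ℕ := Fintype.card α - Multiset.card σ.partition.parts

/-- The product of the graded group algebra `gr ℚ[Perm α]`, for `f = ∑ f(σ)[σ]`. -/
def cv (f g : Perm α → ℚ) : Perm α → ℚ := fun π =>
  ∑ σ : Perm α, if nm σ + nm (σ⁻¹ * π) = nm π then f σ * g (σ⁻¹ * π) else 0

/-- The type of a permutation. -/
def tp (σ : Perm α) : Multiset ℕ := σ.cycleType.map (fun l => l - 2)

end perm

/-- Cycle types. -/
abbrev T : Type := Multiset ℕ

/-- The norm of a type. -/
def N (s : T) : ℕ := (s.map (fun k => k + 1)).sum

/-- The size of the support of a permutation of the given type. -/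
def size (s : T) : ℕ := (s.map (fun k => k + 2)).sum

/-- The class function on `Perm α` given by a function on types. -/
def ev (α : Type) [Fintype α] [DecidableEq α] (F : T → ℚ) : Perm α → ℚ := fun σ => F (tp σ)

open Classical in
/-- A permutation of a given type. -/
noncomputable def rep (s : T) : Perm (Fin (size s)) :=
  if h : ∃ σ : Perm (Fin (size s)), tp σ = s then h.choose else 1

/-- The product on functions on types. -/
noncomputable def star (F H : T → ℚ) : T → ℚ := fun s =>
  cv (ev (Fin (size s)) F) (ev (Fin (size s)) H) (rep s)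

/-- The indicator function of a type. -/
def ind (a : T) : T → ℚ := fun s => if s = a then 1 else 0

/-- Adding a transposition. -/
def dd (F : T → ℚ) : T → ℚ := fun s => F (0 ::ₘ s)

/-! ### the abstract ring of class functions -/

/-- A commutative ring structure on the functions on types, with the properties of the
(completed) graded Farahat-Higman ring. -/
structure FHD (G : Type) [CommRing G] [Algebra ℚ G] where
  /-- the coefficients -/
  e : G ≃ₗ[ℚ] (T → ℚ)
  one : e 1 = ind 0
  supp : ∀ (x y : G) (s : T), e (x * y) s ≠ 0 →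
    ∃ a b, e x a ≠ 0 ∧ e y b ≠ 0 ∧ N a + N b = N s ∧ size a ≤ size s ∧ size b ≤ size s
  der : ∀ (x y : G) (s : T), e (x * y) (0 ::ₘ s) =
    e (e.symm (dd (e x)) * y) s + e (x * e.symm (dd (e y))) s
  tri : ∀ (k : ℕ) (l s : T), Multiset.card l + 1 ≤ Multiset.card s →
    e (e.symm (ind {k}) * e.symm (ind l)) s = if s = k ::ₘ l then (s.count k : ℚ) else 0

namespace FHD

variable {G : Type} [CommRing G] [Algebra ℚ G] (D : FHD G)

/-- The class sum `c k` of the `(k+2)`-cycles. -/
noncomputable def c (k : ℕ) : G := D.e.symm (ind {k})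

/-- The homogeneous component of degree `n`. -/
def gp (n : ℕ) : Submodule ℚ G where
  carrier := {x | ∀ s, D.e x s ≠ 0 → N s = n}
  add_mem' := by
    intro a b ha hb s hs
    by_cases h : D.e a s = 0
    · refine hb s fun h2 => hs ?_
      rw [map_add, Pi.add_apply, h, h2, add_zero]
    · exact ha s h
  zero_mem' := by
    intro s hs
    simp at hs
  smul_mem' := by
    intro c x hx s hs
    refine hx s fun h => hs ?_
    rw [map_smul, Pi.smul_apply, h, smul_zero]

/-- The elements of degree `n` that vanish on the permutations of `d` points. -/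
def J (d n : ℕ) : Submodule ℚ G where
  carrier := {x | ∀ s, D.e x s ≠ 0 → N s = n ∧ d < size s}
  add_mem' := by
    intro a b ha hb s hs
    by_cases h : D.e a s = 0
    · refine hb s fun h2 => hs ?_
      rw [map_add, Pi.add_apply, h, h2, add_zero]
    · exact ha s h
  zero_mem' := by
    intro s hs
    simp at hs
  smul_mem' := by
    intro c x hx s hs
    refine hx s fun h => hs ?_
    rw [map_smul, Pi.smul_apply, h, smul_zero]

/-- The degree `n` part of `G₊ J`. -/
def GJ (d n : ℕ) : Submodule ℚ G :=
  Submodule.span ℚ {z | ∃ j x y, 1 ≤ j ∧ j ≤ n ∧ x ∈ D.gp j ∧ y ∈ D.J d (n - j) ∧ z = x * y}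

end FHD

/-! ### polynomials -/

/-- The weights: `X i` has degree `i + 1`. -/
def wt {m : ℕ} (i : Fin m) : ℕ := (i : ℕ) + 1

/-- The weights for infinitely many variables. -/
def wi (i : ℕ) : ℕ := i + 1

/-- The ideal `P₊` of polynomials without constant term. -/
noncomputable def Pp (m : ℕ) : Ideal (MvPolynomial (Fin m) ℚ) :=
  RingHom.ker (constantCoeff (R := ℚ) (σ := Fin m))

/-- The degree `n` part of an ideal. -/
noncomputable def dg {m : ℕ} (I : Ideal (MvPolynomial (Fin m) ℚ)) (n : ℕ) :
    Submodule ℚ (MvPolynomial (Fin m) ℚ) :=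
  I.restrictScalars ℚ ⊓ weightedHomogeneousSubmodule ℚ wt n

/-- `dim (I / P₊ I)ₙ`: the number of minimal relations of degree `n`. -/
noncomputable def rel {m : ℕ} (I : Ideal (MvPolynomial (Fin m) ℚ)) (n : ℕ) : ℕ :=
  Module.finrank ℚ (↥(dg I n) ⧸ (dg (Pp m * I) n).comap (dg I n).subtype)

end Pool.Agent.R951.FH
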