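import Pool.Agent.R951.FH.Stm

/-!
# FH-DER: adding a transposition is a derivation
-/

set_option autoImplicit false

namespace Pool.Agent.R951.FH.Der

open Equiv Finset MvPolynomial Pool.Agent.R951.FH

theorem univ_perm2 : (univ : Finset (Perm (Fin 2))) = {1, Equiv.swap 0 1} := by decide

theorem one_ne_swap : (1 : Perm (Fin 2)) ≠ Equiv.swap 0 1 := by decide

theorem tp_one2 : tp (1 : Perm (Fin 2)) = 0 := by
  simp [tp]

theorem tp_swap2 : tp (Equiv.swap (0 : Fin 2) 1) = {0} := by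
  have h : (Equiv.swap (0 : Fin 2) 1).cycleType = {2} := by
    rw [← Equiv.Perm.isSwap_iff_cycleType]
    exact ⟨0, 1, by decide, rfl⟩
  simp [tp, h]

theorem main : S_NORM → S_SPLIT → S_KL → S_DER := by
  intro hN hS hK F H s
  obtain ⟨hS1, hS2⟩ := hS
  obtain ⟨hK1, hK2⟩ := hK
  have htp : tp (Perm.sumCongr (rep s) (Equiv.swap (0 : Fin 2) 1)) = 0 ::ₘ s := by
    rw [hS1, hK1, tp_swap2, add_comm]
    rfl
  have h0 : nm (1 : Perm (Fin 2)) = 0 := by
    rw [(hN (Fin 2) 1 1).1, tp_one2]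
    simp [N]
  rw [← htp, ← hK2, hS2]
  simp only [star, cv]
  rw [← Finset.sum_add_distrib]
  refine Finset.sum_congr rfl fun σ₁ _ => ?_
  rw [univ_perm2, Finset.sum_insert (by simpa using one_ne_swap), Finset.sum_singleton]
  have e1 : ((1 : Perm (Fin 2))⁻¹ * Equiv.swap 0 1) = Equiv.swap 0 1 := by simp
  have e2 : ((Equiv.swap (0 : Fin 2) 1)⁻¹ * Equiv.swap 0 1) = 1 := by simp
  rw [e1, e2, h0, zero_add, add_zero]
  simp only [and_true, ev, hS1, tp_one2, tp_swap2, add_zero, dd]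
  by_cases hc : nm σ₁ + nm (σ₁⁻¹ * rep s) = nm (rep s)
  · simp only [hc, if_true]
    rw [add_comm (tp σ₁) {0}, add_comm (tp (σ₁⁻¹ * rep s)) {0}, Multiset.singleton_add,
      Multiset.singleton_add]
    ring
  · simp only [hc, if_false, add_zero]

end Pool.Agent.R951.FH.Der
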