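import Pool.Agent.R951.FH.Model

/-!
# MP_15ac55_ag: assembly
-/

set_option autoImplicit false

namespace Pool.Agent.R951.FH

open Equiv Finset MvPolynomial

/-- `δ_i(d)`: the sum of the products of exactly `i` disjoint transpositions. -/
def delta (d i : ℕ) : A d :=
  ⟨(fun σ => if σ.cycleType = Multiset.replicate i 2 then 1 else 0 : Perm (Fin d) → ℚ), by
    intro σ τ
    show (if _ then (1 : ℚ) else 0) = if _ then (1 : ℚ) else 0
    rw [Perm.cycleType_conj]⟩

/-- `φ_d : ℚ[X_1, …, X_m] → A(d)`, `m = ⌊d/2⌋`; the variable `X i`, `i : Fin m`, is `X_{i+1}`. -/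
noncomputable def phi (d : ℕ) : MvPolynomial (Fin (d / 2)) ℚ →ₐ[ℚ] A d :=
  aeval fun i => delta d ((i : ℕ) + 1)

theorem tp_replicate {d : ℕ} (σ : Perm (Fin d)) (i : ℕ) :
    tp σ = Multiset.replicate i 0 ↔ σ.cycleType = Multiset.replicate i 2 := by
  constructor
  · intro h
    rw [Multiset.eq_replicate] at h ⊢
    unfold tp at h
    refine ⟨by simpa using h.1, ?_⟩
    intro b hb
    have h1 := h.2 (b - 2) (Multiset.mem_map_of_mem _ hb)
    have h2 := Perm.two_le_of_mem_cycleType hb
    omega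
  · intro h
    unfold tp
    rw [h, Multiset.map_replicate]

theorem rho_del (d i : ℕ) : rho d (DD.del i) = delta d i := by
  apply Subtype.ext
  funext σ
  show ind (Multiset.replicate i 0) (tp σ) = if σ.cycleType = Multiset.replicate i 2 then 1 else 0
  unfold ind
  simp only [tp_replicate]

theorem size_replicate (i : ℕ) : size (Multiset.replicate i 0) = 2 * i := by
  unfold size
  rw [Multiset.map_replicate, Multiset.sum_replicate]
  simp [mul_comm]

theorem N_replicate (i : ℕ) : N (Multiset.replicate i 0) = i := by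
  unfold N
  rw [Multiset.map_replicate, Multiset.sum_replicate]
  simp

theorem rho_del_zero {d i : ℕ} (h : d < 2 * i) : rho d (DD.del i) = 0 := by
  rw [rho_eq_zero]
  intro s hs
  show ind (Multiset.replicate i 0) s = 0
  unfold ind
  rw [if_neg]
  rintro rfl
  rw [size_replicate] at hs
  omega

theorem rho_del_mem (d i : ℕ) (hi : 1 ≤ i) : rho d (DD.del i) ∈ (phi d).range := by
  by_cases h : d < 2 * i
  · rw [rho_del_zero h]
    exact zero_mem _
  · have h2 : i - 1 < d / 2 := by omega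
    refine ⟨X ⟨i - 1, h2⟩, ?_⟩
    show phi d _ = _
    unfold phi
    rw [aeval_X, rho_del]
    congr 1
    show i - 1 + 1 = i
    omega

theorem cnt : ∀ (k m : ℕ) (s : T), 0 ∉ s → DD.e (DD.c k * DD.del m) s =
    if s = {k + m} then ((k + m + 2 : ℚ) / (k + 2)) * ((k + 2).choose m : ℚ) else 0 :=
  fun k m s hs => pCNT k m s hs

theorem rho_c_mem (d k : ℕ) : rho d (DD.c k) ∈ (phi d).range := by
  have h1 := pNEWT Gs DD cnt k
  have h2 : Algebra.adjoin ℚ {x : Gs | ∃ j, 1 ≤ j ∧ j ≤ k + 1 ∧ x = DD.del j} ≤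
      (phi d).range.comap (rho d) := by
    rw [Algebra.adjoin_le_iff]
    rintro x ⟨j, hj, -, rfl⟩
    exact rho_del_mem d j hj
  exact h2 h1

theorem rho_gp_mem (d n : ℕ) (x : Gs) (hx : x ∈ DD.gp n) : rho d x ∈ (phi d).range := by
  rw [← (pGEN Gs DD n).2] at hx
  obtain ⟨p, -, rfl⟩ := hx
  show rho d (aeval DD.c p) ∈ _
  have h : (aeval DD.c p : Gs) ∈ (phi d).range.comap (rho d) := by
    induction p using MvPolynomial.induction_on with
    | C a =>
      rw [aeval_C]
      exact Subalgebra.algebraMap_mem _ _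
    | add p q hp hq =>
      rw [map_add]
      exact Subalgebra.add_mem _ hp hq
    | mul_X p i hp =>
      rw [map_mul, aeval_X]
      exact Subalgebra.mul_mem _ hp (rho_c_mem d i)
  exact h

theorem rho_ind_mem (d : ℕ) (s : T) :
    rho d (DD.e.symm (ind s)) ∈ (phi d).range := by
  refine rho_gp_mem d (N s) _ ?_
  intro t ht
  by_contra h
  apply ht
  show ind s t = 0
  unfold ind
  rw [if_neg]
  rintro rfl
  exact h rfl

/-- The indicator function as an element of the ring. -/
def iG (s : T) : Gs := (ind s : T → ℚ)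

theorem sum_iG (U : Finset T) (a : T → ℚ) (t : T) :
    DD.e (∑ s ∈ U, a s • iG s) t = ∑ s ∈ U, a s * ind s t := by
  induction U using Finset.induction_on with
  | empty => simp
  | insert b U hb ih =>
    rw [Finset.sum_insert hb, Finset.sum_insert hb, map_add, Pi.add_apply, ih, map_smul]
    rfl

theorem phi_surj (d : ℕ) : Function.Surjective (phi d) := by
  intro y
  obtain ⟨F, rfl⟩ := rho_surj d y
  show rho d F ∈ (phi d).range
  -- the types that occur in `S_d`
  let S : Finset T := (Finset.univ : Finset (Perm (Fin d))).image tp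
  let a : T → ℚ := DD.e F
  have h : rho d F = rho d (∑ s ∈ S, a s • iG s) := by
    apply Subtype.ext
    funext σ
    show DD.e F (tp σ) = DD.e (∑ s ∈ S, a s • iG s) (tp σ)
    rw [sum_iG, Finset.sum_eq_single (tp σ)]
    · simp [ind, a]
    · intro b _ hb
      unfold ind
      rw [if_neg (Ne.symm hb), mul_zero]
    · intro h3
      exact absurd (Finset.mem_image_of_mem _ (Finset.mem_univ σ)) h3
  rw [h, map_sum]
  refine Subalgebra.sum_mem _ fun s _ => ?_
  rw [map_smul]
  exact Subalgebra.smul_mem _ (rho_ind_mem d s) _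

theorem del_gp (i : ℕ) : DD.del i ∈ DD.gp i := by
  intro s hs
  by_contra h
  apply hs
  show ind (Multiset.replicate i 0) s = 0
  unfold ind
  rw [if_neg]
  rintro rfl
  exact h (N_replicate i)

/-- **Main theorem.** -/
theorem main : (∀ d, Function.Surjective (phi d)) ∧
    ∀ d₀ n₀ : ℕ, ∃ c K : ℕ, ∀ k : ℕ, K ≤ k →
      rel (RingHom.ker (phi (d₀ + 2 * k))) (n₀ + k) = c := by
  refine ⟨phi_surj, fun d₀ n₀ => ?_⟩
  have hrc : ∀ d n : ℕ, (n ≤ d / 2 → rel (RingHom.ker (phi d)) n = 0) ∧
      (d / 2 < n → Module.finrank ℚ ↥(DD.J d n) = Module.finrank ℚ ↥(DD.GJ d n) +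
        rel (RingHom.ker (phi d)) n + 1) := by
    intro d n
    exact pRC Gs DD (A d) (rho d) d (rho_eq_zero d) (fun i => delta d ((i : ℕ) + 1))
      (fun i => ⟨DD.del ((i : ℕ) + 1), del_gp _, rho_del d _⟩) (phi_surj d) n
  by_cases h : n₀ ≤ d₀ / 2
  · refine ⟨0, 0, fun k _ => ?_⟩
    exact (hrc (d₀ + 2 * k) (n₀ + k)).1 (by omega)
  · obtain ⟨c, K, hc⟩ := pSTAB Gs DD d₀ n₀
    refine ⟨c - 1, K, fun k hk => ?_⟩
    have h1 := (hrc (d₀ + 2 * k) (n₀ + k)).2 (by omega)
    have h2 := hc k hk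
    omega

end Pool.Agent.R951.FH
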