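import Pool.Agent.R951.FH.Stm

/-!
# FH-GEN: the homogeneous components are finite dimensional and the `c k` generate (helper179)
-/

set_option autoImplicit false

namespace Pool.Agent.R951.FH.Gen

open Finset MvPolynomial

theorem N_zero : N (0 : T) = 0 := rfl

theorem N_cons (k : ℕ) (s : T) : N (k ::ₘ s) = (k + 1) + N s := by
  unfold N
  rw [Multiset.map_cons, Multiset.sum_cons]

theorem N_singleton (k : ℕ) : N ({k} : T) = k + 1 := by
  unfold N
  simp

theorem card_le_N (s : T) : Multiset.card s ≤ N s := by
  induction s using Multiset.induction with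
  | empty => simp
  | cons k s ih =>
    rw [N_cons, Multiset.card_cons]; omega

theorem mem_lt_N {s : T} {k : ℕ} (h : k ∈ s) : k < N s := by
  obtain ⟨t, rfl⟩ := Multiset.exists_cons_of_mem h
  rw [N_cons]; omega

theorem finite_types (n : ℕ) : Set.Finite {s : T | N s = n} := by
  refine (Set.finite_Icc (0 : Multiset ℕ) (n • Multiset.range n)).subset ?_
  intro s hs
  have hs : N s = n := hs
  refine ⟨Multiset.zero_le s, ?_⟩
  rw [Multiset.le_iff_count]
  intro k
  rw [Multiset.count_nsmul]
  by_cases hk : k ∈ s
  · have h1 := mem_lt_N hk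
    have h2 : Multiset.count k (Multiset.range n) = 1 :=
      Multiset.count_eq_one_of_mem (Multiset.nodup_range n) (Multiset.mem_range.2 (by omega))
    rw [h2, mul_one]
    have h3 := Multiset.count_le_card k s
    have h4 := card_le_N s
    omega
  · rw [Multiset.count_eq_zero_of_notMem hk]
    exact Nat.zero_le _

section

variable {G : Type} [CommRing G] [Algebra ℚ G] (D : FHD G)

theorem mem_gp {n : ℕ} {x : G} : x ∈ D.gp n ↔ ∀ s, D.e x s ≠ 0 → N s = n := Iff.rfl

theorem mul_mem_gp {i j : ℕ} {x y : G} (hx : x ∈ D.gp i) (hy : y ∈ D.gp j) :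
    x * y ∈ D.gp (i + j) := by
  intro s hs
  obtain ⟨a, b, ha, hb, hN, -⟩ := D.supp x y s hs
  rw [← hN, hx a ha, hy b hb]

theorem one_mem_gp : (1 : G) ∈ D.gp 0 := by
  intro s hs
  rw [D.one] at hs
  unfold ind at hs
  by_cases h : s = 0
  · rw [h]; rfl
  · simp [h] at hs

theorem symm_ind_mem (l : T) : D.e.symm (ind l) ∈ D.gp (N l) := by
  intro s hs
  rw [LinearEquiv.apply_symm_apply] at hs
  unfold ind at hs
  by_cases h : s = l
  · rw [h]
  · simp [h] at hs

theorem c_mem_gp (k : ℕ) : D.c k ∈ D.gp (k + 1) := by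
  have := symm_ind_mem D {k}
  rwa [N_singleton] at this

/-- the coordinates -/
def crd (n : ℕ) : D.gp n →ₗ[ℚ] ({s : T // N s = n} → ℚ) where
  toFun x := fun s => D.e (x : G) s.1
  map_add' x y := by
    funext s
    simp
  map_smul' c x := by
    funext s
    simp

theorem crd_injective (n : ℕ) : Function.Injective (crd D n) := by
  intro x y hxy
  apply Subtype.ext
  apply D.e.injective
  funext s
  by_cases hs : N s = n
  · exact congrFun hxy ⟨s, hs⟩
  · have h1 : D.e (x : G) s = 0 := by
      by_contra h
      exact hs (x.2 s h)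
    have h2 : D.e (y : G) s = 0 := by
      by_contra h
      exact hs (y.2 s h)
    rw [h1, h2]

theorem crd_surjective (n : ℕ) : Function.Surjective (crd D n) := by
  intro f
  classical
  refine ⟨⟨D.e.symm (fun s => if h : N s = n then f ⟨s, h⟩ else 0), ?_⟩, ?_⟩
  · intro s hs
    rw [LinearEquiv.apply_symm_apply] at hs
    by_contra h
    simp [h] at hs
  · funext s
    change D.e (D.e.symm _) s.1 = f s
    rw [LinearEquiv.apply_symm_apply]
    simp [s.2]

theorem fd (n : ℕ) : FiniteDimensional ℚ (D.gp n) := by
  haveI : Finite {s : T // N s = n} := (finite_types n).to_subtype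
  exact FiniteDimensional.of_injective (crd D n) (crd_injective D n)

theorem finrank_gp (n : ℕ) : Module.finrank ℚ (D.gp n) = Nat.card {s : T // N s = n} := by
  haveI : Finite {s : T // N s = n} := (finite_types n).to_subtype
  haveI := Fintype.ofFinite {s : T // N s = n}
  rw [LinearEquiv.finrank_eq (LinearEquiv.ofBijective (crd D n)
    ⟨crd_injective D n, crd_surjective D n⟩), Module.finrank_fintype_fun_eq_card,
    Nat.card_eq_fintype_card]

theorem expand {n : ℕ} {x : G} (hx : x ∈ D.gp n) :
    x = ∑ s ∈ (finite_types n).toFinset, D.e x s • D.e.symm (ind s) := by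
  apply D.e.injective
  funext t
  rw [map_sum, Finset.sum_apply]
  have h1 : ∀ s ∈ (finite_types n).toFinset,
      D.e (D.e x s • D.e.symm (ind s)) t = if t = s then D.e x t else 0 := by
    intro s _
    rw [map_smul, LinearEquiv.apply_symm_apply, Pi.smul_apply, smul_eq_mul]
    unfold ind
    by_cases h : t = s
    · simp [h]
    · simp [h]
  rw [Finset.sum_congr rfl h1, Finset.sum_ite_eq]
  by_cases ht : N t = n
  · rw [if_pos]
    simpa using ht
  · rw [if_neg]
    · by_contra h
      exact ht (hx t h)
    · simpa using ht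

end

/-- a graded family of submodules containing `h i` in degree `i + 1` contains the values of the
weighted homogeneous polynomials -/
theorem aeval_mem {A : Type} [CommRing A] [Algebra ℚ A] (V : ℕ → Submodule ℚ A)
    (h1 : (1 : A) ∈ V 0) (hm : ∀ {i j : ℕ} {x y : A}, x ∈ V i → y ∈ V j → x * y ∈ V (i + j))
    (h : ℕ → A) (hh : ∀ i, h i ∈ V (i + 1)) {n : ℕ} {p : MvPolynomial ℕ ℚ}
    (hp : p ∈ weightedHomogeneousSubmodule ℚ wi n) : aeval h p ∈ V n := by
  have hpow : ∀ i k : ℕ, h i ^ k ∈ V (k * (i + 1)) := by
    intro i k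
    induction k with
    | zero => simpa using h1
    | succ k ih =>
      rw [pow_succ, show (k + 1) * (i + 1) = k * (i + 1) + (i + 1) by ring]
      exact hm ih (hh i)
  have hmon : ∀ e : ℕ →₀ ℕ, (e.prod fun i k => h i ^ k) ∈ V (Finsupp.weight wi e) := by
    intro e
    induction e using Finsupp.induction_linear with
    | zero => simpa using h1
    | add e f he hf =>
      rw [Finsupp.prod_add_index' (by simp) (by intro a b c; exact pow_add _ _ _), map_add]
      exact hm he hf
    | single i k =>
      rw [Finsupp.prod_single_index (by simp), Finsupp.weight_single]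
      have := hpow i k
      simpa [wi] using this
  rw [MvPolynomial.as_sum p, map_sum]
  refine Submodule.sum_mem _ fun e he => ?_
  rw [aeval_monomial, ← Algebra.smul_def]
  apply Submodule.smul_mem
  have := (mem_weightedHomogeneousSubmodule ℚ wi n p).1 hp (MvPolynomial.mem_support_iff.1 he)
  rw [← this]
  exact hmon e

/-- the image of the polynomials of degree `n` -/
noncomputable def Im {A : Type} [CommRing A] [Algebra ℚ A] (h : ℕ → A) (n : ℕ) : Submodule ℚ A :=
  (weightedHomogeneousSubmodule ℚ wi n).map (aeval h : MvPolynomial ℕ ℚ →ₐ[ℚ] A).toLinearMap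

section

variable {A : Type} [CommRing A] [Algebra ℚ A] {h : ℕ → A}

theorem one_mem_Im : (1 : A) ∈ Im h 0 :=
  ⟨1, isWeightedHomogeneous_one ℚ wi, by simp⟩

theorem mul_mem_Im {i j : ℕ} {x y : A} (hx : x ∈ Im h i) (hy : y ∈ Im h j) :
    x * y ∈ Im h (i + j) := by
  obtain ⟨p, hp, rfl⟩ := hx
  obtain ⟨q, hq, rfl⟩ := hy
  refine ⟨p * q, ?_, by simp⟩
  exact IsWeightedHomogeneous.mul hp hq

theorem var_mem_Im (i : ℕ) : h i ∈ Im h (i + 1) :=
  ⟨X i, isWeightedHomogeneous_X ℚ wi i, by simp⟩

end

variable {G : Type} [CommRing G] [Algebra ℚ G] (D : FHD G)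

theorem basis_mem : ∀ m : ℕ, ∀ l : T, Multiset.card l = m → D.e.symm (ind l) ∈ Im D.c (N l) := by
  intro m
  induction m using Nat.strong_induction_on with
  | _ m ih =>
    intro l hl
    rcases Nat.eq_zero_or_pos m with hm | hm
    · have : l = 0 := Multiset.card_eq_zero.1 (hl.trans hm)
      subst this
      rw [← D.one, LinearEquiv.symm_apply_apply]
      exact one_mem_Im
    · have hl0 : l ≠ 0 := by
        rintro rfl
        simp at hl; omega
      obtain ⟨k, hk⟩ := Multiset.exists_mem_of_ne_zero hl0
      obtain ⟨l', rfl⟩ := Multiset.exists_cons_of_mem hk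
      have hl' : Multiset.card l' + 1 = m := by simpa using hl
      have hcnt : ((Multiset.count k (k ::ₘ l') : ℕ) : ℚ) ≠ 0 := by
        rw [Multiset.count_cons_self]; positivity
      set y : G := D.c k * D.e.symm (ind l') -
        ((Multiset.count k (k ::ₘ l') : ℕ) : ℚ) • D.e.symm (ind (k ::ₘ l')) with hy
      have hprod : D.c k * D.e.symm (ind l') ∈ Im D.c (N (k ::ₘ l')) := by
        rw [N_cons]
        exact mul_mem_Im (var_mem_Im k) (ih (Multiset.card l') (by omega) l' rfl)
      have hygp : y ∈ D.gp (N (k ::ₘ l')) := by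
        apply Submodule.sub_mem
        · rw [N_cons]
          exact mul_mem_gp D (c_mem_gp D k) (symm_ind_mem D l')
        · exact Submodule.smul_mem _ _ (symm_ind_mem D _)
      have hyim : y ∈ Im D.c (N (k ::ₘ l')) := by
        rw [expand D hygp]
        refine Submodule.sum_mem _ fun s hs => ?_
        have hsN : N s = N (k ::ₘ l') := by simpa using hs
        by_cases hc : Multiset.card s < m
        · rw [← hsN]
          exact Submodule.smul_mem _ _ (ih _ hc s rfl)
        · have h0 : D.e y s = 0 := by
            rw [hy, map_sub, map_smul, LinearEquiv.apply_symm_apply, Pi.sub_apply, Pi.smul_apply]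
            have h1 := D.tri k l' s (by omega)
            unfold FHD.c
            rw [h1]
            unfold ind
            by_cases h : s = k ::ₘ l'
            · subst h; simp
            · simp [h]
          rw [h0, zero_smul]
          exact Submodule.zero_mem _
      have h3 : ((Multiset.count k (k ::ₘ l') : ℕ) : ℚ) • D.e.symm (ind (k ::ₘ l')) ∈
          Im D.c (N (k ::ₘ l')) := by
        have : ((Multiset.count k (k ::ₘ l') : ℕ) : ℚ) • D.e.symm (ind (k ::ₘ l')) =
          D.c k * D.e.symm (ind l') - y := by rw [hy]; ring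
        rw [this]
        exact Submodule.sub_mem _ hprod hyim
      exact (Submodule.smul_mem_iff _ hcnt).1 h3

theorem Im_c (n : ℕ) : Im D.c n = D.gp n := by
  apply le_antisymm
  · rintro x ⟨p, hp, rfl⟩
    exact aeval_mem D.gp (one_mem_gp D) (mul_mem_gp D) D.c (c_mem_gp D) hp
  · intro x hx
    rw [expand D hx]
    refine Submodule.sum_mem _ fun s hs => ?_
    have hsN : N s = n := by simpa using hs
    rw [← hsN]
    exact Submodule.smul_mem _ _ (basis_mem D _ s rfl)

theorem main : S_GEN := by
  intro G _ _ D n
  exact ⟨fd D n, Im_c D n⟩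

end Pool.Agent.R951.FH.Gen
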