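import Pool.Agent.R951.FH.Stm

/-!
# FH-ID: the Catalan type binomial identity, by telescoping
-/

set_option autoImplicit false

namespace Pool.Agent.R951.FH.Id

open Finset

theorem chA (n k : ℕ) : ((n : ℚ) + 1 - k) * ((n + 1).choose k : ℚ) = (n + 1) * (n.choose k : ℚ) := by
  rcases le_or_gt k (n + 1) with h | h
  · have h1 := Nat.choose_mul_succ_eq n k
    have h2 : ((n.choose k * (n + 1) : ℕ) : ℚ) = (((n + 1).choose k * (n + 1 - k) : ℕ) : ℚ) := by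
      exact_mod_cast h1
    rw [Nat.cast_mul, Nat.cast_mul, Nat.cast_sub h] at h2
    push_cast at h2
    linarith
  · rw [Nat.choose_eq_zero_of_lt h, Nat.choose_eq_zero_of_lt (by omega)]
    simp

theorem chB (n k : ℕ) : ((k : ℚ) + 1) * ((n + 1).choose (k + 1) : ℚ) = (n + 1) * (n.choose k : ℚ) := by
  have h1 := Nat.add_one_mul_choose_eq n k
  have h2 : (((n + 1) * n.choose k : ℕ) : ℚ) = (((n + 1).choose (k + 1) * (k + 1) : ℕ) : ℚ) := by
    exact_mod_cast h1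
  push_cast at h2
  linarith

theorem cen1 (k : ℕ) : ((2 * k + 2).choose (k + 1) : ℚ) = 2 * ((2 * k + 1).choose k : ℚ) := by
  have h1 : (2 * k + 2).choose (k + 1) = (2 * k + 1).choose k + (2 * k + 1).choose (k + 1) :=
    Nat.choose_succ_succ _ _
  have h2 : (2 * k + 1).choose (k + 1) = (2 * k + 1).choose k := by
    rw [← Nat.choose_symm_half k]
  rw [h1, h2]
  push_cast
  ring

theorem cen2 (k : ℕ) : ((k : ℚ) + 2) * ((2 * k + 4).choose (k + 2) : ℚ) =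
    2 * (2 * k + 3) * ((2 * k + 2).choose (k + 1) : ℚ) := by
  have h1 := chB (2 * k + 3) (k + 1)
  have h2 := chA (2 * k + 2) (k + 1)
  push_cast at h1 h2
  have e1 : 2 * k + 3 + 1 = 2 * k + 4 := by ring
  have e2 : 2 * k + 2 + 1 = 2 * k + 3 := by ring
  have e3 : k + 1 + 1 = k + 2 := by ring
  rw [e1, e3] at h1
  rw [e2] at h2
  have hk : ((k : ℚ) + 2) ≠ 0 := by positivity
  have h3 : ((k : ℚ) + 2) * (((k : ℚ) + 2) * ((2 * k + 4).choose (k + 2) : ℚ)) =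
      ((k : ℚ) + 2) * (2 * (2 * k + 3) * ((2 * k + 2).choose (k + 1) : ℚ)) := by
    linear_combination ((k : ℚ) + 2) * h1 + (2 * k + 4) * h2
  exact mul_left_cancel₀ hk h3

/-- the telescoping identity -/
theorem step (k m : ℕ) : ((2 * k + 1).choose k : ℚ) *
    ((((k + m + 1 : ℕ) : ℚ) + 2) / (k + 2) * ((k + 2).choose (m + 1) : ℚ)) =
    (1 / (2 * (((k + m + 1 : ℕ) : ℚ) + 1))) *
      (((k : ℚ) + 2) * ((2 * k + 4).choose (k + 2) : ℚ) * ((k + 1).choose m : ℚ) +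
        ((k : ℚ) + 1) * ((2 * k + 2).choose (k + 1) : ℚ) * (k.choose (m + 1) : ℚ)) := by
  rw [cen2, cen1]
  have h1 := chB (k + 1) m
  have h2 := chA (k + 1) (m + 1)
  have h3 := chA k (m + 1)
  have e1 : k + 1 + 1 = k + 2 := by ring
  rw [e1] at h1 h2
  push_cast at h1 h2 h3 ⊢
  have hk : ((k : ℚ) + 2) ≠ 0 := by positivity
  have hm : ((k : ℚ) + m + 1 + 1) ≠ 0 := by positivity
  field_simp
  obtain ⟨A, hA⟩ : ∃ A : ℚ, A = ((k + 2).choose (m + 1) : ℚ) := ⟨_, rfl⟩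
  obtain ⟨B, hB⟩ : ∃ B : ℚ, B = ((k + 1).choose m : ℚ) := ⟨_, rfl⟩
  obtain ⟨C, hC⟩ : ∃ C : ℚ, C = ((k + 1).choose (m + 1) : ℚ) := ⟨_, rfl⟩
  obtain ⟨D, hD⟩ : ∃ D : ℚ, D = (k.choose (m + 1) : ℚ) := ⟨_, rfl⟩
  rw [← hA, ← hB] at h1
  rw [← hA, ← hC] at h2
  rw [← hC, ← hD] at h3
  rw [← hA, ← hB, ← hD]
  linear_combination ((2 * k + 1).choose k : ℚ) * (2 * (2 * k + 3)) * h1 +
    ((2 * k + 1).choose k : ℚ) * (k - m) * h2 + ((2 * k + 1).choose k : ℚ) * (k + 2) * h3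

/-- the primitive -/
def H (q k : ℕ) : ℚ := (-1) ^ (k + 1) * (1 / (2 * ((q : ℚ) + 1))) *
  (((k : ℚ) + 1) * ((2 * k + 2).choose (k + 1) : ℚ) * (k.choose (q - k) : ℚ))

theorem tele (q k : ℕ) (hk : k < q) : (-1 : ℚ) ^ k * ((2 * k + 1).choose k : ℚ) *
    (((q + 2 : ℚ) / (k + 2)) * ((k + 2).choose (q - k) : ℚ)) = H q (k + 1) - H q k := by
  obtain ⟨m, rfl⟩ : ∃ m, q = k + m + 1 := ⟨q - k - 1, by omega⟩
  have e1 : k + m + 1 - k = m + 1 := by omega
  have e2 : k + m + 1 - (k + 1) = m := by omega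
  have e3 : 2 * (k + 1) + 2 = 2 * k + 4 := by ring
  have e4 : k + 1 + 1 = k + 2 := by ring
  have h1 := step k m
  unfold H
  rw [e1, e2, e3, e4, mul_assoc, h1]
  push_cast
  ring

theorem main : S_ID := by
  intro q hq
  rw [sum_range_succ, sum_congr rfl fun k hk => tele q k (mem_range.1 hk), sum_range_sub]
  have h0 : H q 0 = 0 := by
    unfold H
    rw [Nat.sub_zero, Nat.choose_eq_zero_of_lt (by omega : 0 < q)]
    simp
  have h1 : H q q = -((-1) ^ q * ((2 * q + 1).choose q : ℚ)) := by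
    unfold H
    rw [Nat.sub_self, Nat.choose_zero_right, cen1]
    have hq1 : (q : ℚ) + 1 ≠ 0 := by positivity
    push_cast
    field_simp
    ring
  have hq2 : (q : ℚ) + 2 ≠ 0 := by positivity
  rw [h0, h1, Nat.sub_self, Nat.choose_zero_right, div_self hq2]
  push_cast
  ring

end Pool.Agent.R951.FH.Id
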