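import Pool.Agent.R951.FH.Stm

/-!
# FH-KL: the product of two class functions only depends on the type
-/

set_option autoImplicit false

namespace Pool.Agent.R951.FH.Kl

open Equiv Finset MvPolynomial Pool.Agent.R951.FH

section
variable {α β : Type} [Fintype α] [DecidableEq α] [Fintype β] [DecidableEq β]

theorem cycleType_eq_map (σ : Perm α) : σ.cycleType = (tp σ).map (fun k => k + 2) := by
  rw [tp, Multiset.map_map]
  conv_lhs => rw [← Multiset.map_id σ.cycleType]
  refine Multiset.map_congr rfl fun l hl => ?_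
  have := Perm.two_le_of_mem_cycleType hl
  simp only [id, Function.comp]
  omega

theorem cycleType_permCongr (e : α ≃ β) (g : Perm α) :
    (e.permCongr g).cycleType = g.cycleType := by
  have h : g.extendDomain (e.trans (Equiv.subtypeUnivEquiv (p := fun _ : β => True)
      (fun _ => trivial)).symm) = e.permCongr g := by
    ext b
    rw [Perm.extendDomain_apply_subtype _ _ trivial]
    rfl
  rw [← h, Perm.cycleType_extendDomain]

theorem tp_permCongr (e : α ≃ β) (g : Perm α) : tp (e.permCongr g) = tp g := by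
  rw [tp, tp, cycleType_permCongr]

theorem nm_permCongr (hN : S_NORM) (e : α ≃ β) (g : Perm α) : nm (e.permCongr g) = nm g := by
  rw [(hN β (e.permCongr g) 1).1, (hN α g 1).1, tp_permCongr]

theorem cv_permCongr (hN : S_NORM) (e : α ≃ β) (F H : T → ℚ) (π : Perm α) :
    cv (ev β F) (ev β H) (e.permCongr π) = cv (ev α F) (ev α H) π := by
  unfold cv
  rw [← (Equiv.permCongr e).sum_comp]
  refine Finset.sum_congr rfl fun σ _ => ?_
  have h : (e.permCongr σ)⁻¹ * e.permCongr π = e.permCongr (σ⁻¹ * π) := by
    rw [inv_mul_eq_iff_eq_mul]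
    ext x
    simp
  rw [h]
  simp only [ev, tp_permCongr, nm_permCongr hN]

end

theorem size_eq (s : T) : (s.map (fun k => k + 2)).sum = size s := rfl

theorem tp_rep (s : T) : tp (rep s) = s := by
  have h : ∃ σ : Perm (Fin (size s)), tp σ = s := by
    obtain ⟨g, hg⟩ := (Equiv.Perm.exists_with_cycleType_iff (Fin (size s))
      (m := s.map (fun k => k + 2))).2 ⟨by rw [size_eq, Fintype.card_fin], by
        intro a ha
        obtain ⟨k, _, rfl⟩ := Multiset.mem_map.1 ha
        omega⟩
    refine ⟨g, ?_⟩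
    rw [tp, hg, Multiset.map_map]
    conv_rhs => rw [← Multiset.map_id s]
    exact Multiset.map_congr rfl fun l _ => by simp
  rw [rep, dif_pos h]
  exact h.choose_spec

theorem main : S_NORM → S_SPLIT → S_KL := by
  intro hN hS
  refine ⟨tp_rep, ?_⟩
  intro α _ _ F H π
  obtain ⟨hS1, hS2⟩ := hS
  set s := tp π with hs
  have hsz : size s ≤ Fintype.card α := by
    rw [← (hN α π 1).2.1]
    exact Finset.card_le_univ _
  set j := Fintype.card α - size s with hj
  have hcard : Fintype.card α = Fintype.card (Fin (size s) ⊕ Fin j) := by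
    rw [Fintype.card_sum, Fintype.card_fin, Fintype.card_fin]
    omega
  let e0 : α ≃ Fin (size s) ⊕ Fin j := Fintype.equivOfCardEq hcard
  have htp1 : tp (1 : Perm (Fin j)) = 0 := by simp [tp]
  have hρ : tp (Perm.sumCongr (rep s) (1 : Perm (Fin j))) = s := by
    rw [hS1, tp_rep, htp1, add_zero]
  have hconj : IsConj (e0.permCongr π) (Perm.sumCongr (rep s) (1 : Perm (Fin j))) := by
    rw [Perm.isConj_iff_cycleType_eq, cycleType_eq_map, cycleType_eq_map, hρ, tp_permCongr]
  obtain ⟨c, hc⟩ := isConj_iff.1 hconj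
  have he : (e0.trans c).permCongr π = Perm.sumCongr (rep s) (1 : Perm (Fin j)) := by
    rw [← hc]
    ext x
    simp [Perm.inv_def]
  rw [← cv_permCongr hN (e0.trans c), he, hS2, star, cv]
  refine Finset.sum_congr rfl fun σ₁ _ => ?_
  have hnm1 : nm (1 : Perm (Fin j)) = 0 := by
    rw [(hN (Fin j) 1 1).1, htp1]
    simp [N]
  rw [Finset.sum_eq_single (1 : Perm (Fin j))]
  · simp only [inv_one, mul_one, hnm1, add_zero, and_true, ev, hS1, htp1]
  · intro σ₂ _ h2
    rw [if_neg]
    rintro ⟨_, h3⟩
    rw [hnm1] at h3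
    have h4 : nm σ₂ = 0 := by omega
    rw [(hN (Fin j) σ₂ 1).1] at h4
    apply h2
    rw [← Perm.cycleType_eq_zero, cycleType_eq_map]
    have h5 : tp σ₂ = 0 := by
      by_contra hne
      obtain ⟨a, ha⟩ := Multiset.exists_mem_of_ne_zero hne
      have h6 : a + 1 ≤ N (tp σ₂) :=
        Multiset.single_le_sum (fun _ _ => Nat.zero_le _) _ (Multiset.mem_map_of_mem _ ha)
      omega
    rw [h5]
    simp
  · intro h
    exact absurd (mem_univ _) h

end Pool.Agent.R951.FH.Kl
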