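import Pool.Agent.R951.FH.Stm

/-!
# FH-MATCH: number of `m`-matchings of a cycle graph
-/

set_option autoImplicit false

namespace Pool.Agent.R951.FH.Match

open Finset

/-- No two consecutive elements. -/
def P (S : Finset ℕ) : Prop := ∀ x ∈ S, x + 1 ∉ S

instance (S : Finset ℕ) : Decidable (P S) := by unfold P; infer_instance

/-- The number of `m`-subsets of `range n` without consecutive elements. -/
def B (n m : ℕ) : ℕ := (((range n).powersetCard m).filter P).card

theorem B_zero (n : ℕ) : B n 0 = 1 := by
  unfold B
  rw [powersetCard_zero, filter_singleton, if_pos]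
  · rfl
  · intro x hx
    simp at hx

theorem B_rec (n m : ℕ) : B (n + 2) (m + 1) = B (n + 1) (m + 1) + B n m := by
  unfold B
  rw [range_add_one (n := n + 1), powersetCard_succ_insert (by simp), filter_union,
    card_union_of_disjoint]
  · congr 1
    rw [filter_image]
    have h : (filter (fun S => P (insert (n + 1) S)) (powersetCard m (range (n + 1)))) =
        filter P (powersetCard m (range n)) := by
      ext S
      simp only [mem_filter, mem_powersetCard]
      constructor
      · rintro ⟨⟨h1, h2⟩, h3⟩
        have h4 : n ∉ S := fun h => h3 n (mem_insert_of_mem h) (mem_insert_self _ _)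
        refine ⟨⟨fun x hx => ?_, h2⟩, fun x hx h => h3 x (mem_insert_of_mem hx)
          (mem_insert_of_mem h)⟩
        have h5 := mem_range.1 (h1 hx)
        have h6 : x ≠ n := fun h => h4 (h ▸ hx)
        exact mem_range.2 (by omega)
      · rintro ⟨⟨h1, h2⟩, h3⟩
        refine ⟨⟨fun x hx => ?_, h2⟩, ?_⟩
        · have h5 := mem_range.1 (h1 hx)
          exact mem_range.2 (by omega)
        · intro x hx h
          rcases mem_insert.1 hx with hx | hx
          · rcases mem_insert.1 h with h | h
            · omega
            · have h5 := mem_range.1 (h1 h)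
              omega
          · rcases mem_insert.1 h with h | h
            · have h5 := mem_range.1 (h1 hx)
              omega
            · exact h3 x hx h
    have h' : (filter ((fun S => P S) ∘ (insert (n + 1))) (powersetCard m (range (n + 1)))) =
        filter P (powersetCard m (range n)) := h
    first
      | rw [h']
      | rw [h]
    apply card_image_of_injOn
    intro S hS T hT hST
    simp only [coe_filter, mem_powersetCard, Set.mem_ofPred_eq] at hS hT
    have hS' : n + 1 ∉ S := fun h => by
      have := mem_range.1 (hS.1.1 h)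
      omega
    have hT' : n + 1 ∉ T := fun h => by
      have := mem_range.1 (hT.1.1 h)
      omega
    have h1 := congrArg (fun U => erase U (n + 1)) hST
    simpa [erase_insert hS', erase_insert hT'] using h1
  · rw [disjoint_left]
    intro S hS hS'
    simp only [mem_filter, mem_powersetCard, mem_image] at hS hS'
    obtain ⟨⟨T, hT, rfl⟩, -⟩ := hS'
    have := mem_range.1 (hS.1.1 (mem_insert_self _ _))
    omega

theorem B_eq : ∀ n m : ℕ, B n m = (n + 1 - m).choose m
  | n, 0 => by rw [B_zero, Nat.choose_zero_right]
  | 0, m + 1 => by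
    have h : 0 + 1 - (m + 1) = 0 := by omega
    rw [h, Nat.choose_zero_succ]
    unfold B
    rw [range_zero, powersetCard_eq_empty.2 (by simp)]
    rfl
  | 1, m + 1 => by
    rcases Nat.eq_zero_or_pos m with rfl | hm
    · decide
    · have h : 1 + 1 - (m + 1) = 0 := by omega
      rw [h, Nat.choose_zero_succ]
      unfold B
      rw [powersetCard_eq_empty.2 (by simp; omega)]
      rfl
  | n + 2, m + 1 => by
    rw [B_rec, B_eq (n + 1) (m + 1), B_eq n m]
    have e1 : n + 1 + 1 - (m + 1) = n + 1 - m := by omega
    rw [e1]
    rcases Nat.lt_or_ge (n + 1) m with h | h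
    · have e2 : n + 1 - m = 0 := by omega
      have e3 : n + 2 + 1 - (m + 1) = 0 := by omega
      obtain ⟨m', rfl⟩ : ∃ m', m = m' + 1 := ⟨m - 1, by omega⟩
      rw [e2, e3]
      simp
    · have e3 : n + 2 + 1 - (m + 1) = (n + 1 - m) + 1 := by omega
      rw [e3, Nat.choose_succ_succ, add_comm]

section cyc

variable (n m : ℕ)

/-- The `m`-subsets of the cycle of length `n + 1` without adjacent elements. -/
def A : Finset (Finset (ZMod (n + 1))) :=
  univ.filter (fun S => S.card = m ∧ ∀ x ∈ S, x + 1 ∉ S)

theorem card_avoid : ((A n m).filter (fun S => (-1 : ZMod (n + 1)) ∉ S)).card = B n m := by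
  have hneg : ((n : ℕ) : ZMod (n + 1)) = -1 := by
    have h : ((n + 1 : ℕ) : ZMod (n + 1)) = 0 := ZMod.natCast_self _
    push_cast at h
    linear_combination h
  have hval : ∀ j : ℕ, j < n + 1 → ((j : ℕ) : ZMod (n + 1)).val = j := fun j hj =>
    ZMod.val_cast_of_lt hj
  unfold B
  refine card_bij' (fun S _ => S.image ZMod.val) (fun T _ => T.image (Nat.cast)) ?_ ?_ ?_ ?_
  · intro S hS
    simp only [A, mem_filter, mem_univ, true_and] at hS
    obtain ⟨⟨h1, h2⟩, h3⟩ := hS
    simp only [mem_filter, mem_powersetCard]
    refine ⟨⟨fun y hy => ?_, ?_⟩, ?_⟩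
    · obtain ⟨x, hx, rfl⟩ := mem_image.1 hy
      have h4 : x.val < n + 1 := ZMod.val_lt x
      have h5 : x.val ≠ n := by
        intro h
        apply h3
        have : x = -1 := by
          have h6 := ZMod.natCast_zmod_val x
          rw [h] at h6
          rw [← h6, hneg]
        rwa [this] at hx
      exact mem_range.2 (by omega)
    · rw [card_image_of_injective _ (ZMod.val_injective _), h1]
    · intro y hy hy'
      obtain ⟨x, hx, rfl⟩ := mem_image.1 hy
      obtain ⟨x', hx', he⟩ := mem_image.1 hy'
      apply h2 x hx
      have : x' = x + 1 := by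
        rw [← ZMod.natCast_zmod_val x', he]
        push_cast
        rw [ZMod.natCast_zmod_val]
      rwa [← this]
  · intro T hT
    simp only [mem_filter, mem_powersetCard] at hT
    obtain ⟨⟨h1, h2⟩, h3⟩ := hT
    simp only [A, mem_filter, mem_univ, true_and]
    refine ⟨⟨?_, ?_⟩, ?_⟩
    · rw [card_image_of_injOn, h2]
      intro a ha b hb hab
      have ha' := mem_range.1 (h1 ha)
      have hb' := mem_range.1 (h1 hb)
      have := congrArg ZMod.val hab
      rwa [hval a (by omega), hval b (by omega)] at this
    · intro x hx hx'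
      obtain ⟨a, ha, rfl⟩ := mem_image.1 hx
      obtain ⟨b, hb, he⟩ := mem_image.1 hx'
      have ha' := mem_range.1 (h1 ha)
      have hb' := mem_range.1 (h1 hb)
      have he' : ((b : ℕ) : ZMod (n + 1)) = ((a + 1 : ℕ) : ZMod (n + 1)) := by
        rw [he]; push_cast; rfl
      have := congrArg ZMod.val he'
      rw [hval b (by omega), hval (a + 1) (by omega)] at this
      apply h3 a ha
      rwa [← this]
    · intro hx
      obtain ⟨a, ha, he⟩ := mem_image.1 hx
      have ha' := mem_range.1 (h1 ha)
      rw [← hneg] at he
      have := congrArg ZMod.val he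
      rw [hval a (by omega), hval n (by omega)] at this
      omega
  · intro S hS
    simp only [image_image]
    ext x
    simp only [mem_image, Function.comp]
    constructor
    · rintro ⟨y, hy, rfl⟩
      rwa [ZMod.natCast_zmod_val]
    · intro hx
      exact ⟨x, hx, ZMod.natCast_zmod_val x⟩
  · intro T hT
    simp only [mem_filter, mem_powersetCard] at hT
    obtain ⟨⟨h1, h2⟩, h3⟩ := hT
    simp only [image_image]
    ext x
    simp only [mem_image, Function.comp]
    constructor
    · rintro ⟨y, hy, rfl⟩
      have := mem_range.1 (h1 hy)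
      rwa [hval y (by omega)]
    · intro hx
      have := mem_range.1 (h1 hx)
      exact ⟨x, hx, hval x (by omega)⟩

theorem card_rot (c : ZMod (n + 1)) : ((A n m).filter (fun S => c ∉ S)).card =
    ((A n m).filter (fun S => (-1 : ZMod (n + 1)) ∉ S)).card := by
  refine card_bij' (fun S _ => S.image (fun x => x - (c + 1)))
    (fun S _ => S.image (fun x => x + (c + 1))) ?_ ?_ ?_ ?_
  · intro S hS
    simp only [A, mem_filter, mem_univ, true_and] at hS ⊢
    obtain ⟨⟨h1, h2⟩, h3⟩ := hS
    refine ⟨⟨?_, ?_⟩, ?_⟩
    · rw [card_image_of_injective _ (sub_left_injective), h1]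
    · intro x hx hx'
      obtain ⟨a, ha, rfl⟩ := mem_image.1 hx
      obtain ⟨b, hb, he⟩ := mem_image.1 hx'
      have : b = a + 1 := by linear_combination he
      exact h2 a ha (this ▸ hb)
    · intro hx
      obtain ⟨a, ha, he⟩ := mem_image.1 hx
      have : a = c := by linear_combination he
      exact h3 (this ▸ ha)
  · intro S hS
    simp only [A, mem_filter, mem_univ, true_and] at hS ⊢
    obtain ⟨⟨h1, h2⟩, h3⟩ := hS
    refine ⟨⟨?_, ?_⟩, ?_⟩
    · rw [card_image_of_injective _ (add_left_injective _), h1]
    · intro x hx hx'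
      obtain ⟨a, ha, rfl⟩ := mem_image.1 hx
      obtain ⟨b, hb, he⟩ := mem_image.1 hx'
      have : b = a + 1 := by linear_combination he
      exact h2 a ha (this ▸ hb)
    · intro hx
      obtain ⟨a, ha, he⟩ := mem_image.1 hx
      have : a = -1 := by linear_combination he
      exact h3 (this ▸ ha)
  · intro S hS
    simp only [image_image, Function.comp_def, sub_add_cancel, image_id']
  · intro S hS
    simp only [image_image, Function.comp_def, add_sub_cancel_right, image_id']

theorem count : (n + 1 - m) * (A n m).card = (n + 1) * (n + 1 - m).choose m := by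
  have h := sum_card_bipartiteAbove_eq_sum_card_bipartiteBelow
    (s := A n m) (t := (univ : Finset (ZMod (n + 1)))) (fun S x => x ∉ S)
  have h1 : ∀ S ∈ A n m, ((univ : Finset (ZMod (n + 1))).bipartiteAbove (fun S x => x ∉ S) S).card
      = n + 1 - m := by
    intro S hS
    simp only [A, mem_filter, mem_univ, true_and] at hS
    have : ((univ : Finset (ZMod (n + 1))).bipartiteAbove (fun S x => x ∉ S) S) = Sᶜ := by
      ext x
      simp [mem_bipartiteAbove]
    rw [this, card_compl, hS.1, ZMod.card]
  have h2 : ∀ c ∈ (univ : Finset (ZMod (n + 1))),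
      ((A n m).bipartiteBelow (fun S x => x ∉ S) c).card = (n + 1 - m).choose m := by
    intro c _
    have : ((A n m).bipartiteBelow (fun S x => x ∉ S) c) = (A n m).filter (fun S => c ∉ S) := rfl
    rw [this, card_rot, card_avoid, B_eq]
  rw [sum_congr rfl h1, sum_congr rfl h2, sum_const, sum_const, card_univ, ZMod.card,
    smul_eq_mul, smul_eq_mul] at h
  rw [← h, mul_comm]

end cyc

theorem main : S_MATCH := by
  intro k m _
  have h := count (k + m + 1) m
  have e : k + m + 1 + 1 - m = k + 2 := by omega
  rw [e] at h
  have h' : ((k + 2 : ℕ) : ℚ) * ((A (k + m + 1) m).card : ℚ) =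
      ((k + m + 1 + 1 : ℕ) : ℚ) * (((k + 2).choose m : ℕ) : ℚ) := by
    exact_mod_cast h
  have h2 : (((univ : Finset (Finset (ZMod (k + m + 2)))).filter
      (fun S => S.card = m ∧ ∀ x ∈ S, x + 1 ∉ S)).card : ℚ) = ((A (k + m + 1) m).card : ℚ) := rfl
  rw [h2]
  have h3 : ((k : ℚ) + 2) ≠ 0 := by positivity
  push_cast at h'
  field_simp
  linear_combination h'

end Pool.Agent.R951.FH.Match
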