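import Pool.Agent.R951.FH.Stm

/-!
# FH-NEWT: Newton type identity, the classes of the involutions generate
-/

set_option autoImplicit false

namespace Pool.Agent.R951.FH.Newt

open Finset

lemma dd_ind_zero : dd (ind {0}) = ind 0 := by
  funext s
  unfold dd ind
  have : (0 ::ₘ s = {0}) ↔ s = 0 := by
    constructor
    · intro h
      have : 0 ::ₘ s = 0 ::ₘ 0 := h
      exact (Multiset.cons_inj_right 0).1 this
    · rintro rfl
      rfl
  simp only [this]

lemma dd_ind_succ (k : ℕ) : dd (ind {k + 1}) = 0 := by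
  funext s
  unfold dd ind
  rw [if_neg]
  · rfl
  · intro h
    have : 0 ∈ ({k + 1} : Multiset ℕ) := h ▸ Multiset.mem_cons_self 0 s
    rw [Multiset.mem_singleton] at this
    omega

lemma dd_rep_succ (m : ℕ) : dd (ind (Multiset.replicate (m + 1) 0)) = ind (Multiset.replicate m 0) := by
  funext s
  unfold dd ind
  rw [Multiset.replicate_succ]
  simp only [Multiset.cons_inj_right]

lemma dd_rep_zero : dd (ind (Multiset.replicate 0 0)) = 0 := by
  funext s
  unfold dd ind
  rw [if_neg]
  · rfl
  · intro h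
    rw [Multiset.replicate_zero] at h
    exact Multiset.cons_ne_zero h

/-- the coefficients -/
def bb (k : ℕ) : ℚ := (-1 : ℚ) ^ k * ((2 * k + 1).choose k : ℚ)

lemma bb_ne (k : ℕ) : bb k ≠ 0 := by
  unfold bb
  have h : (0 : ℚ) < ((2 * k + 1).choose k : ℚ) := by
    exact_mod_cast Nat.choose_pos (by omega)
  exact mul_ne_zero (pow_ne_zero _ (by norm_num)) h.ne'

section
variable {G : Type} [CommRing G] [Algebra ℚ G] (D : FHD G)

lemma e_del (m : ℕ) : D.e (D.del m) = ind (Multiset.replicate m 0) := by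
  unfold FHD.del
  rw [LinearEquiv.apply_symm_apply]

lemma e_c (k : ℕ) : D.e (D.c k) = ind {k} := by
  unfold FHD.c
  rw [LinearEquiv.apply_symm_apply]

lemma del_zero : D.del 0 = 1 := by
  apply D.e.injective
  rw [e_del, D.one, Multiset.replicate_zero]

lemma symm_ind_zero : D.e.symm (ind 0) = 1 := by
  rw [← D.one, LinearEquiv.symm_apply_apply]

lemma der_zero_zero (s : T) : D.e (D.c 0 * D.del 0) (0 ::ₘ s) = D.e (D.del 0) s := by
  rw [D.der, e_c, dd_ind_zero, symm_ind_zero, one_mul, e_del, dd_rep_zero, map_zero, mul_zero, map_zero]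
  simp

lemma der_zero_succ (m : ℕ) (s : T) : D.e (D.c 0 * D.del (m + 1)) (0 ::ₘ s) =
    D.e (D.del (m + 1)) s + D.e (D.c 0 * D.del m) s := by
  rw [D.der, e_c, dd_ind_zero, symm_ind_zero, one_mul, e_del, dd_rep_succ]
  rfl

lemma der_succ_zero (k : ℕ) (s : T) : D.e (D.c (k + 1) * D.del 0) (0 ::ₘ s) = 0 := by
  rw [D.der, e_c, dd_ind_succ, map_zero, zero_mul, map_zero, e_del, dd_rep_zero, map_zero, mul_zero, map_zero]
  simp

lemma der_succ_succ (k m : ℕ) (s : T) : D.e (D.c (k + 1) * D.del (m + 1)) (0 ::ₘ s) =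
    D.e (D.c (k + 1) * D.del m) s := by
  rw [D.der, e_c, dd_ind_succ, map_zero, zero_mul, map_zero, e_del, dd_rep_succ]
  simp only [Pi.zero_apply, zero_add]
  rfl

/-- Newton type identity -/
lemma newton (hID : S_ID) (h : ∀ (k m : ℕ) (s : T), 0 ∉ s → D.e (D.c k * D.del m) s =
    if s = {k + m} then ((k + m + 2 : ℚ) / (k + 2)) * ((k + 2).choose m : ℚ) else 0) (n : ℕ) :
    (n + 1 : ℚ) • D.del (n + 1) = ∑ k ∈ range (n + 1), bb k • (D.c k * D.del (n - k)) := by
  induction n with
  | zero =>
    apply D.e.injective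
    simp only [Nat.cast_zero, zero_add, one_smul, range_one, sum_singleton]
    rw [show (0 - 0 : ℕ) = 0 from rfl, del_zero, mul_one, map_smul, e_c, e_del]
    unfold bb
    simp
  | succ n ih =>
    apply D.e.injective
    funext s
    rw [map_smul, map_sum, Pi.smul_apply, Finset.sum_apply]
    by_cases h0 : 0 ∈ s
    · obtain ⟨s', rfl⟩ := Multiset.exists_cons_of_mem h0
      have ih' := congrFun (congrArg D.e ih) s'
      rw [map_smul, map_sum, Pi.smul_apply, Finset.sum_apply] at ih'
      have e1 : D.e (D.del (n + 1 + 1)) (0 ::ₘ s') = D.e (D.del (n + 1)) s' := by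
        rw [e_del, e_del]
        exact congrFun (dd_rep_succ (n + 1)) s'
      rw [e1]
      -- the sum
      rw [sum_range_succ' _ (n + 1)]
      simp only [map_smul, Pi.smul_apply, smul_eq_mul] at ih' ⊢
      rw [Nat.sub_zero, der_zero_succ]
      have e2 : ∑ k ∈ range (n + 1), bb (k + 1) * D.e (D.c (k + 1) * D.del (n + 1 - (k + 1))) (0 ::ₘ s') =
          ∑ k ∈ range n, bb (k + 1) * D.e (D.c (k + 1) * D.del (n - (k + 1))) s' := by
        rw [sum_range_succ, show n + 1 - (n + 1) = 0 by omega, der_succ_zero, mul_zero, add_zero]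
        apply sum_congr rfl
        intro k hk
        rw [mem_range] at hk
        rw [show n + 1 - (k + 1) = (n - (k + 1)) + 1 by omega, der_succ_succ]
      rw [e2]
      rw [sum_range_succ' _ n, Nat.sub_zero] at ih'
      have hb0 : bb 0 = 1 := by unfold bb; simp
      rw [hb0] at ih' ⊢
      push_cast
      linarith
    · have e1 : D.e (D.del (n + 1 + 1)) s = 0 := by
        rw [e_del]
        unfold ind
        rw [if_neg]
        rintro rfl
        apply h0
        rw [Multiset.mem_replicate]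
        exact ⟨by omega, rfl⟩
      rw [e1, smul_zero]
      simp only [map_smul, Pi.smul_apply, smul_eq_mul]
      symm
      have e3 : ∀ k ∈ range (n + 1 + 1), bb k * D.e (D.c k * D.del (n + 1 - k)) s =
          if s = {n + 1} then bb k * ((((n + 1 : ℕ) : ℚ) + 2) / (k + 2) * ((k + 2).choose (n + 1 - k) : ℚ)) else 0 := by
        intro k hk
        rw [mem_range] at hk
        rw [h _ _ _ h0, show k + (n + 1 - k) = n + 1 by omega]
        split_ifs
        · congr 4
          have : ((k : ℚ) + ((n + 1 - k : ℕ) : ℚ)) = ((n + 1 : ℕ) : ℚ) := by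
            rw [← Nat.cast_add]
            congr 1
            omega
          rw [this]
        · rw [mul_zero]
      rw [sum_congr rfl e3]
      by_cases hs : s = {n + 1}
      · simp only [hs, if_true]
        exact hID (n + 1) (by omega)
      · simp only [hs, if_false, sum_const_zero]

end

theorem main (hID : S_ID) : S_NEWT := by
  intro G _ _ D h i
  induction i using Nat.strong_induction_on with
  | _ i ih =>
    have hn := newton D hID h i
    rw [sum_range_succ, Nat.sub_self, del_zero, mul_one] at hn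
    have hdel : ∀ j, j ≤ i + 1 → D.del j ∈ Algebra.adjoin ℚ {x : G | ∃ j, 1 ≤ j ∧ j ≤ i + 1 ∧ x = D.del j} := by
      intro j hj
      rcases Nat.eq_zero_or_pos j with rfl | hj0
      · rw [del_zero]
        exact one_mem _
      · exact Algebra.subset_adjoin ⟨j, hj0, hj, rfl⟩
    have hc : ∀ k, k < i → D.c k ∈ Algebra.adjoin ℚ {x : G | ∃ j, 1 ≤ j ∧ j ≤ i + 1 ∧ x = D.del j} := by
      intro k hk
      refine Algebra.adjoin_mono ?_ (ih k hk)
      rintro x ⟨j, h1, h2, h3⟩
      exact ⟨j, h1, by omega, h3⟩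
    have h2 : bb i • D.c i ∈ Algebra.adjoin ℚ {x : G | ∃ j, 1 ≤ j ∧ j ≤ i + 1 ∧ x = D.del j} := by
      have : bb i • D.c i = (i + 1 : ℚ) • D.del (i + 1) - ∑ k ∈ range i, bb k • (D.c k * D.del (i - k)) := by
        rw [hn]
        ring
      rw [this]
      refine sub_mem (Subalgebra.smul_mem _ (hdel _ le_rfl) _) (sum_mem fun k hk => ?_)
      rw [mem_range] at hk
      exact Subalgebra.smul_mem _ (mul_mem (hc k hk) (hdel _ (by omega))) _
    have h3 := Subalgebra.smul_mem _ h2 (bb i)⁻¹
    rwa [smul_smul, inv_mul_cancel₀ (bb_ne i), one_smul] at h3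

end Pool.Agent.R951.FH.Newt
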