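import Pool.Agent.R951.FH.Stm

/-! FH-PEN: the rank of a linear pencil modulo a subspace is eventually constant. -/

set_option autoImplicit false

namespace Pool.Agent.R951.FH.Pen

open Module Polynomial

theorem rank_sup {U V : Type} [AddCommGroup U] [Module ℚ U] [FiniteDimensional ℚ U]
    [AddCommGroup V] [Module ℚ V] [FiniteDimensional ℚ V] (f : U →ₗ[ℚ] V) (W : Submodule ℚ V) :
    finrank ℚ ↥(LinearMap.range f ⊔ W) =
      finrank ℚ ↥(LinearMap.range (W.mkQ ∘ₗ f)) + finrank ℚ W := by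
  set S := LinearMap.range f ⊔ W with hS
  have h1 := LinearMap.finrank_range_add_finrank_ker (W.mkQ ∘ₗ S.subtype)
  have h2 : LinearMap.range (W.mkQ ∘ₗ S.subtype) = LinearMap.range (W.mkQ ∘ₗ f) := by
    rw [LinearMap.range_comp, Submodule.range_subtype, LinearMap.range_comp, hS,
      Submodule.map_sup]
    have : Submodule.map W.mkQ W = ⊥ := by
      exact Submodule.mkQ_map_self W
    rw [this, sup_bot_eq]
  have h3 : LinearMap.ker (W.mkQ ∘ₗ S.subtype) = Submodule.comap S.subtype W := by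
    rw [LinearMap.ker_comp, Submodule.ker_mkQ]
  have hWS : W ≤ S := le_sup_right
  have h4 : finrank ℚ (Submodule.comap S.subtype W) = finrank ℚ W :=
    (Submodule.comapSubtypeEquivOfLe hWS).finrank_eq
  rw [h2, h3, h4] at h1
  exact h1.symm

theorem lower {U V : Type} [AddCommGroup U] [Module ℚ U] [FiniteDimensional ℚ U]
    [AddCommGroup V] [Module ℚ V] [FiniteDimensional ℚ V] (A B : U →ₗ[ℚ] V) (t₁ : ℕ) :
    ∃ K : ℕ, ∀ t : ℕ, K ≤ t → finrank ℚ ↥(LinearMap.range (A + (t₁ : ℚ) • B)) ≤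
      finrank ℚ ↥(LinearMap.range (A + (t : ℚ) • B)) := by
  classical
  set R := LinearMap.range (A + (t₁ : ℚ) • B) with hR
  set n := finrank ℚ R with hn
  let b : Basis (Fin n) ℚ R := finBasis ℚ R
  have hb : ∀ i, ∃ u : U, (A + (t₁ : ℚ) • B) u = (b i : V) := fun i => (b i).2
  choose u hu using hb
  -- a projection
  obtain ⟨P, hP⟩ := Submodule.exists_isCompl R
  let φ : V →ₗ[ℚ] (Fin n → ℚ) :=
    (b.equivFun : R →ₗ[ℚ] (Fin n → ℚ)) ∘ₗ (Submodule.projectionOnto R P hP)
  have hφ : ∀ i, φ (b i : V) = Pi.single i 1 := by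
    intro i
    simp only [φ, LinearMap.comp_apply]
    rw [Submodule.projectionOnto_apply_left]
    simp only [LinearEquiv.coe_coe]
    ext j
    rw [Basis.equivFun_apply, Basis.repr_self, Finsupp.single_eq_pi_single]
  let MX : Matrix (Fin n) (Fin n) ℚ[X] := fun i j =>
    C (φ (A (u i)) j) + X * C (φ (B (u i)) j)
  have hev : ∀ t : ℚ, MX.det.eval t =
      Matrix.det (fun i j => φ ((A + t • B) (u i)) j) := by
    intro t
    have := RingHom.map_det (Polynomial.evalRingHom t) MX
    rw [Polynomial.coe_evalRingHom] at this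
    rw [this]
    congr 1
    ext i j
    rw [RingHom.mapMatrix_apply, Matrix.map_apply]
    simp [MX]
    ring
  have hne : MX.det ≠ 0 := by
    intro h0
    have h1 := hev (t₁ : ℚ)
    rw [h0, Polynomial.eval_zero] at h1
    have h2 : (fun i j => φ ((A + (t₁ : ℚ) • B) (u i)) j) = (1 : Matrix (Fin n) (Fin n) ℚ) := by
      ext i j
      rw [hu, hφ, Matrix.one_apply, Pi.single_apply]
      simp only [eq_comm]
    rw [h2, Matrix.det_one] at h1
    exact zero_ne_one h1
  have hfin : {t : ℕ | MX.det.eval (t : ℚ) = 0}.Finite := by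
    have h1 : {x : ℚ | MX.det.eval x = 0}.Finite := by
      have := (MX.det.roots.toFinset).finite_toSet
      refine this.subset ?_
      intro x hx
      simp only [Finset.mem_coe, Multiset.mem_toFinset]
      exact (Polynomial.mem_roots hne).mpr hx
    exact h1.preimage (Nat.cast_injective.injOn)
  obtain ⟨K, hK⟩ := hfin.bddAbove
  refine ⟨K + 1, fun t ht => ?_⟩
  have hdet : Matrix.det (fun i j => φ ((A + (t : ℚ) • B) (u i)) j) ≠ 0 := by
    rw [← hev]
    intro h0
    have := hK (show t ∈ {t : ℕ | MX.det.eval (t : ℚ) = 0} from h0)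
    omega
  have hli : LinearIndependent ℚ (fun i => (A + (t : ℚ) • B) (u i)) := by
    have h1 : LinearIndependent ℚ (fun i => φ ((A + (t : ℚ) • B) (u i))) :=
      Matrix.linearIndependent_rows_of_det_ne_zero
        (A := fun i j => φ ((A + (t : ℚ) • B) (u i)) j) hdet
    exact LinearIndependent.of_comp φ h1
  have hli' : LinearIndependent ℚ
      (fun i => (⟨(A + (t : ℚ) • B) (u i), LinearMap.mem_range_self _ _⟩ :
        LinearMap.range (A + (t : ℚ) • B))) :=
    LinearIndependent.of_comp (LinearMap.range (A + (t : ℚ) • B)).subtype hli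
  have := hli'.fintype_card_le_finrank
  simpa using this

theorem main : S_PEN := by
  intro U V _ _ _ _ _ _ A B W
  let g : ℕ → ℕ := fun t => finrank ℚ ↥(LinearMap.range (A + (t : ℚ) • B) ⊔ W)
  have hbd : BddAbove (Set.range g) :=
    ⟨finrank ℚ V, by rintro _ ⟨t, rfl⟩; exact Submodule.finrank_le _⟩
  have hmem : sSup (Set.range g) ∈ Set.range g := Nat.sSup_mem (Set.range_nonempty g) hbd
  obtain ⟨t₁, ht₁⟩ := hmem
  obtain ⟨K, hK⟩ := lower (W.mkQ ∘ₗ A) (W.mkQ ∘ₗ B) t₁
  refine ⟨g t₁, K, fun t ht => ?_⟩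
  apply le_antisymm
  · rw [ht₁]
    exact le_csSup hbd ⟨t, rfl⟩
  · change finrank ℚ ↥(LinearMap.range (A + (t₁ : ℚ) • B) ⊔ W) ≤ _
    rw [rank_sup, rank_sup]
    have := hK t ht
    have e : ∀ s : ℚ, W.mkQ ∘ₗ (A + s • B) = W.mkQ ∘ₗ A + s • (W.mkQ ∘ₗ B) := by
      intro s
      rw [LinearMap.comp_add, LinearMap.comp_smul]
    rw [e, e]
    omega

end Pool.Agent.R951.FH.Pen
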