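import Pool.Agent.R951.FH.Stm

/-!
# MP_15ac55_ag: piece FH-PRES1
-/

set_option autoImplicit false

namespace Pool.Agent.R951.FH.PRES1

open Finset MvPolynomial

lemma comp_X_mul {m : ℕ} (n : ℕ) (i : Fin m) (f : MvPolynomial (Fin m) ℚ) :
    weightedHomogeneousComponent wt n (X i * f) =
      if (i : ℕ) < n then X i * weightedHomogeneousComponent wt (n - 1 - i) f else 0 := by
  classical
  ext d
  by_cases hd : i ∈ d.support
  · obtain ⟨d', rfl⟩ : ∃ d', d = Finsupp.single i 1 + d' := by
      refine ⟨d - Finsupp.single i 1, ?_⟩
      ext j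
      by_cases hj : i = j
      · subst hj
        have := Finsupp.mem_support_iff.1 hd
        simp only [Finsupp.coe_add, Finsupp.coe_tsub, Pi.add_apply, Pi.sub_apply,
          Finsupp.single_eq_same]
        omega
      · simp [hj]
    have hw : Finsupp.weight (wt : Fin m → ℕ) (Finsupp.single i 1 + d') =
        (i : ℕ) + 1 + Finsupp.weight wt d' := by
      rw [map_add, Finsupp.weight_single]
      simp [wt]
    rw [coeff_weightedHomogeneousComponent, hw, coeff_X_mul]
    split_ifs with h1 h2 h2
    · rw [coeff_X_mul, coeff_weightedHomogeneousComponent, if_pos (by omega)]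
    · omega
    · rw [coeff_X_mul, coeff_weightedHomogeneousComponent, if_neg (by omega)]
    · simp
  · rw [coeff_weightedHomogeneousComponent, coeff_X_mul', if_neg hd, ite_self]
    split_ifs with h2
    · rw [coeff_X_mul', if_neg hd]
    · simp

theorem main : S_PRES1 := by
  classical
  intro m n I hI
  apply le_antisymm
  · -- the hard inclusion
    have key : ∀ a ∈ Ideal.span (X '' (Set.univ : Set (Fin m)) : Set (MvPolynomial (Fin m) ℚ)),
        ∀ f ∈ I, weightedHomogeneousComponent wt n (a * f) ∈ Submodule.span ℚ
          {z | ∃ (i : Fin m) (y : MvPolynomial (Fin m) ℚ), (i : ℕ) < n ∧ y ∈ dg I (n - 1 - i) ∧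
            z = X i * y} := by
      intro a ha
      refine Submodule.span_induction ?_ ?_ ?_ ?_ ha
      · rintro _ ⟨i, _, rfl⟩ f hf
        rw [comp_X_mul]
        split_ifs with h
        · refine Submodule.subset_span ⟨i, _, h, ⟨?_, ?_⟩, rfl⟩
          · exact hI f hf _
          · exact weightedHomogeneousComponent_mem _ _ _
        · exact Submodule.zero_mem _
      · intro f _
        rw [zero_mul, map_zero]
        exact Submodule.zero_mem _
      · intro x y _ _ hx hy f hf
        rw [add_mul, map_add]
        exact Submodule.add_mem _ (hx f hf) (hy f hf)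
      · intro r x _ hx f hf
        have : (r • x) * f = x * (r * f) := by rw [smul_eq_mul]; ring
        rw [this]
        exact hx _ (Ideal.mul_mem_left _ _ hf)
    have hP : ∀ a ∈ Pp m, a ∈ Ideal.span (X '' (Set.univ : Set (Fin m)) :
        Set (MvPolynomial (Fin m) ℚ)) := by
      intro a ha
      rw [mem_ideal_span_X_image]
      intro d hd
      by_contra hcon
      push Not at hcon
      have hd0 : d = 0 := by
        ext i
        simpa using hcon i (Set.mem_univ i)
      subst hd0
      rw [mem_support_iff] at hd
      exact hd (by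
        have : constantCoeff a = 0 := RingHom.mem_ker.1 ha
        rwa [constantCoeff_eq] at this)
    intro z hz
    obtain ⟨hz1, hz2⟩ := hz
    have hz1' : z ∈ Pp m * I := hz1
    have h3 : weightedHomogeneousComponent wt n z ∈ Submodule.span ℚ
          {z | ∃ (i : Fin m) (y : MvPolynomial (Fin m) ℚ), (i : ℕ) < n ∧ y ∈ dg I (n - 1 - i) ∧
            z = X i * y} := by
      refine Submodule.mul_induction_on hz1' ?_ ?_
      · intro a ha f hf
        exact key a (hP a ha) f hf
      · intro x y hx hy
        rw [map_add]
        exact Submodule.add_mem _ hx hy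
    have h4 : weightedHomogeneousComponent wt n z = z :=
      IsWeightedHomogeneous.weightedHomogeneousComponent_same
        ((mem_weightedHomogeneousSubmodule _ _ _ _).1 hz2)
    rwa [h4] at h3
  · rw [Submodule.span_le]
    rintro _ ⟨i, y, hi, ⟨hy1, hy2⟩, rfl⟩
    refine ⟨?_, ?_⟩
    · have hy1' : y ∈ I := hy1
      have hX : (X i : MvPolynomial (Fin m) ℚ) ∈ Pp m := by
        rw [Pp, RingHom.mem_ker]
        simp
      exact Ideal.mul_mem_mul hX hy1'
    · have h1 : IsWeightedHomogeneous (wt : Fin m → ℕ) (X i : MvPolynomial (Fin m) ℚ) (wt i) :=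
        isWeightedHomogeneous_X _ _ _
      have h2 : IsWeightedHomogeneous (wt : Fin m → ℕ) y (n - 1 - i) :=
        (mem_weightedHomogeneousSubmodule _ _ _ _).1 hy2
      have h3 := h1.mul h2
      have h4 : wt i + (n - 1 - i) = n := by unfold wt; omega
      rw [h4] at h3
      exact (mem_weightedHomogeneousSubmodule _ _ _ _).2 h3

end Pool.Agent.R951.FH.PRES1
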