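import Pool.Agent.R951.FH.Stm
import Pool.Agent.R951.FH.Alg

/-!
# MP_15ac55_ag: FH-RING
-/

set_option autoImplicit false

namespace Pool.Agent.R951.FH.RingP

open Equiv Finset

variable {α : Type} [Fintype α] [DecidableEq α]

theorem nm_conj (hN : S_NORM) (τ σ : Perm α) : nm (τ * σ * τ⁻¹) = nm σ := by
  rw [(hN _ (τ * σ * τ⁻¹) 1).1, (hN _ σ 1).1]
  unfold tp
  rw [Perm.cycleType_conj]

theorem tp_conj (τ σ : Perm α) : tp (τ * σ * τ⁻¹) = tp σ := by
  unfold tp
  rw [Perm.cycleType_conj]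

theorem assoc (hN : S_NORM) (f g h : Perm α → ℚ) : cv (cv f g) h = cv f (cv g h) := by
  have hsub : ∀ σ τ : Perm α, nm (σ * τ) ≤ nm σ + nm τ := fun σ τ => (hN α σ τ).2.2.1
  funext π
  -- both sides equal the triple sum
  have hL : cv (cv f g) h π = ∑ σ : Perm α, ∑ τ : Perm α,
      if nm σ + nm τ + nm (τ⁻¹ * σ⁻¹ * π) = nm π then f σ * g τ * h (τ⁻¹ * σ⁻¹ * π) else 0 := by
    unfold cv
    have h1 : ∀ ρ : Perm α, (if nm ρ + nm (ρ⁻¹ * π) = nm π then
        (∑ σ : Perm α, if nm σ + nm (σ⁻¹ * ρ) = nm ρ then f σ * g (σ⁻¹ * ρ) else 0) *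
          h (ρ⁻¹ * π) else 0) =
        ∑ σ : Perm α, if nm σ + nm (σ⁻¹ * ρ) + nm (ρ⁻¹ * π) = nm π then
          f σ * g (σ⁻¹ * ρ) * h (ρ⁻¹ * π) else 0 := by
      intro ρ
      split_ifs with h2
      · rw [Finset.sum_mul]
        refine Finset.sum_congr rfl fun σ _ => ?_
        have h3 : nm σ + nm (σ⁻¹ * ρ) = nm ρ ↔
            nm σ + nm (σ⁻¹ * ρ) + nm (ρ⁻¹ * π) = nm π := by omega
        simp only [h3, ite_mul, zero_mul]
      · symm
        apply Finset.sum_eq_zero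
        intro σ _
        rw [if_neg]
        intro h3
        have h4 := hsub σ (σ⁻¹ * ρ)
        have h5 := hsub ρ (ρ⁻¹ * π)
        rw [mul_inv_cancel_left] at h4 h5
        omega
    simp only [h1]
    rw [Finset.sum_comm]
    refine Finset.sum_congr rfl fun σ _ => ?_
    rw [← Equiv.sum_comp (Equiv.mulLeft σ)]
    refine Finset.sum_congr rfl fun τ _ => ?_
    simp [mul_inv_rev, mul_assoc]
  have hR : cv f (cv g h) π = ∑ σ : Perm α, ∑ τ : Perm α,
      if nm σ + nm τ + nm (τ⁻¹ * σ⁻¹ * π) = nm π then f σ * g τ * h (τ⁻¹ * σ⁻¹ * π) else 0 := by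
    unfold cv
    refine Finset.sum_congr rfl fun σ _ => ?_
    split_ifs with h2
    · rw [Finset.mul_sum]
      refine Finset.sum_congr rfl fun τ _ => ?_
      have h3 : nm τ + nm (τ⁻¹ * (σ⁻¹ * π)) = nm (σ⁻¹ * π) ↔
          nm σ + nm τ + nm (τ⁻¹ * σ⁻¹ * π) = nm π := by
        rw [mul_assoc]
        omega
      simp only [h3, mul_ite, mul_zero, mul_assoc]
    · symm
      apply Finset.sum_eq_zero
      intro τ _
      rw [if_neg]
      intro h3
      have h4 := hsub σ (σ⁻¹ * π)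
      have h5 := hsub τ (τ⁻¹ * (σ⁻¹ * π))
      rw [mul_inv_cancel_left] at h4 h5
      rw [mul_assoc] at h3
      omega
  rw [hL, hR]

theorem cv_comm (hN : S_NORM) (F H : T → ℚ) : cv (ev α F) (ev α H) = cv (ev α H) (ev α F) := by
  funext π
  unfold cv
  let e : Perm α ≃ Perm α := (Equiv.inv (Perm α)).trans (Equiv.mulRight π)
  have he : ∀ σ, e σ = σ⁻¹ * π := fun σ => rfl
  rw [← Equiv.sum_comp e]
  refine Finset.sum_congr rfl fun σ _ => ?_
  rw [he]
  have h1 : (σ⁻¹ * π)⁻¹ * π = π⁻¹ * σ * π⁻¹⁻¹ := by group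
  rw [h1, nm_conj hN]
  unfold ev
  rw [tp_conj, add_comm, mul_comm]

theorem tp_zero (σ : Perm α) : tp σ = 0 ↔ σ = 1 := by
  unfold tp
  rw [Multiset.map_eq_zero, Perm.cycleType_eq_zero]

theorem ev_ind_zero : (ev α (ind 0)) = fun σ => if σ = 1 then 1 else 0 := by
  funext σ
  unfold ev ind
  simp only [tp_zero]

theorem main (hN : S_NORM) (hK : S_KL) : S_RING := by
  have hstar : ∀ (α : Type) [Fintype α] [DecidableEq α] (F H : T → ℚ),
      ev α (star F H) = cv (ev α F) (ev α H) := by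
    intro α _ _ F H
    funext π
    exact (hK.2 α F H π).symm
  have hrep : ∀ (F : T → ℚ) (s : T), ev (Fin (size s)) F (rep s) = F s := by
    intro F s
    unfold ev
    rw [hK.1 s]
  refine ⟨?_, ?_, ?_, ?_, ?_⟩
  · intro α _ _ f g h
    exact assoc hN f g h
  · intro F H
    funext s
    unfold star
    rw [cv_comm hN]
  · intro F
    funext s
    unfold star
    rw [ev_ind_zero, cv_one_left, hrep]
  · intro F H K
    funext s
    have h1 : star (star F H) K s = cv (cv (ev (Fin (size s)) F) (ev _ H)) (ev _ K) (rep s) := by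
      rw [← hstar]
      rfl
    have h2 : star F (star H K) s = cv (ev (Fin (size s)) F) (cv (ev _ H) (ev _ K)) (rep s) := by
      rw [← hstar]
      rfl
    rw [h1, h2, assoc hN]
  · intro F H s hs
    have hπ := hK.1 s
    unfold star at hs
    generalize rep s = π at hs hπ
    have hNs : N s = nm π := by rw [(hN _ π 1).1, hπ]
    unfold cv at hs
    obtain ⟨σ, -, hσ⟩ := Finset.exists_ne_zero_of_sum_ne_zero hs
    have h1 : nm σ + nm (σ⁻¹ * π) = nm π := by
      by_contra h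
      rw [if_neg h] at hσ
      exact hσ rfl
    rw [if_pos h1] at hσ
    refine ⟨tp σ, tp (σ⁻¹ * π), left_ne_zero_of_mul hσ, right_ne_zero_of_mul hσ, ?_, ?_, ?_⟩
    · rw [← (hN _ σ 1).1, ← (hN _ (σ⁻¹ * π) 1).1, hNs]
      exact h1
    · rw [← (hN _ σ 1).2.1]
      simpa using Finset.card_le_univ σ.support
    · rw [← (hN _ (σ⁻¹ * π) 1).2.1]
      simpa using Finset.card_le_univ (σ⁻¹ * π).support

end Pool.Agent.R951.FH.RingP
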