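import Pool.Agent.R951.FH.Stm

/-!
# MP_15ac55_ag: FH-STAB
-/

set_option autoImplicit false

namespace Pool.Agent.R951.FH.Stab

open MvPolynomial

theorem N_cons (k : ℕ) (s : T) : N (k ::ₘ s) = (k + 1) + N s := by simp [N]

theorem size_cons (k : ℕ) (s : T) : size (k ::ₘ s) = (k + 2) + size s := by simp [size]

theorem size_eq (s : T) : size s = N s + Multiset.card s := by
  induction s using Multiset.induction with
  | empty => simp [size, N]
  | cons a s ih => rw [size_cons, N_cons, ih, Multiset.card_cons]; ring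

theorem card_le (s : T) : Multiset.card s ≤ N s := by
  induction s using Multiset.induction with
  | empty => simp [N]
  | cons a s ih => rw [N_cons, Multiset.card_cons]; omega

theorem two_card_le (s : T) (h : 0 ∉ s) : 2 * Multiset.card s ≤ N s := by
  induction s using Multiset.induction with
  | empty => simp [N]
  | cons a s ih =>
    rw [Multiset.mem_cons, not_or] at h
    have := ih h.2
    have h1 : a ≠ 0 := fun h0 => h.1 h0.symm
    rw [N_cons, Multiset.card_cons]; omega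

section

variable {G : Type} [CommRing G] [Algebra ℚ G] (D : FHD G)

/-- Adding a transposition, as a linear map. -/
noncomputable def ddL : (T → ℚ) →ₗ[ℚ] (T → ℚ) where
  toFun F := dd F
  map_add' _ _ := rfl
  map_smul' _ _ := rfl

/-- The derivation. -/
noncomputable def dL : G →ₗ[ℚ] G := D.e.symm.toLinearMap ∘ₗ ddL ∘ₗ D.e.toLinearMap

theorem e_dL (x : G) (s : T) : D.e (dL D x) s = D.e x (0 ::ₘ s) := by
  simp only [dL, LinearMap.comp_apply, LinearEquiv.coe_coe, LinearEquiv.apply_symm_apply]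
  rfl

theorem dL_mul (x y : G) : dL D (x * y) = dL D x * y + x * dL D y := by
  apply D.e.injective
  funext s
  rw [e_dL, map_add, Pi.add_apply]
  exact D.der x y s

/-- The inverse of `ddL`. -/
noncomputable def iiL : (T → ℚ) →ₗ[ℚ] (T → ℚ) where
  toFun F := fun s => if 0 ∈ s then F (s.erase 0) else 0
  map_add' F H := by
    funext s
    by_cases h : 0 ∈ s <;> simp [h]
  map_smul' a F := by
    funext s
    by_cases h : 0 ∈ s <;> simp [h]

/-- The inverse of `dL`. -/
noncomputable def iL : G →ₗ[ℚ] G := D.e.symm.toLinearMap ∘ₗ iiL ∘ₗ D.e.toLinearMap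

theorem e_iL (x : G) (s : T) :
    D.e (iL D x) s = if 0 ∈ s then D.e x (s.erase 0) else 0 := by
  simp [iL, iiL]

theorem dL_iL (x : G) : dL D (iL D x) = x := by
  apply D.e.injective
  funext s
  rw [e_dL, e_iL]
  simp

theorem iL_dL (x : G) (h : ∀ s, D.e x s ≠ 0 → 0 ∈ s) : iL D (dL D x) = x := by
  apply D.e.injective
  funext s
  rw [e_iL]
  by_cases h0 : 0 ∈ s
  · rw [if_pos h0, e_dL, Multiset.cons_erase h0]
  · rw [if_neg h0]
    by_contra h1
    exact h0 (h s (fun h2 => h1 h2.symm))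

theorem dL_one : dL D (1 : G) = 0 := by
  have := dL_mul D 1 1
  simp at this
  exact this

theorem dL_c0 : dL D (D.c 0) = 1 := by
  apply D.e.injective
  funext s
  rw [e_dL, FHD.c, LinearEquiv.apply_symm_apply, D.one]
  unfold ind
  by_cases hs : s = 0
  · subst hs; simp
  · rw [if_neg hs, if_neg]
    intro h
    apply hs
    have h2 := congrArg Multiset.card h
    simp at h2
    exact h2

theorem dL_c (i : ℕ) (hi : 1 ≤ i) : dL D (D.c i) = 0 := by
  apply D.e.injective
  funext s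
  rw [e_dL, FHD.c, LinearEquiv.apply_symm_apply, map_zero]
  unfold ind
  rw [if_neg]
  · rfl
  · intro h
    have h2 : (0 : ℕ) ∈ ({i} : Multiset ℕ) := by rw [← h]; simp
    rw [Multiset.mem_singleton] at h2
    omega

theorem dLp_iLp (t : ℕ) (x : G) : (dL D ^ t) ((iL D ^ t) x) = x := by
  induction t generalizing x with
  | zero => simp
  | succ t ih =>
    rw [pow_succ, pow_succ', Module.End.mul_apply, Module.End.mul_apply, dL_iL, ih]

theorem iLp_inj (t : ℕ) : Function.Injective (iL D ^ t : Module.End ℚ G) :=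
  Function.LeftInverse.injective (g := (dL D ^ t : Module.End ℚ G)) (dLp_iLp D t)

theorem form0 (t : ℕ) (u : G) :
    (dL D ^ t) (D.c 0 * (iL D ^ t) u) = D.c 0 * u + (t : ℚ) • iL D u := by
  induction t generalizing u with
  | zero => simp
  | succ t ih =>
    have h1 : (iL D ^ (t + 1)) u = iL D ((iL D ^ t) u) := by
      rw [pow_succ', Module.End.mul_apply]
    have h2 : iL D ((iL D ^ t) u) = (iL D ^ t) (iL D u) := by
      rw [← Module.End.mul_apply, ← pow_succ', pow_succ, Module.End.mul_apply]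
    rw [pow_succ, Module.End.mul_apply, h1, dL_mul, dL_c0, dL_iL, one_mul, map_add, ih, h2,
      dLp_iLp]
    push_cast
    rw [add_smul, one_smul]
    ring

theorem formi (i : ℕ) (hi : 1 ≤ i) (t : ℕ) (u : G) :
    (dL D ^ t) (D.c i * (iL D ^ t) u) = D.c i * u := by
  induction t generalizing u with
  | zero => simp
  | succ t ih =>
    have h1 : (iL D ^ (t + 1)) u = iL D ((iL D ^ t) u) := by
      rw [pow_succ', Module.End.mul_apply]
    rw [pow_succ, Module.End.mul_apply, h1, dL_mul, dL_c D i hi, dL_iL, zero_mul, zero_add, ih]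

theorem mem_J (d n : ℕ) (x : G) :
    x ∈ D.J d n ↔ ∀ s, D.e x s ≠ 0 → N s = n ∧ d < size s := Iff.rfl

theorem mem_gp (n : ℕ) (x : G) : x ∈ D.gp n ↔ ∀ s, D.e x s ≠ 0 → N s = n := Iff.rfl

theorem J_le_gp (d n : ℕ) : D.J d n ≤ D.gp n := fun _ hx s hs => (hx s hs).1

theorem J_mono (d d' n : ℕ) (h : d ≤ d') : D.J d' n ≤ D.J d n :=
  fun _ hx s hs => ⟨(hx s hs).1, lt_of_le_of_lt h (hx s hs).2⟩

theorem gp_mul_J (a b d : ℕ) (x y : G) (hx : x ∈ D.gp a) (hy : y ∈ D.J d b) :
    x * y ∈ D.J d (a + b) := by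
  intro s hs
  obtain ⟨p, q, hp, hq, h1, _, h3⟩ := D.supp x y s hs
  have h4 := hx p hp
  have h5 := hy q hq
  exact ⟨by omega, by omega⟩

theorem gp_mul_gp (a b : ℕ) (x y : G) (hx : x ∈ D.gp a) (hy : y ∈ D.gp b) :
    x * y ∈ D.gp (a + b) := by
  intro s hs
  obtain ⟨p, q, hp, hq, h1, _, h3⟩ := D.supp x y s hs
  have h4 := hx p hp
  have h5 := hy q hq
  omega

theorem one_mem : (1 : G) ∈ D.gp 0 := by
  intro s hs
  rw [D.one] at hs
  unfold ind at hs
  by_cases h : s = 0
  · subst h; simp [N]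
  · rw [if_neg h] at hs; exact absurd rfl hs

theorem c_mem (i : ℕ) : D.c i ∈ D.gp (i + 1) := by
  intro s hs
  rw [FHD.c, LinearEquiv.apply_symm_apply] at hs
  unfold ind at hs
  by_cases h : s = {i}
  · subst h; simp [N]
  · rw [if_neg h] at hs; exact absurd rfl hs

theorem J_zero_of (d n : ℕ) (h : 2 * n ≤ d) (x : G) (hx : x ∈ D.J d n) : x = 0 := by
  apply D.e.injective
  funext s
  rw [map_zero]
  by_contra hs
  have h1 := hx s hs
  have h2 := size_eq s
  have h3 := card_le s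
  omega

theorem iL_mem (d n : ℕ) (x : G) (hx : x ∈ D.J d n) : iL D x ∈ D.J (d + 2) (n + 1) := by
  intro s hs
  rw [e_iL] at hs
  by_cases h0 : 0 ∈ s
  · rw [if_pos h0] at hs
    have h1 := hx _ hs
    have h2 := N_cons 0 (s.erase 0)
    have h3 := size_cons 0 (s.erase 0)
    rw [Multiset.cons_erase h0] at h2 h3
    omega
  · rw [if_neg h0] at hs; exact absurd rfl hs

theorem dL_mem (d n : ℕ) (x : G) (hx : x ∈ D.J (d + 2) (n + 1)) : dL D x ∈ D.J d n := by
  intro s hs
  rw [e_dL] at hs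
  have h1 := hx _ hs
  rw [N_cons, size_cons] at h1
  omega

theorem J_succ (d n : ℕ) (h : 3 * n < 2 * d + 3) :
    D.J (d + 2) (n + 1) = (D.J d n).map (iL D) := by
  apply le_antisymm
  · intro x hx
    refine ⟨dL D x, dL_mem D d n x hx, ?_⟩
    apply iL_dL
    intro s hs
    by_contra h0
    have h1 := hx s hs
    have h2 := two_card_le s h0
    have h3 := size_eq s
    omega
  · rintro _ ⟨y, hy, rfl⟩
    exact iL_mem D d n y hy

theorem J_add (d n t : ℕ) (h : 3 * n < 2 * d + 3) :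
    D.J (d + 2 * t) (n + t) = (D.J d n).map (iL D ^ t : Module.End ℚ G) := by
  induction t with
  | zero =>
    rw [pow_zero]
    simp only [mul_zero, add_zero]
    exact (Submodule.map_id _).symm
  | succ t ih =>
    have h1 : d + 2 * (t + 1) = (d + 2 * t) + 2 := by ring
    have h2 : n + (t + 1) = (n + t) + 1 := by ring
    rw [h1, h2, J_succ D _ _ (by omega), ih, ← Submodule.map_comp, pow_succ']
    rfl

/-- Every element of positive degree is a combination of `c i * z`. -/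
theorem gp_pos (hG : S_GEN) (j : ℕ) (hj : 1 ≤ j) :
    D.gp j ≤ Submodule.span ℚ {x : G | ∃ i z, i < j ∧ z ∈ D.gp (j - 1 - i) ∧ x = D.c i * z} := by
  obtain ⟨_, h1⟩ := hG G D j
  rw [← h1]
  rintro _ ⟨p, hp, rfl⟩
  have hp' : p.IsWeightedHomogeneous wi j := hp
  rw [AlgHom.toLinearMap_apply, p.as_sum, map_sum]
  apply Submodule.sum_mem
  intro e he
  have hw : Finsupp.weight wi e = j := hp' (MvPolynomial.mem_support_iff.mp he)
  have hne : e ≠ 0 := by
    rintro rfl
    rw [map_zero] at hw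
    omega
  obtain ⟨i, hi⟩ : ∃ i, e i ≠ 0 := by
    by_contra hcon
    push Not at hcon
    exact hne (Finsupp.ext hcon)
  obtain ⟨e', he'⟩ : ∃ e' : ℕ →₀ ℕ, e = Finsupp.single i 1 + e' := by
    refine ⟨e - Finsupp.single i 1, ?_⟩
    rw [add_tsub_cancel_of_le]
    rw [Finsupp.single_le_iff]
    omega
  have hw2 : Finsupp.weight wi e = (i + 1) + Finsupp.weight wi e' := by
    rw [he', map_add, Finsupp.weight_single]
    simp [wi]
  have hmon : (monomial e (coeff e p) : MvPolynomial ℕ ℚ) = X i * monomial e' (coeff e p) := by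
    rw [he', X, monomial_mul, one_mul]
  rw [hmon, map_mul, aeval_X]
  apply Submodule.subset_span
  refine ⟨i, _, by omega, ?_, rfl⟩
  obtain ⟨_, h2⟩ := hG G D (j - 1 - i)
  rw [← h2]
  refine ⟨monomial e' (coeff e p), ?_, rfl⟩
  show (monomial e' (coeff e p)).IsWeightedHomogeneous wi (j - 1 - i)
  apply isWeightedHomogeneous_monomial
  omega

/-- The generators of `GJ`. -/
def gens (d n : ℕ) : Set G := {z | ∃ i y, i < n ∧ y ∈ D.J d (n - 1 - i) ∧ z = D.c i * y}

theorem GJ_eq (hG : S_GEN) (d n : ℕ) : D.GJ d n = Submodule.span ℚ (gens D d n) := by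
  apply le_antisymm
  · unfold FHD.GJ
    rw [Submodule.span_le]
    rintro _ ⟨j, x, y, hj1, hjn, hx, hy, rfl⟩
    have hx2 := gp_pos D hG j hj1 hx
    show x * y ∈ Submodule.span ℚ (gens D d n)
    refine Submodule.span_induction (p := fun x _ => x * y ∈ Submodule.span ℚ (gens D d n))
      ?_ ?_ ?_ ?_ hx2
    · rintro _ ⟨i, z, hi, hz, rfl⟩
      apply Submodule.subset_span
      refine ⟨i, z * y, by omega, ?_, by ring⟩
      have := gp_mul_J D (j - 1 - i) (n - j) d z y hz hy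
      have h2 : j - 1 - i + (n - j) = n - 1 - i := by omega
      rwa [h2] at this
    · rw [zero_mul]; exact Submodule.zero_mem _
    · intro a b _ _ ha hb
      rw [add_mul]; exact Submodule.add_mem _ ha hb
    · intro r a _ ha
      rw [smul_mul_assoc]; exact Submodule.smul_mem _ _ ha
  · rw [Submodule.span_le]
    rintro _ ⟨i, y, hi, hy, rfl⟩
    apply Submodule.subset_span
    refine ⟨i + 1, D.c i, y, by omega, by omega, c_mem D i, ?_, rfl⟩
    have h2 : n - (i + 1) = n - 1 - i := by omega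
    rwa [h2]

theorem GJ_le (d n : ℕ) : D.GJ d n ≤ D.J d n := by
  unfold FHD.GJ
  rw [Submodule.span_le]
  rintro _ ⟨j, x, y, hj1, hjn, hx, hy, rfl⟩
  have := gp_mul_J D j (n - j) d x y hx hy
  have h2 : j + (n - j) = n := by omega
  rwa [h2] at this

theorem finJ (hG : S_GEN) (d n : ℕ) : FiniteDimensional ℚ (D.J d n) := by
  obtain ⟨h1, _⟩ := hG G D n
  exact Submodule.finiteDimensional_of_le (J_le_gp D d n)

/-- The fixed part of `GJ`. -/
def gens1 (d n : ℕ) : Set G :=
  {z | ∃ i y, 1 ≤ i ∧ i < n ∧ y ∈ D.J d (n - 1 - i) ∧ z = D.c i * y}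

theorem core (hG : S_GEN) (hP : S_PEN) (d n : ℕ) (hn : 1 ≤ n) (h : 3 * n < 2 * d + 3) :
    ∃ c K : ℕ, ∀ t : ℕ, K ≤ t →
      Module.finrank ℚ ↥(D.GJ (d + 2 * t) (n + t)) = c := by
  have hU := finJ D hG d (n - 1)
  have hV := finJ D hG d n
  have hA : ∀ u ∈ D.J d (n - 1), LinearMap.mulLeft ℚ (D.c 0) u ∈ D.J d n := by
    intro u hu
    have := gp_mul_J D (0 + 1) (n - 1) d (D.c 0) u (c_mem D 0) hu
    have h2 : 0 + 1 + (n - 1) = n := by omega
    rwa [h2] at this
  have hB : ∀ u ∈ D.J d (n - 1), iL D u ∈ D.J d n := by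
    intro u hu
    have := iL_mem D d (n - 1) u hu
    have h2 : n - 1 + 1 = n := by omega
    rw [h2] at this
    exact J_mono D d (d + 2) n (by omega) this
  let A : ↥(D.J d (n - 1)) →ₗ[ℚ] ↥(D.J d n) := (LinearMap.mulLeft ℚ (D.c 0)).restrict hA
  let B : ↥(D.J d (n - 1)) →ₗ[ℚ] ↥(D.J d n) := (iL D).restrict hB
  let W' : Submodule ℚ G := Submodule.span ℚ (gens1 D d n)
  have hW' : W' ≤ D.J d n := by
    rw [Submodule.span_le]
    rintro _ ⟨i, y, hi1, hi, hy, rfl⟩
    have := gp_mul_J D (i + 1) (n - 1 - i) d (D.c i) y (c_mem D i) hy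
    have h2 : i + 1 + (n - 1 - i) = n := by omega
    rwa [h2] at this
  let W : Submodule ℚ ↥(D.J d n) := W'.comap (D.J d n).subtype
  obtain ⟨c, K, hc⟩ := hP ↥(D.J d (n - 1)) ↥(D.J d n) A B W
  refine ⟨c, K, fun t ht => ?_⟩
  rw [← hc t ht]
  -- the image
  have key : (D.GJ (d + 2 * t) (n + t)).map (dL D ^ t : Module.End ℚ G) =
      (LinearMap.range (A + (t : ℚ) • B) ⊔ W).map (D.J d n).subtype := by
    rw [GJ_eq D hG, Submodule.map_sup, Submodule.map_comap_subtype, inf_eq_right.mpr hW',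
      Submodule.map_span]
    apply le_antisymm
    · rw [Submodule.span_le]
      rintro _ ⟨_, ⟨i, y, hi, hy, rfl⟩, rfl⟩
      show (dL D ^ t) (D.c i * y) ∈ _
      by_cases hin : i < n
      · have h3 : n + t - 1 - i = (n - 1 - i) + t := by omega
        rw [h3, J_add D d (n - 1 - i) t (by omega)] at hy
        obtain ⟨y', hy', rfl⟩ := hy
        rcases Nat.eq_zero_or_pos i with hi0 | hi0
        · subst hi0
          rw [form0]
          apply Submodule.mem_sup_left
          refine ⟨(A + (t : ℚ) • B) ⟨y', hy'⟩, ⟨⟨y', hy'⟩, rfl⟩, ?_⟩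
          simp [A, B]
        · rw [formi D i hi0]
          apply Submodule.mem_sup_right
          exact Submodule.subset_span ⟨i, y', hi0, hin, hy', rfl⟩
      · have hy0 : y = 0 := J_zero_of D (d + 2 * t) (n + t - 1 - i) (by omega) y hy
        rw [hy0, mul_zero, map_zero]
        exact Submodule.zero_mem _
    · apply sup_le
      · rintro _ ⟨_, ⟨⟨u, hu⟩, rfl⟩, rfl⟩
        apply Submodule.subset_span
        refine ⟨D.c 0 * (iL D ^ t) u, ⟨0, (iL D ^ t) u, by omega, ?_, rfl⟩, ?_⟩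
        · have h3 : n + t - 1 - 0 = (n - 1) + t := by omega
          rw [h3, J_add D d (n - 1) t (by omega)]
          exact ⟨u, hu, rfl⟩
        · rw [form0]
          simp [A, B]
      · rw [Submodule.span_le]
        rintro _ ⟨i, y, hi1, hi, hy, rfl⟩
        apply Submodule.subset_span
        refine ⟨D.c i * (iL D ^ t) y, ⟨i, (iL D ^ t) y, by omega, ?_, rfl⟩, formi D i hi1 t y⟩
        have h3 : n + t - 1 - i = (n - 1 - i) + t := by omega
        rw [h3, J_add D d (n - 1 - i) t (by omega)]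
        exact ⟨y, hy, rfl⟩
  -- back
  have back : D.GJ (d + 2 * t) (n + t) =
      ((D.GJ (d + 2 * t) (n + t)).map (dL D ^ t : Module.End ℚ G)).map
        (iL D ^ t : Module.End ℚ G) := by
    have hid : ∀ z ∈ D.GJ (d + 2 * t) (n + t), (iL D ^ t) ((dL D ^ t) z) = z := by
      intro z hz
      have hz2 := GJ_le D _ _ hz
      rw [J_add D d n t h] at hz2
      obtain ⟨y, _, rfl⟩ := hz2
      rw [dLp_iLp]
    apply le_antisymm
    · intro z hz
      exact ⟨(dL D ^ t) z, ⟨z, hz, rfl⟩, hid z hz⟩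
    · rintro _ ⟨_, ⟨z, hz, rfl⟩, rfl⟩
      rw [hid z hz]; exact hz
  rw [back, ← (Submodule.equivMapOfInjective _ (iLp_inj D t) _).finrank_eq, key,
    ← (Submodule.equivMapOfInjective _ (Submodule.injective_subtype _) _).finrank_eq]

end

/-- FH-STAB. -/
theorem main : S_GEN → S_PEN → S_STAB := by
  intro hG hP G _ _ D d₀ n₀
  obtain ⟨c, K, hc⟩ := core D hG hP (d₀ + 2 * (3 * n₀ + 1)) (n₀ + (3 * n₀ + 1)) (by omega)
    (by omega)
  refine ⟨Module.finrank ℚ ↥(D.J (d₀ + 2 * (3 * n₀ + 1)) (n₀ + (3 * n₀ + 1))) - c,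
    3 * n₀ + 1 + K, fun k hk => ?_⟩
  obtain ⟨t, rfl⟩ : ∃ t, k = 3 * n₀ + 1 + t := ⟨k - (3 * n₀ + 1), by omega⟩
  have h1 : d₀ + 2 * (3 * n₀ + 1 + t) = d₀ + 2 * (3 * n₀ + 1) + 2 * t := by ring
  have h2 : n₀ + (3 * n₀ + 1 + t) = n₀ + (3 * n₀ + 1) + t := by ring
  rw [h1, h2, hc t (by omega)]
  have h3 : Module.finrank ℚ ↥(D.J (d₀ + 2 * (3 * n₀ + 1) + 2 * t) (n₀ + (3 * n₀ + 1) + t)) =
      Module.finrank ℚ ↥(D.J (d₀ + 2 * (3 * n₀ + 1)) (n₀ + (3 * n₀ + 1))) := by
    rw [J_add D (d₀ + 2 * (3 * n₀ + 1)) (n₀ + (3 * n₀ + 1)) t (by omega)]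
    exact (Submodule.equivMapOfInjective _ (iLp_inj D t) _).finrank_eq.symm
  rw [h3]
  have h4 : c ≤ Module.finrank ℚ ↥(D.J (d₀ + 2 * (3 * n₀ + 1)) (n₀ + (3 * n₀ + 1))) := by
    rw [← hc t (by omega), ← h3]
    have := finJ D hG (d₀ + 2 * (3 * n₀ + 1) + 2 * t) (n₀ + (3 * n₀ + 1) + t)
    exact Submodule.finrank_mono (GJ_le D _ _)
  omega

end Pool.Agent.R951.FH.Stab
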