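import Pool.Agent.R951.FH.Stm

/-! FH-TRI (helper865): triangularity of the multiplication by a one-cycle class. -/

set_option autoImplicit false

namespace Pool.Agent.R951.FH

open Equiv Finset

namespace Tri

variable {α : Type} [Fintype α] [DecidableEq α]

lemma tp_mul {σ τ : Perm α} (h : σ.Disjoint τ) : tp (σ * τ) = tp σ + tp τ := by
  unfold tp
  rw [h.cycleType_mul, Multiset.map_add]

lemma tp_cycle {σ : Perm α} (h : σ.IsCycle) : tp σ = {σ.support.card - 2} := by
  unfold tp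
  rw [h.cycleType, Multiset.map_singleton]

lemma cycle_of_tp {σ : Perm α} {k : ℕ} (h : tp σ = {k}) :
    σ.IsCycle ∧ σ.support.card = k + 2 := by
  have h1 : Multiset.card σ.cycleType = 1 := by
    have := congrArg Multiset.card h
    unfold tp at this
    rwa [Multiset.card_map, Multiset.card_singleton] at this
  have h2 := Perm.card_cycleType_eq_one.mp h1
  refine ⟨h2, ?_⟩
  rw [tp_cycle h2] at h
  have h3 := Multiset.singleton_inj.mp h
  have h4 := h2.two_le_card_support
  omega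

lemma tp_card_zero {σ : Perm α} (h : Multiset.card (tp σ) = 0) : σ = 1 := by
  unfold tp at h
  rw [Multiset.card_map] at h
  exact Perm.card_cycleType_eq_zero.mp h

lemma tp_one : tp (1 : Perm α) = 0 := by
  unfold tp
  rw [Perm.cycleType_one, Multiset.map_zero]

/-- a factor of a minimal product which is a cycle lies in one cycle of the product -/
lemma key (hN : S_NORM) {π σ : Perm α} {k : ℕ} {l : T} (h1 : nm σ + nm (σ⁻¹ * π) = nm π)
    (h2 : tp σ = {k}) (h3 : tp (σ⁻¹ * π) = l)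
    (hc : Multiset.card l + 1 ≤ Multiset.card (tp π)) :
    σ ∈ π.cycleFactorsFinset ∧ σ.support.card = k + 2 ∧ tp π = k ::ₘ l := by
  obtain ⟨hcyc, hcard⟩ := cycle_of_tp h2
  have hsame : ∀ x, π.SameCycle x (σ x) := by
    have h := (hN α σ (σ⁻¹ * π)).2.2.2
    rw [mul_inv_cancel_left] at h
    exact h h1.symm
  obtain ⟨x0, hx0, hx0'⟩ := id hcyc
  have hpow : ∀ n : ℕ, π.SameCycle x0 ((σ ^ n) x0) := by
    intro n
    induction n with
    | zero => exact Perm.SameCycle.refl _ _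
    | succ n ih =>
      rw [pow_succ', Perm.mul_apply]
      exact ih.trans (hsame _)
  have hπ0 : π x0 ≠ x0 := by
    intro h
    exact hx0 ((hsame x0).eq_of_left h).symm
  set κ := π.cycleOf x0 with hκ
  have hκmem : κ ∈ π.cycleFactorsFinset :=
    Perm.cycleOf_mem_cycleFactorsFinset_iff.mpr (Perm.mem_support.mpr hπ0)
  have hκcyc : κ.IsCycle := Perm.isCycle_cycleOf π hπ0
  have hsupp : ∀ y, σ y ≠ y → κ y ≠ y := by
    intro y hy
    obtain ⟨n, hn⟩ := (hx0' hy).exists_nat_pow_eq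
    have h4 : π.SameCycle x0 y := by
      rw [← hn]
      exact hpow n
    rw [hκ, h4.cycleOf_apply]
    intro h5
    exact hπ0 (h4.apply_eq_self_iff.mpr h5)
  have hdis : (π * κ⁻¹).Disjoint κ := Perm.disjoint_mul_inv_of_mem_cycleFactorsFinset hκmem
  have hcomm := hdis.commute
  have e1 : π = (π * κ⁻¹) * κ := by group
  have e2 : σ⁻¹ * π = (σ⁻¹ * κ) * (π * κ⁻¹) := by
    calc σ⁻¹ * π = σ⁻¹ * ((π * κ⁻¹) * κ) := by rw [← e1]
      _ = σ⁻¹ * (κ * (π * κ⁻¹)) := by rw [hcomm.eq]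
      _ = (σ⁻¹ * κ) * (π * κ⁻¹) := by rw [mul_assoc]
  have hdis2 : (σ⁻¹ * κ).Disjoint (π * κ⁻¹) := by
    intro x
    rcases hdis x with h | h
    · right; exact h
    · left
      rw [Perm.mul_apply, h]
      have hσ : σ x = x := by
        by_contra hne
        exact hsupp x hne h
      rw [Perm.inv_eq_iff_eq]
      exact hσ.symm
  have t1 : tp π = tp (π * κ⁻¹) + tp κ := by
    conv_lhs => rw [e1]
    exact tp_mul hdis
  have t2 : l = tp (σ⁻¹ * κ) + tp (π * κ⁻¹) := by
    rw [← h3, e2]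
    exact tp_mul hdis2
  have t3 : Multiset.card (tp κ) = 1 := by rw [tp_cycle hκcyc, Multiset.card_singleton]
  have t4 : Multiset.card (tp (σ⁻¹ * κ)) = 0 := by
    rw [t1, t2, Multiset.card_add, Multiset.card_add, t3] at hc
    omega
  have t5 : σ = κ := by
    have := tp_card_zero t4
    rw [inv_mul_eq_one] at this
    exact this
  refine ⟨t5 ▸ hκmem, hcard, ?_⟩
  rw [t1, ← t5, h2]
  rw [← t5, inv_mul_cancel, tp_one, zero_add] at t2
  rw [t2, add_comm]
  rfl

lemma key2 (hN : S_NORM) {π σ : Perm α} {k : ℕ} {l : T} (h1 : σ ∈ π.cycleFactorsFinset)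
    (h2 : σ.support.card = k + 2) (h3 : tp π = k ::ₘ l) :
    nm σ + nm (σ⁻¹ * π) = nm π ∧ tp σ = {k} ∧ tp (σ⁻¹ * π) = l := by
  have hcyc : σ.IsCycle := (Perm.mem_cycleFactorsFinset_iff.mp h1).1
  have hdis : (π * σ⁻¹).Disjoint σ := Perm.disjoint_mul_inv_of_mem_cycleFactorsFinset h1
  have hcomm := hdis.commute
  have e1 : π = (π * σ⁻¹) * σ := by group
  have e2 : σ⁻¹ * π = π * σ⁻¹ := by
    calc σ⁻¹ * π = σ⁻¹ * ((π * σ⁻¹) * σ) := by rw [← e1]
      _ = σ⁻¹ * (σ * (π * σ⁻¹)) := by rw [hcomm.eq]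
      _ = π * σ⁻¹ := by rw [inv_mul_cancel_left]
  have t0 : tp σ = {k} := by
    rw [tp_cycle hcyc, h2]
    rfl
  have t1 : tp π = tp (π * σ⁻¹) + tp σ := by
    conv_lhs => rw [e1]
    exact tp_mul hdis
  have t2 : tp (σ⁻¹ * π) = l := by
    rw [e2]
    rw [t0, h3, ← Multiset.singleton_add, add_comm] at t1
    exact (add_right_cancel t1).symm
  refine ⟨?_, t0, t2⟩
  rw [(hN α σ 1).1, (hN α (σ⁻¹ * π) 1).1, (hN α π 1).1, t0, t2, h3]
  simp [N]

lemma cnt (π : Perm α) (k : ℕ) : (π.cycleFactorsFinset.filter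
    (fun σ => σ.support.card = k + 2)).card = (tp π).count k := by
  unfold tp
  rw [Perm.cycleType_def, Multiset.map_map, Multiset.count_map, Finset.card_def, Finset.filter_val]
  congr 1
  refine Multiset.filter_congr fun σ hσ => ?_
  have hcyc : σ.IsCycle := (Perm.mem_cycleFactorsFinset_iff.mp (Finset.mem_val.mp hσ)).1
  have h4 := hcyc.two_le_card_support
  simp only [Function.comp_apply]
  omega

theorem main (hN : S_NORM) (hK : S_KL) : S_TRI := by
  intro k l s hc
  have hπ : tp (rep s) = s := hK.1 s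
  unfold star cv ev ind
  have hterm : ∀ σ : Perm (Fin (size s)), (if nm σ + nm (σ⁻¹ * rep s) = nm (rep s) then
      (if tp σ = {k} then (1 : ℚ) else 0) * (if tp (σ⁻¹ * rep s) = l then 1 else 0) else 0) =
      if (nm σ + nm (σ⁻¹ * rep s) = nm (rep s) ∧ tp σ = {k} ∧ tp (σ⁻¹ * rep s) = l) then 1
        else 0 := by
    intro σ
    split_ifs <;> simp_all
  rw [Finset.sum_congr rfl fun σ _ => hterm σ]
  by_cases hs : s = k ::ₘ l
  · rw [if_pos hs]
    have h2 : ∀ σ : Perm (Fin (size s)),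
        (nm σ + nm (σ⁻¹ * rep s) = nm (rep s) ∧ tp σ = {k} ∧ tp (σ⁻¹ * rep s) = l) ↔
        σ ∈ (rep s).cycleFactorsFinset.filter (fun σ => σ.support.card = k + 2) := by
      intro σ
      rw [Finset.mem_filter]
      constructor
      · rintro ⟨h3, h4, h5⟩
        have := key hN h3 h4 h5 (by rw [hπ]; exact hc)
        exact ⟨this.1, this.2.1⟩
      · rintro ⟨h3, h4⟩
        exact key2 hN h3 h4 (by rw [hπ]; exact hs)
    simp_rw [h2]
    rw [Finset.sum_ite_mem, Finset.univ_inter, Finset.sum_const, nsmul_eq_mul, mul_one, cnt, hπ]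
  · rw [if_neg hs]
    refine Finset.sum_eq_zero fun σ _ => ?_
    rw [if_neg]
    rintro ⟨h3, h4, h5⟩
    have := key hN h3 h4 h5 (by rw [hπ]; exact hc)
    rw [hπ] at this
    exact hs this.2.2

end Tri

end Pool.Agent.R951.FH
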