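import Pool.Agent.R951.FH.Stm
import Pool.Agent.R730.FH.Norm
import Pool.Agent.R730.FH.Split
import Pool.Agent.R951.FH.Kl
import Pool.Agent.R951.FH.Der
import Pool.Agent.R951.FH.Tri
import Pool.Agent.R951.FH.RingP
import Pool.Agent.R951.FH.Match
import Pool.Agent.R951.FH.Cnt
import Pool.Agent.R951.FH.Id
import Pool.Agent.R951.FH.Newt
import Pool.Agent.R951.FH.Pen
import Pool.Agent.R951.FH.Gen
import Pool.Agent.R951.FH.Bij
import Pool.Agent.R951.FH.Stab
import Pool.Agent.R951.FH.Pres1
import Pool.Agent.R951.FH.Pres2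
import Pool.Agent.R392.FH.Rc

/-!
# MP_15ac55_ag: the pieces put together

NORM, SPLIT: helper730; KL, DER: helper123; TRI: helper865; RING: helper951; MATCH: helper146;
CNT: helper371; ID: helper46; NEWT: helper322; PEN: helper472; GEN, BIJ: helper179;
STAB: helper626; PRES1: helper396; PRES2: helper281; RC: helper392.
-/

set_option autoImplicit false

namespace Pool.Agent.R951.FH

theorem pNORM : S_NORM := Pool.Agent.R730.FHNorm.main
theorem pSPLIT : S_SPLIT := Pool.Agent.R730.FHSplit.main pNORM
theorem pKL : S_KL := Kl.main pNORM pSPLIT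
theorem pDER : S_DER := Der.main pNORM pSPLIT pKL
theorem pTRI : S_TRI := Tri.main pNORM pKL
theorem pRING : S_RING := RingP.main pNORM pKL
theorem pCNT : S_CNT := CNT.main pNORM pKL Match.main
theorem pNEWT : S_NEWT := Newt.main Id.main
theorem pGEN : S_GEN := Gen.main
theorem pSTAB : S_STAB := Stab.main pGEN Pen.main
theorem pRC : S_RC := Pool.Agent.R392.FH.rc Bij.main (Pres2.main PRES1.main)

end Pool.Agent.R951.FH
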