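import Pool.Agent.R951.FH.Alg
import Pool.Agent.R951.FH.Pcs

/-!
# MP_15ac55_ag: the graded group algebra, the class functions, and the Farahat-Higman model
-/

set_option autoImplicit false

namespace Pool.Agent.R951.FH

open Equiv Finset MvPolynomial

/-- The graded group algebra `gr ℚ[S_d]`: the element `∑ f(σ)[σ]` is the function `f`. -/
def Gr (d : ℕ) : Type := Perm (Fin d) → ℚ

instance (d : ℕ) : AddCommGroup (Gr d) := inferInstanceAs (AddCommGroup (Perm (Fin d) → ℚ))

instance (d : ℕ) : Module ℚ (Gr d) := inferInstanceAs (Module ℚ (Perm (Fin d) → ℚ))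

instance (d : ℕ) : Ring (Gr d) :=
  { (inferInstance : AddCommGroup (Gr d)) with
    mul := fun f g => (cv f g : Perm (Fin d) → ℚ)
    one := fun σ => if σ = 1 then 1 else 0
    left_distrib := fun f g h => cv_add_right f g h
    right_distrib := fun f g h => cv_add_left f g h
    zero_mul := fun f => cv_zero_left f
    mul_zero := fun f => cv_zero_right f
    mul_assoc := fun f g h => pRING.1 (Fin d) f g h
    one_mul := fun f => cv_one_left f
    mul_one := fun f => cv_one_right f }

instance (d : ℕ) : Algebra ℚ (Gr d) :=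
  Algebra.ofModule (fun c f g => cv_smul_left c f g) (fun c f g => cv_smul_right c f g)

/-- The basis element `[σ]`. -/
def sg {d : ℕ} (σ : Perm (Fin d)) : Gr d := fun τ => if τ = σ then 1 else 0

theorem sg_mul {d : ℕ} (σ τ : Perm (Fin d)) :
    sg σ * sg τ = if nm σ + nm τ = nm (σ * τ) then sg (σ * τ) else 0 := by
  show cv (sg σ) (sg τ) = _
  funext π
  unfold cv
  rw [Finset.sum_eq_single σ]
  · by_cases h : π = σ * τ
    · subst h
      by_cases h2 : nm σ + nm τ = nm (σ * τ)
      · simp [sg, h2]
      · simp only [inv_mul_cancel_left, h2, if_false]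
        rfl
    · have h3 : σ⁻¹ * π ≠ τ := by
        rintro rfl
        exact h (by simp)
      by_cases h2 : nm σ + nm τ = nm (σ * τ)
      · simp [sg, h2, h3, h]
      · rw [if_neg h2]
        simp [sg, h3]
        rfl
  · intro b _ hb
    simp [sg, hb]
  · intro h
    exact absurd (Finset.mem_univ _) h

theorem nm_conj {d : ℕ} (τ σ : Perm (Fin d)) : nm (τ * σ * τ⁻¹) = nm σ := by
  rw [(pNORM _ (τ * σ * τ⁻¹) 1).1, (pNORM _ σ 1).1]
  unfold tp
  rw [Perm.cycleType_conj]

/-- The class functions: the span of the class sums. -/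
def A (d : ℕ) : Subalgebra ℚ (Gr d) where
  carrier := {f | ∀ σ τ : Perm (Fin d), f (τ * σ * τ⁻¹) = f σ}
  mul_mem' := by
    intro f g hf hg σ τ
    show cv f g (τ * σ * τ⁻¹) = cv f g σ
    unfold cv
    rw [← Equiv.sum_comp (MulAut.conj τ).toEquiv]
    refine Finset.sum_congr rfl fun κ _ => ?_
    have h1 : (MulAut.conj τ).toEquiv κ = τ * κ * τ⁻¹ := rfl
    have h2 : (τ * κ * τ⁻¹)⁻¹ * (τ * σ * τ⁻¹) = τ * (κ⁻¹ * σ) * τ⁻¹ := by group
    rw [h1, h2, nm_conj, nm_conj, nm_conj, hf, hg]
  add_mem' := by
    intro f g hf hg σ τ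
    show f _ + g _ = f _ + g _
    rw [hf, hg]
  algebraMap_mem' := by
    intro r σ τ
    rw [Algebra.algebraMap_eq_smul_one]
    show r • (if τ * σ * τ⁻¹ = 1 then (1 : ℚ) else 0) = r • (if σ = 1 then (1 : ℚ) else 0)
    have : τ * σ * τ⁻¹ = 1 ↔ σ = 1 := by
      rw [mul_inv_eq_one, mul_eq_left]
    simp only [this]

theorem ev_mem {d : ℕ} (F : T → ℚ) : (ev (Fin d) F : Gr d) ∈ A d := by
  intro σ τ
  show F (tp _) = F (tp _)
  unfold tp
  rw [Perm.cycleType_conj]

theorem tp_eq_iff {d : ℕ} (σ τ : Perm (Fin d)) : tp σ = tp τ ↔ σ.cycleType = τ.cycleType := by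
  constructor
  · intro h
    have key : ∀ κ : Perm (Fin d), (tp κ).map (fun l => l + 2) = κ.cycleType := by
      intro κ
      unfold tp
      rw [Multiset.map_map]
      conv_rhs => rw [← Multiset.map_id κ.cycleType]
      refine Multiset.map_congr rfl fun l hl => ?_
      have := Perm.two_le_of_mem_cycleType hl
      simp only [Function.comp, id]
      omega
    rw [← key σ, ← key τ, h]
  · intro h
    unfold tp
    rw [h]

theorem exists_tp {d : ℕ} (s : T) (hs : size s ≤ d) : ∃ σ : Perm (Fin d), tp σ = s := by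
  have h : ∃ σ : Perm (Fin d), σ.cycleType = s.map (fun k => k + 2) := by
    rw [Perm.exists_with_cycleType_iff]
    refine ⟨by simpa [size] using hs, ?_⟩
    intro a ha
    rw [Multiset.mem_map] at ha
    obtain ⟨k, -, rfl⟩ := ha
    omega
  obtain ⟨σ, hσ⟩ := h
  refine ⟨σ, ?_⟩
  unfold tp
  rw [hσ, Multiset.map_map]
  simp

theorem tp_size {d : ℕ} (σ : Perm (Fin d)) : size (tp σ) ≤ d := by
  rw [← (pNORM _ σ 1).2.1]
  simpa using Finset.card_le_univ σ.support

open Classical in
/-- The function on types of a class function. -/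
noncomputable def fn {d : ℕ} (f : Gr d) : T → ℚ := fun s =>
  if h : ∃ σ : Perm (Fin d), tp σ = s then f h.choose else 0

theorem ev_fn {d : ℕ} (f : Gr d) (hf : f ∈ A d) : (ev (Fin d) (fn f) : Gr d) = f := by
  funext σ
  show fn f (tp σ) = f σ
  unfold fn
  have h : ∃ τ : Perm (Fin d), tp τ = tp σ := ⟨σ, rfl⟩
  rw [dif_pos h]
  have h2 := (tp_eq_iff _ _).mp h.choose_spec
  have h3 := Perm.isConj_iff_cycleType_eq.mpr h2.symm
  rw [isConj_iff] at h3
  obtain ⟨c, hc⟩ := h3
  rw [← hc]
  exact hf σ c

instance (d : ℕ) : CommRing (A d) :=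
  { (inferInstance : Ring (A d)) with
    mul_comm := by
      rintro ⟨f, hf⟩ ⟨g, hg⟩
      apply Subtype.ext
      show f * g = g * f
      rw [← ev_fn f hf, ← ev_fn g hg]
      funext π
      show cv (ev (Fin d) (fn f)) (ev (Fin d) (fn g)) π = cv (ev (Fin d) (fn g)) (ev (Fin d) (fn f)) π
      rw [pKL.2, pKL.2, pRING.2.1] }

/-- The ring of functions on types. -/
def Gs : Type := T → ℚ

instance : AddCommGroup Gs := inferInstanceAs (AddCommGroup (T → ℚ))

instance : Module ℚ Gs := inferInstanceAs (Module ℚ (T → ℚ))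

theorem ev_add (α : Type) [Fintype α] [DecidableEq α] (F H : T → ℚ) :
    ev α (F + H) = ev α F + ev α H := rfl

theorem ev_smul (α : Type) [Fintype α] [DecidableEq α] (c : ℚ) (F : T → ℚ) :
    ev α (c • F) = c • ev α F := rfl

theorem star_add_left (F F' H : T → ℚ) : star (F + F') H = star F H + star F' H := by
  funext s
  unfold star
  rw [ev_add, cv_add_left]
  rfl

theorem star_smul_left (c : ℚ) (F H : T → ℚ) : star (c • F) H = c • star F H := by
  funext s
  unfold star
  rw [ev_smul, cv_smul_left]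
  rfl

theorem star_add_right (F H H' : T → ℚ) : star F (H + H') = star F H + star F H' := by
  rw [pRING.2.1, star_add_left, pRING.2.1, pRING.2.1 H' F]

theorem star_zero_left (H : T → ℚ) : star 0 H = 0 := by
  have := star_smul_left 0 0 H
  simpa using this

theorem star_smul_right (c : ℚ) (F H : T → ℚ) : star F (c • H) = c • star F H := by
  rw [pRING.2.1, star_smul_left, pRING.2.1]

noncomputable instance : CommRing Gs :=
  { (inferInstance : AddCommGroup Gs) with
    mul := fun F H => (star F H : T → ℚ)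
    one := (ind 0 : T → ℚ)
    left_distrib := fun f g h => star_add_right f g h
    right_distrib := fun f g h => star_add_left f g h
    zero_mul := fun f => star_zero_left f
    mul_zero := fun f => (pRING.2.1 _ _).trans (star_zero_left f)
    mul_assoc := fun f g h => pRING.2.2.2.1 f g h
    one_mul := fun f => pRING.2.2.1 f
    mul_one := fun f => (pRING.2.1 _ _).trans (pRING.2.2.1 f)
    mul_comm := fun f g => pRING.2.1 f g }

noncomputable instance : Algebra ℚ Gs :=
  Algebra.ofModule (fun c f g => star_smul_left c f g) (fun c f g => star_smul_right c f g)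

/-- The Farahat-Higman data. -/
noncomputable def DD : FHD Gs where
  e := LinearEquiv.refl ℚ (T → ℚ)
  one := rfl
  supp := fun x y s h => pRING.2.2.2.2 x y s h
  der := fun x y s => pDER x y s
  tri := fun k l s h => pTRI k l s h

/-- The restriction to `S_d`. -/
noncomputable def rho (d : ℕ) : Gs →ₐ[ℚ] A d :=
  AlgHom.ofLinearMap
    { toFun := fun F => ⟨(ev (Fin d) F : Gr d), ev_mem F⟩
      map_add' := fun _ _ => rfl
      map_smul' := fun _ _ => rfl }
    (by
      apply Subtype.ext
      funext σ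
      show ind 0 (tp σ) = (if σ = 1 then (1 : ℚ) else 0)
      unfold ind
      have : tp σ = 0 ↔ σ = 1 := by
        unfold tp
        rw [Multiset.map_eq_zero, Perm.cycleType_eq_zero]
      simp only [this])
    (by
      intro F H
      apply Subtype.ext
      funext π
      exact (pKL.2 (Fin d) F H π).symm)

theorem rho_apply (d : ℕ) (F : Gs) (σ : Perm (Fin d)) : (rho d F).1 σ = F (tp σ) := rfl

theorem rho_eq_zero (d : ℕ) (F : Gs) : rho d F = 0 ↔ ∀ s, size s ≤ d → DD.e F s = 0 := by
  constructor
  · intro h s hs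
    obtain ⟨σ, rfl⟩ := exists_tp s hs
    have := congrArg (fun x : A d => x.1 σ) h
    exact this
  · intro h
    apply Subtype.ext
    funext σ
    exact h (tp σ) (tp_size σ)

theorem rho_surj (d : ℕ) : Function.Surjective (rho d) := by
  rintro ⟨f, hf⟩
  refine ⟨fn f, ?_⟩
  apply Subtype.ext
  exact ev_fn f hf

end Pool.Agent.R951.FH
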