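import Pool.Agent.R951.FH.Stm

/-!
# FH-PRES2: two presentations, the dimension formula
-/

set_option autoImplicit false

namespace Pool.Agent.R951.FH.Pres2

open Finset MvPolynomial Pool.Agent.R951.FH

lemma rn {V W : Type} [AddCommGroup V] [Module ℚ V] [AddCommGroup W] [Module ℚ W] (f : V →ₗ[ℚ] W)
    (S : Submodule ℚ V) [FiniteDimensional ℚ ↥S] :
    Module.finrank ℚ ↥(S.map f) + Module.finrank ℚ ↥(S ⊓ LinearMap.ker f) =
      Module.finrank ℚ ↥S := by
  have h := LinearMap.finrank_range_add_finrank_ker (f.domRestrict S)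
  rw [LinearMap.range_domRestrict, LinearMap.ker_domRestrict] at h
  rw [← Submodule.map_comap_subtype, Submodule.finrank_map_subtype_eq]
  exact h

lemma wmap {m : ℕ} (d : Fin m →₀ ℕ) :
    Finsupp.weight wi (d.mapDomain Fin.val) = Finsupp.weight wt d := by
  unfold Finsupp.weight
  change Finsupp.linearCombination ℕ wi (d.mapDomain Fin.val) = Finsupp.linearCombination ℕ wt d
  rw [Finsupp.linearCombination_mapDomain]
  rfl

lemma fin_set (n : ℕ) : {d : ℕ →₀ ℕ | Finsupp.weight wi d = n}.Finite := by
  apply Set.Finite.subset (Finset.finite_toSet ((range n).finsupp (fun _ => range (n + 1))))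
  intro d hd
  change Finsupp.weight wi d = n at hd
  rw [Finset.mem_coe, Finset.mem_finsupp_iff]
  constructor
  · intro i hi
    rw [Finsupp.mem_support_iff] at hi
    have h := Finsupp.le_weight_of_ne_zero' wi hi
    rw [hd] at h
    rw [mem_range]
    unfold wi at h
    omega
  · intro i _
    have h := Finsupp.le_weight wi (s := i) (by unfold wi; omega) d
    rw [mem_range]
    omega

lemma fd (n : ℕ) : FiniteDimensional ℚ ↥(weightedHomogeneousSubmodule ℚ wi n) := by
  rw [weightedHomogeneousSubmodule_eq_finsupp_supported]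
  have := (fin_set n).to_subtype
  exact Module.Finite.of_basis (basisRestrictSupport ℚ {d | Finsupp.weight wi d = n})

/-- the retraction -/
noncomputable def th (m : ℕ) : MvPolynomial ℕ ℚ →ₐ[ℚ] MvPolynomial (Fin m) ℚ :=
  killCompl (Fin.val_injective (n := m))

lemma th_X_lt {m : ℕ} (i : Fin m) : th m (X (i : ℕ)) = X i := by
  have h := killCompl_rename_app (R := ℚ) (Fin.val_injective (n := m)) (X i)
  rwa [rename_X] at h

lemma th_X_ge {m : ℕ} (i : ℕ) (hi : m ≤ i) : th m (X i) = 0 := by
  unfold th killCompl
  rw [aeval_X, dif_neg]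
  rintro ⟨j, hj⟩
  have := j.2
  omega

lemma th_hom {m j : ℕ} {q : MvPolynomial ℕ ℚ} (hq : q ∈ weightedHomogeneousSubmodule ℚ wi j) :
    th m q ∈ weightedHomogeneousSubmodule ℚ wt j := by
  rw [mem_weightedHomogeneousSubmodule] at hq ⊢
  intro d hd
  rw [th, coeff_killCompl] at hd
  rw [← wmap]
  exact hq hd

lemma th_comp {m j : ℕ} (q : MvPolynomial ℕ ℚ) :
    th m (weightedHomogeneousComponent wi j q) = weightedHomogeneousComponent wt j (th m q) := by
  classical
  ext d
  rw [coeff_weightedHomogeneousComponent, th, coeff_killCompl, coeff_killCompl,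
    coeff_weightedHomogeneousComponent, wmap]

lemma io_hom {m j : ℕ} {p : MvPolynomial (Fin m) ℚ} (hp : p ∈ weightedHomogeneousSubmodule ℚ wt j) :
    rename Fin.val p ∈ weightedHomogeneousSubmodule ℚ wi j := by
  classical
  rw [mem_weightedHomogeneousSubmodule] at hp ⊢
  intro d hd
  rw [← mem_support_iff, support_rename_of_injective Fin.val_injective, mem_image] at hd
  obtain ⟨d', hd', rfl⟩ := hd
  rw [wmap]
  exact hp (mem_support_iff.1 hd')

lemma th_io {m : ℕ} (p : MvPolynomial (Fin m) ℚ) : th m (rename Fin.val p) = p :=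
  killCompl_rename_app _ p

lemma X_hom (i : ℕ) : (X i : MvPolynomial ℕ ℚ) ∈ weightedHomogeneousSubmodule ℚ wi (i + 1) :=
  isWeightedHomogeneous_X ℚ wi i

lemma mul_hom {a b n : ℕ} {x y : MvPolynomial ℕ ℚ} (hx : x ∈ weightedHomogeneousSubmodule ℚ wi a)
    (hy : y ∈ weightedHomogeneousSubmodule ℚ wi b) (h : a + b = n) :
    x * y ∈ weightedHomogeneousSubmodule ℚ wi n := by
  rw [← h]
  exact IsWeightedHomogeneous.mul hx hy

theorem main (h1 : S_PRES1) : S_PRES2 := by
  classical
  intro A _ _ m n hmn Θ φ hΘ1 hΘ2 hΘ3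
  have hfd := fd n
  have hle : KK Θ n ≤ weightedHomogeneousSubmodule ℚ wi n := inf_le_right
  have hfK : FiniteDimensional ℚ ↥(KK Θ n) := Submodule.finiteDimensional_of_le hle
  refine ⟨hfK, ?_⟩
  -- the two factorisations
  have hφθ : ∀ q, φ (th m q) = Θ q := by
    have : φ.comp (th m) = Θ := by
      apply MvPolynomial.algHom_ext
      intro i
      rw [AlgHom.comp_apply]
      by_cases hi : i < m
      · have e1 := th_X_lt (⟨i, hi⟩ : Fin m)
        have e2 := hΘ1 ⟨i, hi⟩
        simp only at e1 e2
        rw [e1, e2]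
      · rw [th_X_ge i (by omega), map_zero, hΘ2 i (by omega)]
    intro q
    rw [← this, AlgHom.comp_apply]
  have hΘι : ∀ p, Θ (rename Fin.val p) = φ p := by
    intro p
    rw [← hφθ, th_io]
  -- the ideal is homogeneous
  have hI : ∀ p ∈ RingHom.ker φ, ∀ j, weightedHomogeneousComponent wt j p ∈ RingHom.ker φ := by
    intro p hp j
    rw [RingHom.mem_ker] at hp ⊢
    have e1 : Θ (rename Fin.val p) = 0 := by rw [hΘι, hp]
    have e2 := (hΘ3 _ e1).2 j
    rw [← hφθ, th_comp, th_io] at e2
    exact e2
  have hPI := h1 m n (RingHom.ker φ) hI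
  -- elements of KK
  have hKKmem : ∀ (j : ℕ) (q : MvPolynomial ℕ ℚ), q ∈ KK Θ j ↔
      Θ q = 0 ∧ q ∈ weightedHomogeneousSubmodule ℚ wi j := by
    intro j q
    unfold KK
    rw [Submodule.mem_inf, LinearMap.mem_ker]
    rfl
  have hdgmem : ∀ (j : ℕ) (p : MvPolynomial (Fin m) ℚ), p ∈ dg (RingHom.ker φ) j ↔
      φ p = 0 ∧ p ∈ weightedHomogeneousSubmodule ℚ wt j := by
    intro j p
    unfold dg
    rw [Submodule.mem_inf, Submodule.restrictScalars_mem, RingHom.mem_ker]
  have hθK : ∀ (j : ℕ) (q : MvPolynomial ℕ ℚ), q ∈ KK Θ j → th m q ∈ dg (RingHom.ker φ) j := by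
    intro j q hq
    rw [hKKmem] at hq
    rw [hdgmem]
    exact ⟨by rw [hφθ, hq.1], th_hom hq.2⟩
  have hιK : ∀ (j : ℕ) (p : MvPolynomial (Fin m) ℚ), p ∈ dg (RingHom.ker φ) j →
      rename Fin.val p ∈ KK Θ j := by
    intro j p hp
    rw [hdgmem] at hp
    rw [hKKmem]
    exact ⟨by rw [hΘι, hp.1], io_hom hp.2⟩
  have hQK : QK Θ n ≤ KK Θ n := by
    unfold QK
    rw [Submodule.span_le]
    rintro z ⟨i, y, hi, hy, rfl⟩
    rw [hKKmem] at hy
    rw [SetLike.mem_coe, hKKmem]
    exact ⟨by rw [map_mul, hy.1, mul_zero], mul_hom (X_hom i) hy.2 (by omega)⟩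
  have hfQ : FiniteDimensional ℚ ↥(QK Θ n) := Submodule.finiteDimensional_of_le hQK
  -- the images
  have hmapK : (KK Θ n).map (th m).toLinearMap = dg (RingHom.ker φ) n := by
    apply le_antisymm
    · rintro _ ⟨q, hq, rfl⟩
      exact hθK n q hq
    · intro p hp
      exact ⟨rename Fin.val p, hιK n p hp, th_io p⟩
  have hmapQ : (QK Θ n).map (th m).toLinearMap = dg (Pp m * RingHom.ker φ) n := by
    rw [hPI]
    apply le_antisymm
    · unfold QK
      rw [Submodule.map_span_le]
      rintro z ⟨i, y, hi, hy, rfl⟩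
      rw [AlgHom.toLinearMap_apply, map_mul]
      by_cases him : i < m
      · apply Submodule.subset_span
        refine ⟨⟨i, him⟩, th m y, hi, hθK _ y hy, ?_⟩
        have e1 := th_X_lt (⟨i, him⟩ : Fin m)
        simp only at e1
        rw [e1]
      · rw [th_X_ge i (by omega), zero_mul]
        exact Submodule.zero_mem _
    · rw [Submodule.span_le]
      rintro z ⟨i, y, hi, hy, rfl⟩
      refine ⟨X (i : ℕ) * rename Fin.val y, ?_, ?_⟩
      · apply Submodule.subset_span
        exact ⟨i, rename Fin.val y, hi, hιK _ y hy, rfl⟩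
      · rw [AlgHom.toLinearMap_apply, map_mul, th_X_lt, th_io]
  -- the kernels
  have hXn : (X (n - 1) : MvPolynomial ℕ ℚ) ∈ KK Θ n ⊓ LinearMap.ker (th m).toLinearMap := by
    rw [Submodule.mem_inf, hKKmem]
    refine ⟨⟨hΘ2 _ (by omega), ?_⟩, ?_⟩
    · have := X_hom (n - 1)
      rwa [show n - 1 + 1 = n by omega] at this
    · rw [LinearMap.mem_ker, AlgHom.toLinearMap_apply]
      exact th_X_ge _ (by omega)
  have hcoef : ∀ z ∈ QK Θ n, coeff (Finsupp.single (n - 1) 1) z = 0 := by
    intro z hz
    unfold QK at hz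
    induction hz using Submodule.span_induction with
    | mem z hz =>
      obtain ⟨i, y, hi, hy, rfl⟩ := hz
      rw [coeff_X_mul']
      split_ifs with h
      · rw [Finsupp.mem_support_iff, Finsupp.single_apply] at h
        have hin : n - 1 = i := by
          by_contra hne
          rw [if_neg hne] at h
          exact h rfl
        rw [hin, tsub_self]
        rw [hKKmem] at hy
        have := (hΘ3 y hy.1).1
        exact this
      · rfl
    | zero => simp
    | add x y _ _ hx hy => rw [coeff_add, hx, hy, add_zero]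
    | smul a x _ hx => rw [coeff_smul, hx, smul_zero]
  have hker : KK Θ n ⊓ LinearMap.ker (th m).toLinearMap =
      (QK Θ n ⊓ LinearMap.ker (th m).toLinearMap) ⊔
        Submodule.span ℚ {(X (n - 1) : MvPolynomial ℕ ℚ)} := by
    apply le_antisymm
    · -- the monomials
      have hmon : ∀ (d : ℕ →₀ ℕ) (a : ℚ), Finsupp.weight wi d = n → (∃ i, m ≤ i ∧ d i ≠ 0) →
          monomial d a ∈ (QK Θ n ⊓ LinearMap.ker (th m).toLinearMap) ⊔
            Submodule.span ℚ {(X (n - 1) : MvPolynomial ℕ ℚ)} := by
        intro d a hd hex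
        have hth : ∀ (e : ℕ →₀ ℕ) (b : ℚ), (∃ i, m ≤ i ∧ e i ≠ 0) → th m (monomial e b) = 0 := by
          rintro e b ⟨i, hi, hei⟩
          apply killCompl_monomial_eq_zero_of_notMem_range (a := i)
          · exact Finsupp.mem_support_iff.2 hei
          · rintro ⟨j, hj⟩
            have := j.2
            omega
        by_cases hj : ∃ j, d j ≠ 0 ∧ ∃ i, m ≤ i ∧ (d - Finsupp.single j 1 : ℕ →₀ ℕ) i ≠ 0
        · obtain ⟨j, hdj, hji⟩ := hj
          apply Submodule.mem_sup_left
          have hw := Finsupp.weight_sub_single_add (w := wi) hdj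
          have hwj : wi j = j + 1 := rfl
          rw [hd, hwj] at hw
          rw [Submodule.mem_inf]
          constructor
          · apply Submodule.subset_span
            refine ⟨j, monomial (d - Finsupp.single j 1) a, by omega, ?_, ?_⟩
            · rw [hKKmem]
              refine ⟨by rw [← hφθ, hth _ _ hji, map_zero], ?_⟩
              exact isWeightedHomogeneous_monomial wi _ a (by omega)
            · have e1 : Finsupp.single j 1 + (d - Finsupp.single j 1) = d := by
                rw [add_comm]
                exact Finsupp.sub_add_single_one_cancel hdj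
              conv_lhs => rw [← e1]
              rw [X, monomial_mul, one_mul]
          · rw [LinearMap.mem_ker, AlgHom.toLinearMap_apply]
            exact hth d a hex
        · push Not at hj
          obtain ⟨i, hi, hdi⟩ := hex
          have h2 := hj i hdi i hi
          rw [Finsupp.tsub_apply, Finsupp.single_eq_same] at h2
          have hdi1 : d i = 1 := by omega
          have hds : d = Finsupp.single i 1 := by
            ext j
            by_cases hji : j = i
            · rw [hji, hdi1, Finsupp.single_eq_same]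
            · rw [Finsupp.single_eq_of_ne hji]
              by_contra hdj
              have h3 := hj j hdj i hi
              rw [Finsupp.tsub_apply, Finsupp.single_eq_of_ne (Ne.symm hji)] at h3
              omega
          have hin : i = n - 1 := by
            have h4 := hd
            rw [hds, Finsupp.weight_single] at h4
            have hwj : wi i = i + 1 := rfl
            rw [hwj, smul_eq_mul] at h4
            omega
          apply Submodule.mem_sup_right
          rw [hds, hin, Submodule.mem_span_singleton]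
          refine ⟨a, ?_⟩
          rw [X, smul_monomial, smul_eq_mul, mul_one]
      intro q hq
      rw [Submodule.mem_inf, hKKmem, LinearMap.mem_ker, AlgHom.toLinearMap_apply] at hq
      rw [q.as_sum]
      apply Submodule.sum_mem
      intro d hd
      apply hmon
      · exact hq.1.2 (mem_support_iff.1 hd)
      · by_contra hcon
        push Not at hcon
        apply mem_support_iff.1 hd
        have hsub : (↑d.support : Set ℕ) ⊆ Set.range (Fin.val : Fin m → ℕ) := by
          intro i hi
          rw [Finset.mem_coe, Finsupp.mem_support_iff] at hi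
          have : i < m := by
            by_contra hlt
            exact hi (hcon i (by omega))
          exact ⟨⟨i, this⟩, rfl⟩
        have e1 := Finsupp.mapDomain_comapDomain (Fin.val : Fin m → ℕ) Fin.val_injective d hsub
        have e2 := coeff_killCompl (p := q) (Fin.val_injective (n := m))
          (s := d.comapDomain Fin.val Fin.val_injective.injOn)
        rw [e1] at e2
        rw [← e2]
        change coeff _ (th m q) = 0
        rw [hq.2, coeff_zero]
    · apply sup_le
      · exact inf_le_inf_right _ hQK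
      · rw [Submodule.span_singleton_le_iff_mem]
        exact hXn
  have hdisj : (QK Θ n ⊓ LinearMap.ker (th m).toLinearMap) ⊓
      Submodule.span ℚ {(X (n - 1) : MvPolynomial ℕ ℚ)} = ⊥ := by
    rw [eq_bot_iff]
    intro z hz
    rw [Submodule.mem_inf, Submodule.mem_inf, Submodule.mem_span_singleton] at hz
    obtain ⟨⟨hz1, _⟩, a, rfl⟩ := hz
    have h2 := hcoef _ hz1
    rw [coeff_smul, coeff_X, if_pos rfl, smul_eq_mul, mul_one] at h2
    rw [h2, zero_smul]
    exact Submodule.zero_mem _
  have hfin1 : Module.finrank ℚ ↥(KK Θ n ⊓ LinearMap.ker (th m).toLinearMap) =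
      Module.finrank ℚ ↥(QK Θ n ⊓ LinearMap.ker (th m).toLinearMap) + 1 := by
    have hfi : FiniteDimensional ℚ ↥(QK Θ n ⊓ LinearMap.ker (th m).toLinearMap) :=
      Submodule.finiteDimensional_of_le (inf_le_left)
    have h2 := Submodule.finrank_sup_add_finrank_inf_eq
      (QK Θ n ⊓ LinearMap.ker (th m).toLinearMap) (Submodule.span ℚ {(X (n - 1) : MvPolynomial ℕ ℚ)})
    rw [hdisj, ← hker, finrank_bot, add_zero, finrank_span_singleton (X_ne_zero _)] at h2
    exact h2
  have hA := rn (th m).toLinearMap (KK Θ n)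
  have hB := rn (th m).toLinearMap (QK Θ n)
  rw [hmapK] at hA
  rw [hmapQ] at hB
  have hfdg : FiniteDimensional ℚ ↥(dg (RingHom.ker φ) n) := by
    rw [← hmapK]
    infer_instance
  have hle2 : dg (Pp m * RingHom.ker φ) n ≤ dg (RingHom.ker φ) n := by
    rw [← hmapK, ← hmapQ]
    exact Submodule.map_mono hQK
  have hC : rel (RingHom.ker φ) n + Module.finrank ℚ ↥(dg (Pp m * RingHom.ker φ) n) =
      Module.finrank ℚ ↥(dg (RingHom.ker φ) n) := by
    unfold rel
    have h3 := Submodule.finrank_quotient_add_finrank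
      ((dg (Pp m * RingHom.ker φ) n).comap (dg (RingHom.ker φ) n).subtype)
    rw [← h3]
    congr 1
    rw [← Submodule.finrank_map_subtype_eq, Submodule.map_comap_subtype, inf_eq_right.2 hle2]
  omega

end Pool.Agent.R951.FH.Pres2
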