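import Pool.Agent.R951.FH.Stm

/-!
# MP_15ac55_ag: piece FH-RING
-/

set_option autoImplicit false

namespace Pool.Agent.R951.FH.RINGP

open Equiv Finset

section
variable {α : Type} [Fintype α] [DecidableEq α]

lemma tp_conj (σ τ : Perm α) : tp (τ * σ * τ⁻¹) = tp σ := by
  unfold tp
  rw [Perm.cycleType_conj]

lemma nm_conj (hN : S_NORM) (σ τ : Perm α) : nm (τ * σ * τ⁻¹) = nm σ := by
  rw [(hN α (τ * σ * τ⁻¹) 1).1, (hN α σ 1).1, tp_conj]

lemma nm_mul_le (hN : S_NORM) (σ τ : Perm α) : nm (σ * τ) ≤ nm σ + nm τ := (hN α σ τ).2.2.1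

lemma assoc (hN : S_NORM) (f g h : Perm α → ℚ) : cv (cv f g) h = cv f (cv g h) := by
  funext π
  have hL : cv (cv f g) h π = ∑ σ : Perm α, ∑ τ : Perm α,
      if nm σ + nm τ + nm (τ⁻¹ * (σ⁻¹ * π)) = nm π then
        f σ * g τ * h (τ⁻¹ * (σ⁻¹ * π)) else 0 := by
    have h1 : cv (cv f g) h π = ∑ ρ : Perm α, ∑ σ : Perm α,
        if nm ρ + nm (ρ⁻¹ * π) = nm π ∧ nm σ + nm (σ⁻¹ * ρ) = nm ρ then
          f σ * g (σ⁻¹ * ρ) * h (ρ⁻¹ * π) else 0 := by
      unfold cv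
      refine sum_congr rfl fun ρ _ => ?_
      by_cases h1 : nm ρ + nm (ρ⁻¹ * π) = nm π
      · rw [if_pos h1, sum_mul]
        refine sum_congr rfl fun σ _ => ?_
        by_cases h2 : nm σ + nm (σ⁻¹ * ρ) = nm ρ
        · rw [if_pos h2, if_pos ⟨h1, h2⟩]
        · rw [if_neg h2, if_neg (fun h => h2 h.2), zero_mul]
      · rw [if_neg h1]
        symm
        exact sum_eq_zero fun σ _ => if_neg fun h => h1 h.1
    rw [h1, sum_comm]
    refine sum_congr rfl fun σ _ => ?_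
    refine (Fintype.sum_equiv (Equiv.mulLeft σ) _ _ fun τ => ?_).symm
    simp only [Equiv.coe_mulLeft]
    have e1 : σ⁻¹ * (σ * τ) = τ := by group
    have e2 : (σ * τ)⁻¹ * π = τ⁻¹ * (σ⁻¹ * π) := by group
    rw [e1, e2]
    have h3 := nm_mul_le hN σ τ
    have h4 := nm_mul_le hN (σ * τ) (τ⁻¹ * (σ⁻¹ * π))
    have e3 : σ * τ * (τ⁻¹ * (σ⁻¹ * π)) = π := by group
    rw [e3] at h4
    by_cases h5 : nm σ + nm τ + nm (τ⁻¹ * (σ⁻¹ * π)) = nm π
    · rw [if_pos h5, if_pos ⟨by omega, by omega⟩]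
    · rw [if_neg h5, if_neg (fun h => h5 (by omega))]
  have hR : cv f (cv g h) π = ∑ σ : Perm α, ∑ τ : Perm α,
      if nm σ + nm τ + nm (τ⁻¹ * (σ⁻¹ * π)) = nm π then
        f σ * g τ * h (τ⁻¹ * (σ⁻¹ * π)) else 0 := by
    unfold cv
    refine sum_congr rfl fun σ _ => ?_
    by_cases h1 : nm σ + nm (σ⁻¹ * π) = nm π
    · rw [if_pos h1, mul_sum]
      refine sum_congr rfl fun τ _ => ?_
      by_cases h2 : nm τ + nm (τ⁻¹ * (σ⁻¹ * π)) = nm (σ⁻¹ * π)
      · rw [if_pos h2, if_pos (by omega), mul_assoc]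
      · rw [if_neg h2, if_neg (by omega), mul_zero]
    · rw [if_neg h1]
      symm
      refine sum_eq_zero fun τ _ => if_neg fun h => h1 ?_
      have h3 := nm_mul_le hN σ (σ⁻¹ * π)
      have e3 : σ * (σ⁻¹ * π) = π := by group
      rw [e3] at h3
      have h4 := nm_mul_le hN τ (τ⁻¹ * (σ⁻¹ * π))
      have e4 : τ * (τ⁻¹ * (σ⁻¹ * π)) = σ⁻¹ * π := by group
      rw [e4] at h4
      omega
  rw [hL, hR]

lemma nm_one (hN : S_NORM) : nm (1 : Perm α) = 0 := by
  rw [(hN α 1 1).1]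
  simp [tp, N]

lemma tp_eq_zero {σ : Perm α} : tp σ = 0 ↔ σ = 1 := by
  unfold tp
  rw [Multiset.map_eq_zero, Perm.cycleType_eq_zero]

lemma cv_comm (hN : S_NORM) (F H : T → ℚ) (π : Perm α) :
    cv (ev α F) (ev α H) π = cv (ev α H) (ev α F) π := by
  unfold cv ev
  refine Fintype.sum_equiv ((Equiv.inv (Perm α)).trans (Equiv.mulRight π)) _ _ fun σ => ?_
  simp only [Equiv.trans_apply, Equiv.inv_apply, Equiv.coe_mulRight]
  have e1 : (σ⁻¹ * π)⁻¹ * π = π⁻¹ * σ * (π⁻¹)⁻¹ := by group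
  rw [e1, nm_conj hN, tp_conj, add_comm (nm (σ⁻¹ * π)), mul_comm (H _)]

lemma supp_le (hN : S_NORM) {σ π : Perm α} (h : nm σ + nm (σ⁻¹ * π) = nm π) :
    σ.support ⊆ π.support ∧ (σ⁻¹ * π).support ⊆ π.support := by
  have e3 : σ * (σ⁻¹ * π) = π := by group
  have h1 := (hN α σ (σ⁻¹ * π)).2.2.2
  rw [e3] at h1
  have h2 := h1 h.symm
  have h3 : ∀ x, π x = x → σ x = x := by
    intro x hx
    exact ((h2 x).eq_of_left hx).symm
  constructor
  · intro x hx
    rw [Perm.mem_support] at hx ⊢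
    exact fun h => hx (h3 x h)
  · intro x hx
    rw [Perm.mem_support] at hx ⊢
    intro h
    apply hx
    rw [Perm.mul_apply, h, Perm.inv_eq_iff_eq]
    exact (h3 x h).symm

end

theorem main (hN : S_NORM) (hK : S_KL) : S_RING := by
  have hrep := hK.1
  have hkl := hK.2
  have hev : ∀ (α : Type) [Fintype α] [DecidableEq α] (F H : T → ℚ),
      ev α (star F H) = cv (ev α F) (ev α H) := by
    intro α _ _ F H
    funext π
    exact (hkl α F H π).symm
  refine ⟨fun α _ _ f g h => assoc hN f g h, ?_, ?_, ?_, ?_⟩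
  · intro F H
    funext s
    exact cv_comm hN F H (rep s)
  · intro F
    funext s
    unfold star cv ev
    rw [Finset.sum_eq_single (1 : Perm (Fin (size s)))]
    · rw [nm_one hN, inv_one, one_mul, zero_add, if_pos rfl, hrep s]
      have : tp (1 : Perm (Fin (size s))) = 0 := tp_eq_zero.2 rfl
      rw [this]
      simp [ind]
    · intro σ _ hσ
      have : tp σ ≠ 0 := fun h => hσ (tp_eq_zero.1 h)
      simp [ind, this]
    · intro h
      exact absurd (Finset.mem_univ _) h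
  · intro F H K
    funext s
    change cv (ev _ (star F H)) (ev _ K) (rep s) = cv (ev _ F) (ev _ (star H K)) (rep s)
    rw [hev, hev, assoc hN]
  · intro F H s hs
    have hs' : cv (ev (Fin (size s)) F) (ev (Fin (size s)) H) (rep s) ≠ 0 := hs
    unfold cv at hs'
    obtain ⟨σ, _, hσ⟩ := Finset.exists_ne_zero_of_sum_ne_zero hs'
    by_cases hc : nm σ + nm (σ⁻¹ * rep s) = nm (rep s)
    · rw [if_pos hc] at hσ
      have hF : F (tp σ) ≠ 0 := left_ne_zero_of_mul hσ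
      have hH : H (tp (σ⁻¹ * rep s)) ≠ 0 := right_ne_zero_of_mul hσ
      have h1 := (hN _ σ 1).1
      have h2 := (hN _ (σ⁻¹ * rep s) 1).1
      have h3 := (hN _ (rep s) 1).1
      have h4 := (hN _ σ 1).2.1
      have h5 := (hN _ (σ⁻¹ * rep s) 1).2.1
      have h6 := (hN _ (rep s) 1).2.1
      rw [hrep s] at h3 h6
      have h7 := supp_le hN hc
      have h8 := Finset.card_le_card h7.1
      have h9 := Finset.card_le_card h7.2
      exact ⟨_, _, hF, hH, by omega, by omega, by omega⟩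
    · rw [if_neg hc] at hσ
      exact absurd rfl hσ

end Pool.Agent.R951.FH.RINGP
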