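import Pool.Agent.R951.FH.Defs

/-!
# MP_15ac55_ag: statements of the independent pieces (proofs in NOTES.md)
-/

set_option autoImplicit false

namespace Pool.Agent.R951.FH

open Equiv Finset MvPolynomial

/-! ### permutation side -/

/-- FH-NORM. Norm and support by type, subadditivity of the norm, and the key fact on minimal
products: `σ` preserves every cycle of `σ τ`. -/
def S_NORM : Prop := ∀ (α : Type) [Fintype α] [DecidableEq α] (σ τ : Perm α),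
  nm σ = N (tp σ) ∧ σ.support.card = size (tp σ) ∧ nm (σ * τ) ≤ nm σ + nm τ ∧
  (nm (σ * τ) = nm σ + nm τ → ∀ x, (σ * τ).SameCycle x (σ x))

/-- FH-SPLIT (may assume `S_NORM`). -/
def S_SPLIT : Prop :=
  (∀ (α β : Type) [Fintype α] [DecidableEq α] [Fintype β] [DecidableEq β]
    (π : Perm α) (ρ : Perm β), tp (Perm.sumCongr π ρ) = tp π + tp ρ) ∧
  ∀ (α β : Type) [Fintype α] [DecidableEq α] [Fintype β] [DecidableEq β]
    (π : Perm α) (ρ : Perm β) (f g : Perm (α ⊕ β) → ℚ),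
    cv f g (Perm.sumCongr π ρ) = ∑ σ₁ : Perm α, ∑ σ₂ : Perm β,
      if nm σ₁ + nm (σ₁⁻¹ * π) = nm π ∧ nm σ₂ + nm (σ₂⁻¹ * ρ) = nm ρ then
        f (Perm.sumCongr σ₁ σ₂) * g (Perm.sumCongr (σ₁⁻¹ * π) (σ₂⁻¹ * ρ)) else 0

/-- FH-KL (may assume `S_NORM`, `S_SPLIT`). The product of two class functions only depends on
the type, independently of the number of points. -/
def S_KL : Prop := (∀ s : T, tp (rep s) = s) ∧
  ∀ (α : Type) [Fintype α] [DecidableEq α] (F H : T → ℚ) (π : Perm α),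
    cv (ev α F) (ev α H) π = star F H (tp π)

/-- FH-DER (may assume `S_NORM`, `S_SPLIT`, `S_KL`). Adding a transposition is a derivation. -/
def S_DER : Prop := ∀ (F H : T → ℚ) (s : T),
  star F H (0 ::ₘ s) = star (dd F) H s + star F (dd H) s

/-- FH-TRI (may assume `S_NORM`, `S_SPLIT`, `S_KL`). -/
def S_TRI : Prop := ∀ (k : ℕ) (l s : T), Multiset.card l + 1 ≤ Multiset.card s →
  star (ind {k}) (ind l) s = if s = k ::ₘ l then (s.count k : ℚ) else 0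

/-- FH-RING (may assume `S_NORM`, `S_KL`). -/
def S_RING : Prop :=
  (∀ (α : Type) [Fintype α] [DecidableEq α] (f g h : Perm α → ℚ),
    cv (cv f g) h = cv f (cv g h)) ∧
  (∀ F H : T → ℚ, star F H = star H F) ∧
  (∀ F : T → ℚ, star (ind 0) F = F) ∧
  (∀ F H K : T → ℚ, star (star F H) K = star F (star H K)) ∧
  (∀ (F H : T → ℚ) (s : T), star F H s ≠ 0 →
    ∃ a b, F a ≠ 0 ∧ H b ≠ 0 ∧ N a + N b = N s ∧ size a ≤ size s ∧ size b ≤ size s)

/-- FH-MATCH. Number of `m`-matchings of the cycle graph with `k + m + 2` vertices. -/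
def S_MATCH : Prop := ∀ k m : ℕ, 1 ≤ k + m →
  (((univ : Finset (Finset (ZMod (k + m + 2)))).filter
      (fun S => S.card = m ∧ ∀ x ∈ S, x + 1 ∉ S)).card : ℚ) =
    ((k + m + 2 : ℚ) / (k + 2)) * ((k + 2).choose m : ℚ)

/-- FH-CNT (may assume `S_NORM`, `S_SPLIT`, `S_KL`, `S_MATCH`). -/
def S_CNT : Prop := ∀ (k m : ℕ) (s : T), 0 ∉ s →
  star (ind {k}) (ind (Multiset.replicate m 0)) s =
    if s = {k + m} then ((k + m + 2 : ℚ) / (k + 2)) * ((k + 2).choose m : ℚ) else 0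

/-- FH-ID. -/
def S_ID : Prop := ∀ q : ℕ, 1 ≤ q →
  ∑ k ∈ range (q + 1), (-1 : ℚ) ^ k * ((2 * k + 1).choose k : ℚ) *
    (((q + 2 : ℚ) / (k + 2)) * ((k + 2).choose (q - k) : ℚ)) = 0

/-! ### algebra side -/

/-- The class of the products of `m` disjoint transpositions. -/
noncomputable def FHD.del {G : Type} [CommRing G] [Algebra ℚ G] (D : FHD G) (m : ℕ) : G :=
  D.e.symm (ind (Multiset.replicate m 0))

/-- FH-NEWT (may assume `S_ID`). Newton type identity: the classes of the involutions generate. -/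
def S_NEWT : Prop := ∀ (G : Type) [CommRing G] [Algebra ℚ G] (D : FHD G),
  (∀ (k m : ℕ) (s : T), 0 ∉ s → D.e (D.c k * D.del m) s =
    if s = {k + m} then ((k + m + 2 : ℚ) / (k + 2)) * ((k + 2).choose m : ℚ) else 0) →
  ∀ i : ℕ, D.c i ∈ Algebra.adjoin ℚ {x : G | ∃ j, 1 ≤ j ∧ j ≤ i + 1 ∧ x = D.del j}

/-- FH-PEN. The rank of a linear pencil modulo a subspace is eventually constant. -/
def S_PEN : Prop := ∀ (U V : Type) [AddCommGroup U] [Module ℚ U] [FiniteDimensional ℚ U]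
  [AddCommGroup V] [Module ℚ V] [FiniteDimensional ℚ V] (A B : U →ₗ[ℚ] V) (W : Submodule ℚ V),
  ∃ c K : ℕ, ∀ t : ℕ, K ≤ t →
    Module.finrank ℚ ↥(LinearMap.range (A + (t : ℚ) • B) ⊔ W) = c

/-- FH-GEN. The homogeneous components are finite dimensional and the `c k` generate. -/
def S_GEN : Prop := ∀ (G : Type) [CommRing G] [Algebra ℚ G] (D : FHD G) (n : ℕ),
  FiniteDimensional ℚ (D.gp n) ∧
  (weightedHomogeneousSubmodule ℚ wi n).map
    (aeval D.c : MvPolynomial ℕ ℚ →ₐ[ℚ] G).toLinearMap = D.gp n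

/-- FH-BIJ (may assume `S_GEN`). -/
def S_BIJ : Prop := ∀ (G : Type) [CommRing G] [Algebra ℚ G] (D : FHD G) (h : ℕ → G),
  (∀ i, h i ∈ D.gp (i + 1)) →
  (∀ i, D.c i ∈ (weightedHomogeneousSubmodule ℚ wi (i + 1)).map
    (aeval h : MvPolynomial ℕ ℚ →ₐ[ℚ] G).toLinearMap) →
  ∀ n, (weightedHomogeneousSubmodule ℚ wi n).map
      (aeval h : MvPolynomial ℕ ℚ →ₐ[ℚ] G).toLinearMap = D.gp n ∧
    ∀ p ∈ weightedHomogeneousSubmodule ℚ wi n,
      (aeval h : MvPolynomial ℕ ℚ →ₐ[ℚ] G) p = 0 → p = 0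

/-- FH-STAB (may assume `S_GEN`, `S_PEN`). -/
def S_STAB : Prop := ∀ (G : Type) [CommRing G] [Algebra ℚ G] (D : FHD G) (d₀ n₀ : ℕ),
  ∃ c K : ℕ, ∀ k : ℕ, K ≤ k →
    Module.finrank ℚ ↥(D.J (d₀ + 2 * k) (n₀ + k)) =
      Module.finrank ℚ ↥(D.GJ (d₀ + 2 * k) (n₀ + k)) + c

/-- The degree `n` part of the kernel of a map from the polynomial ring in infinitely many
variables. -/
noncomputable def KK {A : Type} [CommRing A] [Algebra ℚ A] (Θ : MvPolynomial ℕ ℚ →ₐ[ℚ] A)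
    (n : ℕ) : Submodule ℚ (MvPolynomial ℕ ℚ) :=
  LinearMap.ker Θ.toLinearMap ⊓ weightedHomogeneousSubmodule ℚ wi n

/-- The degree `n` part of `Q₊ K`. -/
noncomputable def QK {A : Type} [CommRing A] [Algebra ℚ A] (Θ : MvPolynomial ℕ ℚ →ₐ[ℚ] A)
    (n : ℕ) : Submodule ℚ (MvPolynomial ℕ ℚ) :=
  Submodule.span ℚ {z | ∃ i y, i < n ∧ y ∈ KK Θ (n - 1 - i) ∧ z = X i * y}

/-- FH-PRES1: the degree `n` part of `P₊ I` for a homogeneous ideal `I`. -/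
def S_PRES1 : Prop := ∀ (m n : ℕ) (I : Ideal (MvPolynomial (Fin m) ℚ)),
  (∀ p ∈ I, ∀ j, weightedHomogeneousComponent wt j p ∈ I) →
  dg (Pp m * I) n = Submodule.span ℚ
    {z | ∃ (i : Fin m) (y : MvPolynomial (Fin m) ℚ), (i : ℕ) < n ∧ y ∈ dg I (n - 1 - i) ∧
      z = X i * y}

/-- FH-PRES2 (may assume `S_PRES1`). -/
def S_PRES2 : Prop := ∀ (A : Type) [CommRing A] [Algebra ℚ A] (m n : ℕ), m < n →
  ∀ (Θ : MvPolynomial ℕ ℚ →ₐ[ℚ] A) (φ : MvPolynomial (Fin m) ℚ →ₐ[ℚ] A),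
  (∀ i : Fin m, Θ (X (i : ℕ)) = φ (X i)) → (∀ i, m ≤ i → Θ (X i) = 0) →
  (∀ p, Θ p = 0 → constantCoeff p = 0 ∧ ∀ j, Θ (weightedHomogeneousComponent wi j p) = 0) →
  FiniteDimensional ℚ ↥(KK Θ n) ∧
  Module.finrank ℚ ↥(KK Θ n) =
    Module.finrank ℚ ↥(QK Θ n) + rel (RingHom.ker φ) n + 1

/-- FH-RC (may assume `S_GEN`, `S_BIJ`, `S_PRES2`). -/
def S_RC : Prop := ∀ (G : Type) [CommRing G] [Algebra ℚ G] (D : FHD G)
  (A : Type) [CommRing A] [Algebra ℚ A] (ρ : G →ₐ[ℚ] A) (d : ℕ),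
  (∀ x, ρ x = 0 ↔ ∀ s, size s ≤ d → D.e x s = 0) →
  ∀ g : Fin (d / 2) → A, (∀ i : Fin (d / 2), ∃ x ∈ D.gp ((i : ℕ) + 1), ρ x = g i) →
  Function.Surjective (aeval g : MvPolynomial (Fin (d / 2)) ℚ →ₐ[ℚ] A) → ∀ n,
  (n ≤ d / 2 → rel (RingHom.ker (aeval g : MvPolynomial (Fin (d / 2)) ℚ →ₐ[ℚ] A)) n = 0) ∧
  (d / 2 < n → Module.finrank ℚ ↥(D.J d n) = Module.finrank ℚ ↥(D.GJ d n) +
    rel (RingHom.ker (aeval g : MvPolynomial (Fin (d / 2)) ℚ →ₐ[ℚ] A)) n + 1)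

end Pool.Agent.R951.FH
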